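import Pool.Agent.H682.CH.Machine

set_option autoImplicit false

/-!
# The determinants asked by the algorithm
-/

namespace Pool.Agent.H682.CH

open Matrix Pool.Agent.H558R2 Pool.Agent.H622R3.SM

variable {m n : ℕ}

/-- A column number as an optional column (`none` is the right-hand side). -/
def copt (m n c : ℕ) : Option (Fin (m + (n + n))) :=
  if h : c < m + (n + n) then some ⟨c, h⟩ else none

theorem betaQ_apply (q : List (ℕ × ℕ)) (j : Fin m) : betaQ m n q j = copt m n (colQ q j) := rfl

theorem w_unit (A : Fin m → Fin n → ℝ) (b : Fin m → ℝ) (r : Fin m) {c : ℕ} (hc : c < m) :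
    wmat A b r (copt m n c) = if (r : ℕ) = c then 1 else 0 := by
  have h : c < m + (n + n) := by omega
  have h1 : (⟨c, h⟩ : Fin (m + (n + n))) = colEquiv m n (Sum.inl ⟨c, hc⟩) := by
    ext
    simp [colEquiv]
  rw [copt, dif_pos h]
  simp only [wmat, h1, Equiv.symm_apply_apply, colEntry]
  by_cases h2 : (r : ℕ) = c
  · rw [if_pos (Fin.ext h2), if_pos h2]
  · rw [if_neg (fun h3 => h2 (by rw [h3])), if_neg h2]

theorem w_col (A : Fin m → Fin n → ℝ) (b : Fin m → ℝ) (r : Fin m) (a : Fin n) :
    wmat A b r (copt m n (m + n + a)) = A r a := by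
  have h : m + n + (a : ℕ) < m + (n + n) := by omega
  have h1 : (⟨m + n + a, h⟩ : Fin (m + (n + n))) = colEquiv m n (Sum.inr (Sum.inr a)) := by
    ext
    simp [colEquiv]
    omega
  rw [copt, dif_pos h]
  simp only [wmat, h1, Equiv.symm_apply_apply, colEntry]

theorem w_rhs (A : Fin m → Fin n → ℝ) (b : Fin m → ℝ) (r : Fin m) :
    wmat A b r (copt m n (m + (n + n))) = -b r := by
  rw [copt, dif_neg (lt_irrefl _)]
  rfl

/-- Replacing a column by a combination of the other columns and of a unit vector. -/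
theorem dd_comb {L : ℕ} (w : Matrix (Fin m) (Option (Fin L)) ℝ) (β : Fin m → Option (Fin L))
    (k : Fin m) (x e : Option (Fin L)) (s : ℝ) (c : Fin m → ℝ)
    (h : ∀ r, w r x = s * w r e + ∑ j ∈ Finset.univ.erase k, c j * w r (β j)) :
    dd w (Function.update β k x) = s * dd w (Function.update β k e) := by
  have h1 : (fun r => w r x) = s • (fun r => w r e) +
      ∑ j ∈ Finset.univ.erase k, c j • (fun r => w r (β j)) := by
    ext r
    simp only [Pi.add_apply, Pi.smul_apply, smul_eq_mul, Finset.sum_apply]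
    exact h r
  rw [dd_update, h1, map_add, map_smul, map_sum, Pi.add_apply, Pi.smul_apply, smul_eq_mul,
    ← dd_update, Finset.sum_apply, Finset.sum_eq_zero, add_zero]
  intro j hj
  rw [map_smul, Pi.smul_apply, ← dd_update, dd_eq_zero w _ (i := k) (j := j), smul_zero]
  · exact (Finset.ne_of_mem_erase hj).symm
  · rw [Function.update_self, Function.update_of_ne (Finset.ne_of_mem_erase hj)]

/-- The query of the rows of the list `L` with the columns of `A`. -/
def lq (m n : ℕ) (L : List ℕ) : List (ℕ × ℕ) := L.zipIdx.map fun p => (p.1, m + n + p.2)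

theorem colQ_nil (j : ℕ) : colQ [] j = j := rfl

theorem colQ_cons (p : ℕ × ℕ) (q : List (ℕ × ℕ)) (j : ℕ) :
    colQ (p :: q) j = if p.1 = j then p.2 else colQ q j := by
  unfold colQ
  by_cases h : p.1 = j
  · rw [List.filter_cons_of_pos (by simpa using h), if_pos h]
    rfl
  · rw [List.filter_cons_of_neg (by simpa using h), if_neg h]

theorem colQ_append_left (q q' : List (ℕ × ℕ)) (j : ℕ) (h : ∃ p ∈ q, p.1 = j) :
    colQ (q ++ q') j = colQ q j := by
  induction q with
  | nil =>
    obtain ⟨p, hp, _⟩ := h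
    simp at hp
  | cons p q ih =>
    rw [List.cons_append, colQ_cons, colQ_cons]
    by_cases hp : p.1 = j
    · rw [if_pos hp, if_pos hp]
    · rw [if_neg hp, if_neg hp]
      apply ih
      obtain ⟨p', hp', hj⟩ := h
      rcases List.mem_cons.1 hp' with rfl | hp'
      · exact absurd hj hp
      · exact ⟨p', hp', hj⟩

theorem colQ_append_right (q q' : List (ℕ × ℕ)) (j : ℕ) (h : ∀ p ∈ q, p.1 ≠ j) :
    colQ (q ++ q') j = colQ q' j := by
  induction q with
  | nil => rfl
  | cons p q ih =>
    rw [List.cons_append, colQ_cons, if_neg (h p (by simp))]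
    exact ih fun p' hp' => h p' (by simp [hp'])

theorem mem_lq_fst {L : List ℕ} {j : ℕ} : (∃ p ∈ lq m n L, p.1 = j) ↔ j ∈ L := by
  unfold lq
  constructor
  · rintro ⟨p, hp, rfl⟩
    rw [List.mem_map] at hp
    obtain ⟨⟨a, i⟩, h1, rfl⟩ := hp
    have h2 := List.fst_mem_of_mem_zipIdx h1
    exact h2
  · intro hj
    obtain ⟨i, hi, rfl⟩ := List.mem_iff_getElem.1 hj
    exact ⟨(L[i], m + n + i), List.mem_map.2 ⟨(L[i], i), by
      rw [List.mem_zipIdx_iff_getElem?]; simp [hi], rfl⟩, rfl⟩

theorem colQ_lq_not {L : List ℕ} {j : ℕ} (h : j ∉ L) : colQ (lq m n L) j = j := by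
  have h1 := colQ_append_right (lq m n L) [] j (fun p hp hj => h (mem_lq_fst.1 ⟨p, hp, hj⟩))
  rw [List.append_nil] at h1
  rw [h1, colQ_nil]

theorem colQ_lq_mem {L : List ℕ} (hL : L.Nodup) {a : ℕ} (ha : a < L.length) :
    colQ (lq m n L) L[a] = m + n + a := by
  have key : ∀ (L : List ℕ) (s : ℕ), L.Nodup → ∀ (a : ℕ) (ha : a < L.length),
      colQ ((L.zipIdx s).map fun p => (p.1, m + n + p.2)) L[a] = m + n + (s + a) := by
    intro L
    induction L with
    | nil => intro s _ a ha; simp at ha
    | cons x L ih =>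
      intro s hnd a ha
      rw [List.zipIdx_cons, List.map_cons, colQ_cons]
      rcases a with _ | a
      · simp
      · have h1 : x ≠ L[a]'(by simpa using ha) := by
          intro h2
          exact (List.nodup_cons.1 hnd).1 (h2 ▸ List.getElem_mem _)
        rw [List.getElem_cons_succ, if_neg h1, ih (s + 1) (List.nodup_cons.1 hnd).2 a]
        omega
  have := key L 0 hL a ha
  rw [zero_add] at this
  exact this

section Facts

variable (A : Fin m → Fin n → ℝ) (b : Fin m → ℝ)

/-- The value of a query. -/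
noncomputable def mv (q : List (ℕ × ℕ)) : ℝ := dd (wmat A b) (betaQ m n q)

/-- The type of a row. -/
theorem mv_one (i : Fin m) (x : ℕ) : mv A b [((i : ℕ), x)] = wmat A b i (copt m n x) := by
  have h1 : betaQ m n [((i : ℕ), x)] =
      Function.update (fun j : Fin m => copt m n (j : ℕ)) i (copt m n x) := by
    funext j
    rw [betaQ_apply, colQ_cons, colQ_nil]
    by_cases hj : j = i
    · rw [hj, Function.update_self, if_pos rfl]
    · rw [Function.update_of_ne hj, if_neg (fun h => hj (Fin.ext h.symm))]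
  unfold mv
  rw [h1, dd_comb (wmat A b) (fun j : Fin m => copt m n (j : ℕ)) i (copt m n x) (copt m n (i : ℕ))
    (wmat A b i (copt m n x)) (fun j => wmat A b j (copt m n x))]
  · rw [Function.update_eq_self i (fun j : Fin m => copt m n (j : ℕ))]
    have h2 : dd (wmat A b) (fun j : Fin m => copt m n (j : ℕ)) = 1 := by
      unfold dd
      have : (Matrix.of fun i j : Fin m => wmat A b i (copt m n (j : ℕ))) =
          (1 : Matrix (Fin m) (Fin m) ℝ) := by
        ext r c
        rw [Matrix.of_apply, w_unit A b r c.2, Matrix.one_apply]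
        by_cases h : r = c
        · rw [if_pos h, if_pos (by rw [h])]
        · rw [if_neg h, if_neg (fun h3 => h (Fin.ext h3))]
      rw [this, det_one]
    rw [h2, mul_one]
  · intro r
    rw [w_unit A b r i.2]
    have h3 : ∀ j ∈ Finset.univ.erase i, wmat A b j (copt m n x) *
        wmat A b r (copt m n ((j : Fin m) : ℕ)) =
        if r = j then wmat A b r (copt m n x) else 0 := by
      intro j _
      rw [w_unit A b r j.2]
      by_cases h : r = j
      · rw [if_pos h, if_pos (by rw [h]), mul_one, h]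
      · rw [if_neg h, if_neg (fun h3 => h (Fin.ext h3)), mul_zero]
    rw [Finset.sum_congr rfl h3, Finset.sum_ite_eq]
    by_cases h : r = i
    · rw [if_pos (congrArg Fin.val h), if_neg (fun h4 => Finset.ne_of_mem_erase h4 h), h]
      ring
    · rw [if_neg (fun h3 => h (Fin.ext h3)),
        if_pos (Finset.mem_erase.2 ⟨h, Finset.mem_univ r⟩)]
      ring

/-- Two rows. -/
theorem mv_two {i i' : Fin m} (hii : i ≠ i') (x y : ℕ)
    (h0 : wmat A b i (copt m n x) ≠ 0) : mv A b [((i : ℕ), x), ((i' : ℕ), y)] =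
    wmat A b i (copt m n x) * wmat A b i' (copt m n y) -
      wmat A b i (copt m n y) * wmat A b i' (copt m n x) := by
  set β : Fin m → Option (Fin (m + (n + n))) :=
    Function.update (fun j : Fin m => copt m n (j : ℕ)) i (copt m n x) with hβ
  have h1 : betaQ m n [((i : ℕ), x), ((i' : ℕ), y)] = Function.update β i' (copt m n y) := by
    funext j
    rw [betaQ_apply, colQ_cons, colQ_cons, colQ_nil]
    by_cases hj' : j = i'
    · rw [hj', Function.update_self, if_neg (fun h => hii (Fin.ext h)), if_pos rfl]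
    · rw [Function.update_of_ne hj']
      by_cases hj : j = i
      · rw [hβ, hj, Function.update_self, if_pos rfl]
      · rw [hβ, Function.update_of_ne hj, if_neg (fun h => hj (Fin.ext h.symm)),
          if_neg (fun h => hj' (Fin.ext h.symm))]
  have h2 : Function.update β i' (copt m n (i' : ℕ)) = β := by
    have : β i' = copt m n (i' : ℕ) := by
      rw [hβ, Function.update_of_ne hii.symm]
    rw [← this, Function.update_eq_self]
  have h3 : dd (wmat A b) β = wmat A b i (copt m n x) := by
    rw [← mv_one A b i x]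
    unfold mv
    congr 1
    funext j
    rw [betaQ_apply, colQ_cons, colQ_nil]
    by_cases hj : j = i
    · rw [hβ, hj, Function.update_self, if_pos rfl]
    · rw [hβ, Function.update_of_ne hj, if_neg (fun h => hj (Fin.ext h.symm))]
  set ci := wmat A b i (copt m n y) / wmat A b i (copt m n x) with hci
  unfold mv
  rw [h1, dd_comb (wmat A b) β i' (copt m n y) (copt m n (i' : ℕ))
    (wmat A b i' (copt m n y) - ci * wmat A b i' (copt m n x))
    (fun j => if j = i then ci else wmat A b j (copt m n y) - ci * wmat A b j (copt m n x)), h2, h3]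
  · rw [hci]
    field_simp
  · intro r
    rw [w_unit A b r i'.2]
    have hi : i ∈ Finset.univ.erase i' := by simp [hii]
    rw [← Finset.add_sum_erase _ _ hi, if_pos rfl]
    have h5 : β i = copt m n x := by rw [hβ, Function.update_self]
    rw [h5]
    have h6 : ∀ j ∈ (Finset.univ.erase i').erase i,
        (if j = i then ci else wmat A b j (copt m n y) - ci * wmat A b j (copt m n x)) *
          wmat A b r (β j) =
        if r = j then wmat A b r (copt m n y) - ci * wmat A b r (copt m n x) else 0 := by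
      intro j hj
      have hji : j ≠ i := Finset.ne_of_mem_erase hj
      rw [if_neg hji, hβ, Function.update_of_ne hji, w_unit A b r j.2]
      by_cases h : r = j
      · rw [if_pos h, if_pos (by rw [h]), mul_one, h]
      · rw [if_neg h, if_neg (fun h3 => h (Fin.ext h3)), mul_zero]
    rw [Finset.sum_congr rfl h6, Finset.sum_ite_eq]
    by_cases hr : r = i'
    · rw [if_pos (congrArg Fin.val hr), if_neg (fun h4 =>
        Finset.ne_of_mem_erase (Finset.mem_of_mem_erase h4) hr), hr]
      ring
    · rw [if_neg (fun h3 => hr (Fin.ext h3))]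
      by_cases hr' : r = i
      · rw [if_neg (fun h4 => Finset.ne_of_mem_erase h4 hr'), hci, hr']
        field_simp
        ring
      · rw [if_pos (Finset.mem_erase.2 ⟨hr', Finset.mem_erase.2 ⟨hr, Finset.mem_univ r⟩⟩)]
        ring

variable {A b}

/-- The main relation. -/
theorem mv_slack {L : List ℕ} (hL : L.Nodup) (hlen : L.length = n) (hm : ∀ j ∈ L, j < m)
    {k : ℕ} (hk : k < m) (hkL : k ∉ L) {x : Fin n → ℝ}
    (hx : ∀ r : Fin m, (r : ℕ) ∈ L → A r ⬝ᵥ x - b r = 0) :
    mv A b (lq m n L ++ [(k, m + (n + n))]) =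
      (A ⟨k, hk⟩ ⬝ᵥ x - b ⟨k, hk⟩) * mv A b (lq m n L) := by
  have h1 : betaQ m n (lq m n L ++ [(k, m + (n + n))]) =
      Function.update (betaQ m n (lq m n L)) ⟨k, hk⟩ (copt m n (m + (n + n))) := by
    funext j
    rw [betaQ_apply]
    by_cases hj : j = ⟨k, hk⟩
    · rw [hj, Function.update_self, colQ_append_right _ _ _ (fun p hp h2 =>
        hkL (mem_lq_fst.1 ⟨p, hp, h2⟩)), colQ_cons, if_pos rfl]
    · rw [Function.update_of_ne hj, betaQ_apply]
      by_cases hjL : (j : ℕ) ∈ L
      · rw [colQ_append_left _ _ _ (mem_lq_fst.2 hjL)]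
      · rw [colQ_append_right _ _ _ (fun p hp h2 => hjL (mem_lq_fst.1 ⟨p, hp, h2⟩)), colQ_cons,
          colQ_nil, if_neg (fun h2 => hj (Fin.ext h2.symm)), colQ_lq_not hjL]
  have h2 : Function.update (betaQ m n (lq m n L)) ⟨k, hk⟩ (copt m n k) =
      betaQ m n (lq m n L) := by
    have : betaQ m n (lq m n L) ⟨k, hk⟩ = copt m n k := by
      rw [betaQ_apply]
      simp only
      rw [colQ_lq_not hkL]
    rw [← this, Function.update_eq_self]
  unfold mv
  rw [h1, dd_comb (wmat A b) (betaQ m n (lq m n L)) ⟨k, hk⟩ (copt m n (m + (n + n)))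
    (copt m n k) (A ⟨k, hk⟩ ⬝ᵥ x - b ⟨k, hk⟩)
    (fun j => if h : (j : ℕ) ∈ L then
      -x ⟨L.idxOf (j : ℕ), by rw [← hlen]; exact List.idxOf_lt_length_iff.2 h⟩
      else A j ⬝ᵥ x - b j), h2]
  intro r
  rw [w_rhs, w_unit A b r hk]
  have h3 : ∀ j : Fin m, wmat A b r (betaQ m n (lq m n L) j) =
      if h : (j : ℕ) ∈ L then
        A r ⟨L.idxOf (j : ℕ), by rw [← hlen]; exact List.idxOf_lt_length_iff.2 h⟩
      else if r = j then 1 else 0 := by
    intro j
    rw [betaQ_apply]
    by_cases hj : (j : ℕ) ∈ L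
    · rw [dif_pos hj]
      have h4 : L.idxOf (j : ℕ) < L.length := List.idxOf_lt_length_iff.2 hj
      have h5 := colQ_lq_mem (m := m) (n := n) hL h4
      rw [List.getElem_idxOf] at h5
      rw [h5]
      exact w_col A b r ⟨L.idxOf (j : ℕ), by omega⟩
    · rw [dif_neg hj, colQ_lq_not hj, w_unit A b r j.2]
      by_cases h : r = j
      · rw [if_pos h, if_pos (by rw [h])]
      · rw [if_neg h, if_neg (fun h3 => h (Fin.ext h3))]
  -- the sum over the positions in `L`
  set pos : Fin n → Fin m := fun a => ⟨L[(a : ℕ)]'(by rw [hlen]; exact a.2),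
    hm _ (List.getElem_mem _)⟩ with hpos
  have hinj : Function.Injective pos := by
    intro a c hac
    have h4 := congrArg Fin.val hac
    simp only [hpos] at h4
    exact Fin.ext ((List.Nodup.getElem_inj_iff hL).1 h4)
  have hsum : ∑ j ∈ Finset.univ.erase (⟨k, hk⟩ : Fin m),
      (if h : (j : ℕ) ∈ L then
        -x ⟨L.idxOf (j : ℕ), by rw [← hlen]; exact List.idxOf_lt_length_iff.2 h⟩
        else A j ⬝ᵥ x - b j) * wmat A b r (betaQ m n (lq m n L) j) =
      -(A r ⬝ᵥ x) + (if (r : ℕ) ∈ L ∨ (r : ℕ) = k then 0 else A r ⬝ᵥ x - b r) := by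
    rw [← Finset.sum_filter_add_sum_filter_not _ (fun j : Fin m => (j : ℕ) ∈ L)]
    congr 1
    · have h4 : (Finset.univ.erase (⟨k, hk⟩ : Fin m)).filter (fun j : Fin m => (j : ℕ) ∈ L) =
          Finset.univ.image pos := by
        ext j
        simp only [Finset.mem_filter, Finset.mem_erase, Finset.mem_univ, and_true,
          Finset.mem_image, true_and]
        constructor
        · rintro ⟨_, hj⟩
          have h5 : L.idxOf (j : ℕ) < L.length := List.idxOf_lt_length_iff.2 hj
          refine ⟨⟨L.idxOf (j : ℕ), by omega⟩, Fin.ext ?_⟩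
          simp only [hpos]
          exact List.getElem_idxOf h5
        · rintro ⟨a, rfl⟩
          have h5 : ((pos a : Fin m) : ℕ) ∈ L := List.getElem_mem _
          exact ⟨fun h6 => hkL (by rw [h6] at h5; exact h5), h5⟩
      rw [h4, Finset.sum_image fun a _ c _ h => hinj h, dotProduct, ← Finset.sum_neg_distrib]
      refine Finset.sum_congr rfl fun a _ => ?_
      have h5 : ((pos a : Fin m) : ℕ) ∈ L := List.getElem_mem _
      have h6 : L.idxOf ((pos a : Fin m) : ℕ) = a := by
        simp only [hpos]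
        exact List.Nodup.idxOf_getElem hL _ _
      rw [dif_pos h5, h3, dif_pos h5]
      have h7 : ∀ (h : L.idxOf ((pos a : Fin m) : ℕ) < n),
          (⟨L.idxOf ((pos a : Fin m) : ℕ), h⟩ : Fin n) = a := fun _ => Fin.ext h6
      rw [h7]
      ring
    · have h4 : ∀ j ∈ (Finset.univ.erase (⟨k, hk⟩ : Fin m)).filter
          (fun j : Fin m => ¬ (j : ℕ) ∈ L),
          (if h : (j : ℕ) ∈ L then
          -x ⟨L.idxOf (j : ℕ), by rw [← hlen]; exact List.idxOf_lt_length_iff.2 h⟩
          else A j ⬝ᵥ x - b j) * wmat A b r (betaQ m n (lq m n L) j) =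
          if r = j then A r ⬝ᵥ x - b r else 0 := by
        intro j hj
        have hjL : ¬ (j : ℕ) ∈ L := (Finset.mem_filter.1 hj).2
        rw [dif_neg hjL, h3, dif_neg hjL]
        by_cases h : r = j
        · rw [if_pos h, if_pos h, mul_one, h]
        · rw [if_neg h, if_neg h, mul_zero]
      rw [Finset.sum_congr rfl h4, Finset.sum_ite_eq]
      by_cases h5 : (r : ℕ) ∈ L ∨ (r : ℕ) = k
      · rw [if_pos h5, if_neg]
        simp only [Finset.mem_filter, Finset.mem_erase, Finset.mem_univ, and_true, not_and, not_not]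
        intro h6
        rcases h5 with h5 | h5
        · exact h5
        · exact absurd (Fin.ext h5) h6
      · rw [if_neg h5]
        rw [not_or] at h5
        refine if_pos ?_
        rw [Finset.mem_filter, Finset.mem_erase]
        exact ⟨⟨fun h6 => h5.2 (by rw [h6]), Finset.mem_univ r⟩, h5.1⟩
  rw [hsum]
  by_cases h5 : (r : ℕ) = k
  · have h6 : r = ⟨k, hk⟩ := Fin.ext h5
    rw [if_pos h5, if_pos (Or.inr h5), h6]
    ring
  · rw [if_neg h5]
    by_cases h7 : (r : ℕ) ∈ L
    · rw [if_pos (Or.inl h7)]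
      have := hx r h7
      linarith
    · rw [if_neg (by push Not; exact ⟨h7, h5⟩)]
      ring

/-- The minor of independent rows does not vanish. -/
theorem mv_ne_zero {L : List ℕ} (hL : L.Nodup) (hlen : L.length = n) (hm : ∀ j ∈ L, j < m)
    (hind : ∀ x : Fin n → ℝ, (∀ r : Fin m, (r : ℕ) ∈ L → A r ⬝ᵥ x = 0) → x = 0) :
    mv A b (lq m n L) ≠ 0 := by
  intro h0
  unfold mv dd at h0
  obtain ⟨y, hy0, hy⟩ := Matrix.exists_mulVec_eq_zero_iff.2 h0
  have h3 : ∀ r j : Fin m, wmat A b r (betaQ m n (lq m n L) j) =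
      if h : (j : ℕ) ∈ L then
        A r ⟨L.idxOf (j : ℕ), by rw [← hlen]; exact List.idxOf_lt_length_iff.2 h⟩
      else if r = j then 1 else 0 := by
    intro r j
    rw [betaQ_apply]
    by_cases hj : (j : ℕ) ∈ L
    · rw [dif_pos hj]
      have h4 : L.idxOf (j : ℕ) < L.length := List.idxOf_lt_length_iff.2 hj
      have h5 := colQ_lq_mem (m := m) (n := n) hL h4
      rw [List.getElem_idxOf] at h5
      rw [h5]
      exact w_col A b r ⟨L.idxOf (j : ℕ), by omega⟩
    · rw [dif_neg hj, colQ_lq_not hj, w_unit A b r j.2]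
      by_cases h : r = j
      · rw [if_pos h, if_pos (by rw [h])]
      · rw [if_neg h, if_neg (fun h3 => h (Fin.ext h3))]
  set pos : Fin n → Fin m := fun a => ⟨L[(a : ℕ)]'(by rw [hlen]; exact a.2),
    hm _ (List.getElem_mem _)⟩ with hpos
  have hinj : Function.Injective pos := by
    intro a c hac
    have h4 := congrArg Fin.val hac
    simp only [hpos] at h4
    exact Fin.ext ((List.Nodup.getElem_inj_iff hL).1 h4)
  have hrow : ∀ r : Fin m, (A r ⬝ᵥ fun a => y (pos a)) +
      (if (r : ℕ) ∈ L then 0 else y r) = 0 := by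
    intro r
    have h4 := congrFun hy r
    simp only [Matrix.mulVec, dotProduct, Matrix.of_apply, Pi.zero_apply] at h4
    refine Eq.trans ?_ h4
    rw [← Finset.sum_filter_add_sum_filter_not Finset.univ (fun j : Fin m => (j : ℕ) ∈ L)]
    congr 1
    · have h5 : (Finset.univ : Finset (Fin m)).filter (fun j : Fin m => (j : ℕ) ∈ L) =
          Finset.univ.image pos := by
        ext j
        simp only [Finset.mem_filter, Finset.mem_univ, Finset.mem_image, true_and]
        constructor
        · intro hj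
          have h5 : L.idxOf (j : ℕ) < L.length := List.idxOf_lt_length_iff.2 hj
          refine ⟨⟨L.idxOf (j : ℕ), by omega⟩, Fin.ext ?_⟩
          simp only [hpos]
          exact List.getElem_idxOf h5
        · rintro ⟨a, rfl⟩
          exact List.getElem_mem _
      rw [h5, Finset.sum_image fun a _ c _ h => hinj h, dotProduct]
      refine Finset.sum_congr rfl fun a _ => ?_
      have h6 : ((pos a : Fin m) : ℕ) ∈ L := List.getElem_mem _
      have h7 : L.idxOf ((pos a : Fin m) : ℕ) = a := by
        simp only [hpos]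
        exact List.Nodup.idxOf_getElem hL _ _
      rw [h3, dif_pos h6]
      have h8 : ∀ (h : L.idxOf ((pos a : Fin m) : ℕ) < n),
          (⟨L.idxOf ((pos a : Fin m) : ℕ), h⟩ : Fin n) = a := fun _ => Fin.ext h7
      rw [h8]
    · have h5 : ∀ j ∈ (Finset.univ : Finset (Fin m)).filter (fun j : Fin m => ¬ (j : ℕ) ∈ L),
          wmat A b r (betaQ m n (lq m n L) j) * y j = if r = j then y r else 0 := by
        intro j hj
        rw [h3, dif_neg (Finset.mem_filter.1 hj).2]
        by_cases h : r = j
        · rw [if_pos h, if_pos h, one_mul, h]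
        · rw [if_neg h, if_neg h, zero_mul]
      rw [Finset.sum_congr rfl h5, Finset.sum_ite_eq]
      by_cases h6 : (r : ℕ) ∈ L
      · rw [if_pos h6, if_neg (by simp [h6])]
      · rw [if_neg h6, if_pos (by simp [h6])]
  have hx0 : (fun a => y (pos a)) = 0 := by
    apply hind
    intro r hr
    have := hrow r
    rw [if_pos hr, add_zero] at this
    exact this
  apply hy0
  funext j
  by_cases hj : (j : ℕ) ∈ L
  · have h5 : L.idxOf (j : ℕ) < L.length := List.idxOf_lt_length_iff.2 hj
    have h6 : pos ⟨L.idxOf (j : ℕ), by omega⟩ = j := by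
      refine Fin.ext ?_
      simp only [hpos]
      exact List.getElem_idxOf h5
    have h7 := congrFun hx0 ⟨L.idxOf (j : ℕ), by omega⟩
    rw [h6] at h7
    exact h7
  · have := hrow j
    rw [if_neg hj, hx0, dotProduct_zero, zero_add] at this
    exact this

end Facts

end Pool.Agent.H682.CH
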