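import Pool.Agent.H682.CH.Chain
import Pool.Agent.H682.CH.Det

set_option autoImplicit false

/-!
# The algorithm
-/

namespace Pool.Agent.H682.CH

open Pool.Agent.H622R3.SM

/-- The states: alive, working; the contacts; the two snakes. -/
abbrev Ctl : Type := (Bool × Bool) × (List ℕ × (List ℕ × List ℕ))

/-- The type of the row `i`. -/
def tyB (g : ℕ → ℕ → Outcome) (i : ℕ) : Bool := decide (g i 0 = some true)

/-- The rows `i` and `i + 1` are parallel. -/
def parB (n : ℕ) (g : ℕ → ℕ → Outcome) (i : ℕ) : Bool :=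
  (List.range n).all fun j => decide (g i (j + 1) = none)

/-- The rows `i` and `i + 1` contradict each other. -/
def badB (n : ℕ) (g : ℕ → ℕ → Outcome) (i : ℕ) : Bool :=
  parB n g i && ((tyB g i ^^ tyB g (i + 1)) && decide (g i (n + 1) = some (!tyB g i)))

/-- The row `k` is violated at the point where the rows of `K` and `i` are tight. -/
def violB (n : ℕ) (K : List ℕ) (g : ℕ → ℕ → Outcome) (i k : ℕ) : Bool :=
  !decide (k ∈ K) && (!decide (k = i) && ((g i (n + 2)).isSome &&
    decide (g i (n + 3 + k) = (g i (n + 2)).map fun s => !s)))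

/-- One step of the greedy choice. -/
def gstepB (n : ℕ) (g : ℕ → ℕ → Outcome) (ρ : Bool) (L : List ℕ) (i : ℕ) : List ℕ :=
  if (decide (L.length < n) && (decide (tyB g i = (ρ ^^ decide ((n - 1 - L.length) % 2 = 1))) &&
    !((L.head?.map fun h => decide (h + 1 = i) && parB n g h).getD false))) = true then i :: L
  else L

/-- The greedy chain. -/
def greedyB (n : ℕ) (g : ℕ → ℕ → Outcome) (ρ : Bool) (R : ℕ) : List ℕ :=
  (List.range R).foldl (gstepB n g ρ) []

/-- The snake of type `ρ`. -/
def sn (c : Ctl) (ρ : Bool) : List ℕ := if ρ = true then c.2.2.1 else c.2.2.2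

/-- The snakes with the snake of type `ρ` replaced. -/
def setSn (c : Ctl) (ρ : Bool) (L : List ℕ) : List ℕ × List ℕ :=
  if ρ = true then (L, c.2.2.2) else (c.2.2.1, L)

/-- Lists of length at most `n`. -/
def cut (n : ℕ) (L : List ℕ) : List ℕ := if L.length ≤ n then L else []

/-- The exchange: `i` replaces its left neighbour. -/
def exch (K : List ℕ) (i : ℕ) : List ℕ :=
  i :: K.filter fun k => decide (i < k) || K.any fun k' => decide (k < k') && decide (k' < i)

/-- The candidates for the exchange. -/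
def cands (n R : ℕ) (K : List ℕ) (g : ℕ → ℕ → Outcome) : List ℕ :=
  (List.range R).filter fun i => !decide (i ∈ K) && (violB n K g R i &&
    (List.range R).all fun k => !violB n K g i k)

/-- Phase 0: adjacent rows. -/
def step0 (m n R : ℕ) (c : Ctl) (g : ℕ → ℕ → Outcome) : Ctl :=
  ((c.1.1 && (List.range (m - 1)).all fun i => !badB n g i, false),
    ((sn c (!tyB g R)).tail, c.2.2))

/-- Phase 1: the snake of the other type. -/
def step1 (n R : ℕ) (c : Ctl) (g : ℕ → ℕ → Outcome) : Ctl :=
  ((c.1.1 && !((((sn c (!tyB g R)).head?.map fun l => violB n c.2.1 g l R).getD false)), false),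
    ((sn c (tyB g R)).tail, c.2.2))

/-- Phase 2: the snake of the same type. -/
def step2 (n R : ℕ) (c : Ctl) (g : ℕ → ℕ → Outcome) : Ctl :=
  if (sn c (tyB g R)).isEmpty = true then
    ((c.1.1, decide (n ≤ (greedyB n g (tyB g R) (R + 1)).length)),
      ((greedyB n g (tyB g R) (R + 1)).tail, c.2.2))
  else ((c.1.1, ((sn c (tyB g R)).head?.map fun l => violB n c.2.1 g l R).getD false),
    (c.2.1, c.2.2))

/-- The exchange loop. -/
def step3 (n R : ℕ) (c : Ctl) (g : ℕ → ℕ → Outcome) : Ctl :=
  if c.1.2 = true then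
    if ((List.range R).all fun k => !violB n c.2.1 g R k) = true then
      ((c.1.1, false), (c.2.1, setSn c (tyB g R) (cut n (R :: c.2.1))))
    else ((cands n R c.2.1 g).head?.map fun i =>
      ((c.1, (cut n (exch c.2.1 i), c.2.2)) : Ctl)).getD c
  else c

/-- One step. -/
def stepA (m n R φ : ℕ) (c : Ctl) (g : ℕ → ℕ → Outcome) : Ctl :=
  if φ = 0 then step0 m n R c g else if φ = 1 then step1 n R c g
  else if φ = 2 then step2 n R c g else step3 n R c g

/-- The queries. -/
def qf (m n : ℕ) (K : List ℕ) (i w : ℕ) : List (ℕ × ℕ) :=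
  if w = 0 then [(i, m + n)]
  else if w ≤ n then [(i, m + n), (i + 1, m + n + (w - 1))]
  else if w = n + 1 then [(i, m + n), (i + 1, m + (n + n))]
  else if w = n + 2 then lq m n (K ++ [i])
  else lq m n (K ++ [i]) ++ [(w - (n + 3), m + (n + n))]

/-- Reading the answers. -/
def rd (m n : ℕ) (ans : List Outcome) (i w : ℕ) : Outcome := ans.getD (i * (m + n + 3) + w) none

/-- The strategy. -/
def strat : Strat Ctl where
  init := ((true, false), ([], ([], [])))
  qry m n c j := qf m n c.2.1 (j / (m + n + 3)) (j % (m + n + 3))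
  upd m n r c ans :=
    stepA m n (min (r / (n * m + 3)) m) (r % (n * m + 3)) c (rd m n ans)
  fin c := c.1.1
  B m n := m * (m + n + 3)
  T m n := m * (n * m + 3)

/-! ### Correctness of the steps -/

/-- The sign of a type. -/
def sg (ρ : Bool) : ℝ := if ρ = true then 1 else -1

theorem sg_not (ρ : Bool) : sg (!ρ) = -sg ρ := by
  cases ρ <;> simp [sg]

theorem sg_ne (ρ : Bool) : sg ρ ≠ 0 := by
  cases ρ <;> simp [sg]

variable {n : ℕ}

/-- The answers are true. -/
structure Truth (S : Sys n) (K : List ℕ) (g : ℕ → ℕ → Outcome) : Prop where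
  /-- types -/
  ty : ∀ i < S.m, (tyB g i = true ↔ 0 < S.d i)
  /-- parallel rows -/
  par : ∀ i, i + 1 < S.m → 2 ≤ n → (parB n g i = true ↔ S.t i = S.t (i + 1))
  /-- contradictory rows -/
  bad : ∀ i, i + 1 < S.m → badB n g i = true → ¬ ∃ x, 0 ≤ S.slack i x ∧ 0 ≤ S.slack (i + 1) x
  /-- rows without contradiction -/
  good : ∀ i, i + 1 < S.m → S.t i = S.t (i + 1) → badB n g i = false →
    ∃ x, 0 ≤ S.slack i x ∧ 0 ≤ S.slack (i + 1) x
  /-- violation -/
  viol : ∀ i k, i < S.m → k < S.m → K.Nodup → K.length + 1 = n → i ∉ K →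
    S.Dist (insert i K.toFinset) → ∀ x, (∀ j ∈ insert i K.toFinset, S.slack j x = 0) →
    (violB n K g i k = true ↔ S.slack k x < 0)

namespace Sys

variable {S : Sys n}

/-- Rows at the same point are adjacent. -/
theorem adjacent {i j : ℕ} (hij : i < j) (hj : j < S.m) (ht : S.t i = S.t j) : j = i + 1 := by
  by_contra hne
  have h1 : i + 1 < j := by omega
  have h2 := S.t_mono i (i + 1) (by omega) (by omega)
  have h3 := S.t_mono (i + 1) j h1.le hj
  have h4 : S.t i = S.t (i + 1) := by omega
  have h5 : S.t (i + 1) = S.t j := by omega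
  have e1 := S.pair i (i + 1) (by omega) (by omega) h4
  have e2 := S.pair (i + 1) j h1 hj h5
  have e3 := S.pair i j hij hj ht
  have e4 : 0 < (S.d i * S.d (i + 1)) * (S.d (i + 1) * S.d j) := mul_pos_of_neg_of_neg e1 e2
  have e5 : (S.d i * S.d (i + 1)) * (S.d (i + 1) * S.d j) * (S.d i * S.d j) < 0 :=
    mul_neg_of_pos_of_neg e4 e3
  have e6 : (S.d i * S.d (i + 1)) * (S.d (i + 1) * S.d j) * (S.d i * S.d j) =
      (S.d i * S.d (i + 1) * S.d j) ^ 2 := by ring
  rw [e6] at e5
  exact absurd e5 (not_lt.2 (sq_nonneg _))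

/-- The first rows are feasible together. -/
def Feas (S : Sys n) (R : ℕ) : Prop := ∃ x, ∀ i < R, 0 ≤ S.slack i x

/-- Adjacent rows do not contradict each other. -/
def Pairs (S : Sys n) : Prop := ∀ i j, i < j → j < S.m → S.t i = S.t j →
  ∃ x, 0 ≤ S.slack i x ∧ 0 ≤ S.slack j x

/-- The list of contacts of a snake. -/
def SnL (S : Sys n) (ρ : ℝ) (R : ℕ) (L : List ℕ) : Prop :=
  ∃ l K, L = l :: K ∧ K.Nodup ∧ (∀ k ∈ K, k < l) ∧ S.Snake ρ R (insert l K.toFinset)

/-- The state of a snake. -/
def SnOK (S : Sys n) (ρ : ℝ) (R : ℕ) (L : List ℕ) : Prop :=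
  ((S.greedy ρ R).length < n ∧ L = []) ∨ (n ≤ (S.greedy ρ R).length ∧ S.SnL ρ R L)

/-- Invariant of phase 0. -/
def Inv0 (S : Sys n) (R : ℕ) (c : Ctl) : Prop := S.Feas R ∧ ∀ ρ, S.SnOK (sg ρ) R (sn c ρ)

/-- Invariant of phase 1. -/
def Inv1 (S : Sys n) (R : ℕ) (ρ : Bool) (c : Ctl) : Prop :=
  S.Pairs ∧ S.Feas R ∧ (∀ ρ, S.SnOK (sg ρ) R (sn c ρ)) ∧ c.2.1 = (sn c (!ρ)).tail

/-- Invariant of phase 2. -/
def Inv2 (S : Sys n) (R : ℕ) (ρ : Bool) (c : Ctl) : Prop :=
  S.Feas (R + 1) ∧ S.SnOK (sg (!ρ)) (R + 1) (sn c (!ρ)) ∧ S.SnOK (sg ρ) R (sn c ρ) ∧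
    c.2.1 = (sn c ρ).tail

/-- Invariant of the loop. -/
def Inv3 (S : Sys n) (R j : ℕ) (ρ : Bool) (c : Ctl) : Prop :=
  S.Feas (R + 1) ∧ S.SnOK (sg (!ρ)) (R + 1) (sn c (!ρ)) ∧
    ((c.1.2 = false ∧ S.SnOK (sg ρ) (R + 1) (sn c ρ)) ∨
    (c.1.2 = true ∧ n ≤ (S.greedy (sg ρ) (R + 1)).length ∧ c.2.1.Nodup ∧
      S.Work (sg ρ) R c.2.1.toFinset ∧ j ≤ ∑ k ∈ c.2.1.toFinset, k))

/-- The general form of the invariants. -/
def Ok (S : Sys n) (I : Ctl → Prop) (c : Ctl) : Prop :=
  (c.1.1 = true ∧ I c) ∨ (c.1.1 = false ∧ ¬ S.Feas S.m)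

theorem Feas.mono {R R' : ℕ} (h : S.Feas R') (hR : R ≤ R') : S.Feas R := by
  obtain ⟨x, hx⟩ := h
  exact ⟨x, fun i hi => hx i (hi.trans_le hR)⟩

variable {g : ℕ → ℕ → Outcome} {c : Ctl} {R : ℕ}

theorem _root_.Pool.Agent.H682.CH.Truth.type {K : List ℕ} (hT : Truth S K g) (hR : R < S.m) :
    0 < sg (tyB g R) * S.d R := by
  have h1 := hT.ty R hR
  have h2 := S.d_ne R hR
  cases h : tyB g R
  · rw [h] at h1
    have h3 : ¬ 0 < S.d R := fun h4 => by
      have := h1.2 h4
      simp at this
    have h4 : S.d R < 0 := lt_of_le_of_ne (not_lt.1 h3) h2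
    simp [sg, h4]
  · rw [h] at h1
    simp [sg, h1.1 rfl]

/-- Phase 0. -/
theorem step0_ok {K : List ℕ} (hT : Truth S K g)
    (hI : S.Inv0 R c) (hc : c.1.1 = true) :
    S.Ok (S.Inv1 R (tyB g R)) (step0 S.m n R c g) := by
  obtain ⟨h1, h2⟩ := hI
  cases ha : (List.range (S.m - 1)).all fun i => !badB n g i
  · right
    refine ⟨by simp only [step0, ha, Bool.and_false], ?_⟩
    rw [List.all_eq_false] at ha
    obtain ⟨i, hi, hb⟩ := ha
    rw [List.mem_range] at hi
    have hb' : badB n g i = true := by
      cases h : badB n g i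
      · rw [h] at hb
        exact absurd rfl hb
      · rfl
    rintro ⟨x, hx⟩
    exact hT.bad i (by omega) hb' ⟨x, hx i (by omega), hx (i + 1) (by omega)⟩
  · left
    refine ⟨by simp only [step0, ha, hc, Bool.and_true], ?_, h1, h2, rfl⟩
    intro i j hij hj ht
    have h3 := adjacent hij hj ht
    subst h3
    rw [List.all_eq_true] at ha
    have h4 := ha i (List.mem_range.2 (by omega))
    refine hT.good i hj ht ?_
    simpa using h4

theorem SnL.facts {ρ : ℝ} {l : ℕ} {K : List ℕ} (hnd : K.Nodup) (hl : ∀ k ∈ K, k < l)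
    (h : S.Snake ρ R (insert l K.toFinset)) : K.length + 1 = n ∧ l ∉ K := by
  have h1 : l ∉ K := fun h2 => lt_irrefl _ (hl l h2)
  refine ⟨?_, h1⟩
  have h2 := h.card
  rw [Finset.card_insert_of_notMem (by simpa using h1), List.toFinset_card_of_nodup hnd] at h2
  exact h2

/-- Phase 1. -/
theorem step1_ok (hT : Truth S c.2.1 g) (hR : R < S.m)
    (hI : S.Inv1 R (tyB g R) c) (hc : c.1.1 = true) :
    S.Ok (S.Inv2 R (tyB g R)) (step1 n R c g) := by
  obtain ⟨h1, h2, h3, h4⟩ := hI
  set ρ := tyB g R with hρ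
  have hd : 0 < sg ρ * S.d R := hT.type hR
  rcases h3 (!ρ) with ⟨h5, h6⟩ | ⟨h5, l, K, h6, h7, h8, h9⟩
  · left
    rw [sg_not] at h5
    refine ⟨by simp only [step1, ← hρ, h6, hc]; rfl, ?_, ?_, h3 ρ, rfl⟩
    · refine feasible_of_short hR hd h5 h2 fun i j hij hj ht => ?_
      exact h1 i j hij (by omega) ht
    · left
      rw [sg_not]
      exact ⟨short_succ hd h5, h6⟩
  · rw [h6, List.tail_cons] at h4
    obtain ⟨h10, h11⟩ := SnL.facts h7 h8 h9
    obtain ⟨x, hx1, hx2⟩ := h9.pt
    have hv := hT.viol l R (h9.dist.1 l (Finset.mem_insert_self _ _)) hR (by rw [h4]; exact h7)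
      (by rw [h4]; exact h10) (by rw [h4]; exact h11) (by rw [h4]; exact h9.dist) x
      (by rw [h4]; exact hx1)
    cases hb : violB n c.2.1 g l R
    · left
      have hpos : 0 ≤ S.slack R x := by
        by_contra hcon
        rw [hv.2 (not_le.1 hcon)] at hb
        exact absurd hb (by simp)
      refine ⟨by simp [step1, ← hρ, h6, hc, hb], ?_, ?_, h3 ρ, rfl⟩
      · refine ⟨x, fun i hi => ?_⟩
        rcases Nat.lt_succ_iff_lt_or_eq.1 hi with hi | rfl
        · exact hx2 i hi
        · exact hpos
      · right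
        exact ⟨h5.trans (greedy_mono (Nat.le_succ R)), l, K, h6, h7, h8, h9.succ hx1 hpos⟩
    · right
      refine ⟨by simp [step1, ← hρ, h6, hb], ?_⟩
      rw [sg_not] at h9
      have h12 := Snake.infeasible (sg_ne ρ) h9 hR hd hx1 (hv.1 hb)
      rintro ⟨y, hy⟩
      exact h12 ⟨y, fun i hi => hy i (by omega)⟩

/-- The greedy chain of the algorithm. -/
theorem greedyB_eq {K : List ℕ} (hT : Truth S K g) (ρ : Bool) : ∀ R ≤ S.m,
    greedyB n g ρ R = S.greedy (sg ρ) R := by
  intro R
  induction R with
  | zero => intro _; rfl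
  | succ R ih =>
    intro hR
    have ih := ih (by omega)
    have e1 : greedyB n g ρ (R + 1) = gstepB n g ρ (greedyB n g ρ R) R := by
      rw [greedyB, List.range_succ, List.foldl_append]
      rfl
    rw [e1, ih, greedy_succ]
    set L := S.greedy (sg ρ) R with hL
    have hiff : ((decide (L.length < n) &&
        (decide (tyB g R = (ρ ^^ decide ((n - 1 - L.length) % 2 = 1))) &&
        !((L.head?.map fun h => decide (h + 1 = R) && parB n g h).getD false))) = true) ↔
        (L.length < n ∧ 0 < sg ρ * (-1) ^ (n - 1 - L.length) * S.d R ∧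
        (∀ h ∈ L.head?, S.t h ≠ S.t R)) := by
      simp only [Bool.and_eq_true, decide_eq_true_eq, Bool.not_eq_true']
      refine and_congr_right fun h1 => and_congr ?_ ?_
      · have h2 := hT.ty R (by omega)
        have h3 := S.d_ne R (by omega)
        have h4 : (tyB g R = (ρ ^^ decide ((n - 1 - L.length) % 2 = 1))) ↔
            ((0 < S.d R) ↔ (ρ ^^ decide ((n - 1 - L.length) % 2 = 1)) = true) := by
          rw [← h2]
          exact Bool.eq_iff_iff
        rw [h4]
        rcases Nat.mod_two_eq_zero_or_one (n - 1 - L.length) with h5 | h5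
        · have h6 : (-1 : ℝ) ^ (n - 1 - L.length) = 1 := Even.neg_one_pow (Nat.even_iff.2 h5)
          rw [h6, h5]
          cases ρ
          · have e : sg false = -1 := rfl
            rw [e]
            simp only [zero_ne_one, decide_false, Bool.xor_false, Bool.false_eq_true, iff_false,
              not_lt, mul_one]
            constructor
            · intro h7
              have := lt_of_le_of_ne h7 h3
              linarith
            · intro h7
              linarith
          · have e : sg true = 1 := rfl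
            rw [e]
            simp
        · have h6 : (-1 : ℝ) ^ (n - 1 - L.length) = -1 := Odd.neg_one_pow (Nat.odd_iff.2 h5)
          rw [h6, h5]
          cases ρ
          · have e : sg false = -1 := rfl
            rw [e]
            simp
          · have e : sg true = 1 := rfl
            rw [e]
            simp only [decide_true, Bool.xor_self, Bool.false_eq_true, iff_false, not_lt]
            constructor
            · intro h7
              have := lt_of_le_of_ne h7 h3
              linarith
            · intro h7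
              linarith
      · cases hh : L.head? with
        | none => simp
        | some h =>
          have hmem : h ∈ L := List.mem_of_mem_head? hh
          have hlt : h < R := greedy_lt R h (by rw [← hL]; exact hmem)
          have hlen : 0 < L.length := List.length_pos_of_mem hmem
          simp only [Option.map_some, Option.getD_some, Option.mem_def, Option.some.injEq,
            forall_eq']
          rw [Bool.and_eq_false_iff]
          constructor
          · rintro h2 ht
            have h3 := adjacent hlt (by omega) ht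
            rcases h2 with h2 | h2
            · rw [decide_eq_false_iff_not] at h2
              exact h2 h3.symm
            · have h4 := (hT.par h (by omega) (by omega)).2 (by rw [← h3]; exact ht)
              rw [h4] at h2
              exact absurd h2 (by simp)
          · intro ht
            by_cases h2 : h + 1 = R
            · right
              cases h3 : parB n g h
              · rfl
              · exfalso
                apply ht
                rw [← h2]
                exact (hT.par h (by omega) (by omega)).1 h3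
            · left
              rw [decide_eq_false_iff_not]
              exact h2
    unfold gstepB gstep
    by_cases h : (L.length < n ∧ 0 < sg ρ * (-1) ^ (n - 1 - L.length) * S.d R ∧
        (∀ h ∈ L.head?, S.t h ≠ S.t R))
    · rw [if_pos (hiff.2 h)]
      exact (if_pos h).symm
    · rw [if_neg (fun h1 => h (hiff.1 h1))]
      exact (if_neg h).symm

/-- Phase 2. -/
theorem step2_ok (hT : Truth S c.2.1 g) (hR : R < S.m)
    (hI : S.Inv2 R (tyB g R) c) (hc : c.1.1 = true) :
    S.Ok (S.Inv3 R 0 (tyB g R)) (step2 n R c g) := by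
  obtain ⟨h1, h2, h3, h4⟩ := hI
  set ρ := tyB g R with hρ
  have hd : 0 < sg ρ * S.d R := hT.type hR
  left
  rcases h3 with ⟨h5, h6⟩ | ⟨h5, l, K, h6, h7, h8, h9⟩
  · have e0 : step2 n R c g = ((c.1.1, decide (n ≤ (greedyB n g ρ (R + 1)).length)),
        ((greedyB n g ρ (R + 1)).tail, c.2.2)) := by
      unfold step2
      rw [← hρ, if_pos (by rw [h6]; rfl)]
    rw [e0, greedyB_eq hT ρ (R + 1) hR]
    refine ⟨hc, h1, h2, ?_⟩
    by_cases hlen : n ≤ (S.greedy (sg ρ) (R + 1)).length
    · obtain ⟨x, hx⟩ := h1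
      obtain ⟨h10, h11⟩ := work_of_greedy hR (sg_ne ρ) h5 hlen (fun i hi => hx i (by omega))
      right
      rw [h10, List.tail_cons]
      refine ⟨?_, ?_, greedy_nodup hR.le, h11, Nat.zero_le _⟩
      · rw [h10] at hlen
        simpa using hlen
      · rw [h10] at hlen
        simpa using hlen
    · left
      refine ⟨by simpa using hlen, ?_⟩
      left
      exact ⟨by omega, h6⟩
  · have e0 : step2 n R c g = ((c.1.1, violB n c.2.1 g l R), (c.2.1, c.2.2)) := by
      unfold step2
      rw [← hρ, if_neg (by rw [h6]; simp), h6]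
      rfl
    rw [e0]
    rw [h6, List.tail_cons] at h4
    obtain ⟨h10, h11⟩ := SnL.facts h7 h8 h9
    obtain ⟨x, hx1, hx2⟩ := h9.pt
    have hv := hT.viol l R (h9.dist.1 l (Finset.mem_insert_self _ _)) hR (by rw [h4]; exact h7)
      (by rw [h4]; exact h10) (by rw [h4]; exact h11) (by rw [h4]; exact h9.dist) x
      (by rw [h4]; exact hx1)
    refine ⟨hc, h1, h2, ?_⟩
    cases hb : violB n c.2.1 g l R
    · left
      have hpos : 0 ≤ S.slack R x := by
        by_contra hcon
        rw [hv.2 (not_le.1 hcon)] at hb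
        exact absurd hb (by simp)
      refine ⟨rfl, Or.inr ⟨h5.trans (greedy_mono (Nat.le_succ R)), l, K, h6, h7, h8,
        h9.succ hx1 hpos⟩⟩
    · right
      refine ⟨rfl, h5.trans (greedy_mono (Nat.le_succ R)), by rw [h4]; exact h7, ?_,
        Nat.zero_le _⟩
      rw [h4]
      exact h9.work hR rfl (fun k hk => h8 k (List.mem_toFinset.1 hk)) hx1 (hv.1 hb).le

/-- The exchange. -/
theorem exch_toFinset {K : List ℕ} {i l : ℕ} (hl : l ∈ K) (hli : l < i)
    (hmax : ∀ k ∈ K, k < i → k ≤ l) (hi : i ∉ K) :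
    (exch K i).toFinset = insert i (K.toFinset.erase l) := by
  ext k
  simp only [exch, List.toFinset_cons, Finset.mem_insert, List.mem_toFinset, List.mem_filter,
    Finset.mem_erase, Bool.or_eq_true, decide_eq_true_eq, List.any_eq_true, Bool.and_eq_true]
  refine or_congr_right ?_
  constructor
  · rintro ⟨h1, h2⟩
    refine ⟨?_, h1⟩
    rintro rfl
    rcases h2 with h2 | ⟨k', h3, h4, h5⟩
    · omega
    · have := hmax k' h3 h5
      omega
  · rintro ⟨h1, h2⟩
    refine ⟨h2, ?_⟩
    rcases lt_trichotomy k i with h3 | h3 | h3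
    · right
      have := hmax k h2 h3
      exact ⟨l, hl, by omega, hli⟩
    · exact absurd (h3 ▸ h2) hi
    · exact Or.inl h3

theorem exch_nodup {K : List ℕ} {i : ℕ} (hK : K.Nodup) (hi : i ∉ K) : (exch K i).Nodup := by
  rw [exch, List.nodup_cons]
  exact ⟨fun h => hi (List.mem_of_mem_filter h), hK.filter _⟩

theorem cut_eq {L : List ℕ} (h : L.length ≤ n) : cut n L = L := if_pos h

theorem sn_setSn (c : Ctl) (a : Bool × Bool) (K : List ℕ) (ρ : Bool) (L : List ℕ) :
    sn (a, (K, setSn c ρ L)) ρ = L ∧ sn (a, (K, setSn c ρ L)) (!ρ) = sn c (!ρ) := by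
  cases ρ <;> simp [sn, setSn]

/-- The loop. -/
theorem step3_ok (hT : Truth S c.2.1 g) (hR : R < S.m) {j : ℕ}
    (hI : S.Inv3 R j (tyB g R) c) (hc : c.1.1 = true) :
    S.Ok (S.Inv3 R (j + 1) (tyB g R)) (step3 n R c g) := by
  obtain ⟨h1, h2, h3⟩ := hI
  set ρ := tyB g R with hρ
  have hd : 0 < sg ρ * S.d R := hT.type hR
  rcases h3 with ⟨h3, h4⟩ | ⟨h3, h4, h5, h6, h7⟩
  · left
    have e0 : step3 n R c g = c := by
      unfold step3
      rw [if_neg (by rw [h3]; simp)]
    rw [e0]
    exact ⟨hc, h1, h2, Or.inl ⟨h3, h4⟩⟩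
  · left
    obtain ⟨y, hy⟩ := h1
    have hy' : ∀ i ≤ R, 0 ≤ S.slack i y := fun i hi => hy i (by omega)
    have hRK : R ∉ c.2.1 := fun h => h6.notMem (List.mem_toFinset.2 h)
    have hlenK : c.2.1.length + 1 = n := by
      have := h6.card
      rwa [List.toFinset_card_of_nodup h5] at this
    obtain ⟨p, hp⟩ := exists_tight h6.dist h6.card_insert
    have hvR : ∀ k < S.m, (violB n c.2.1 g R k = true ↔ S.slack k p < 0) := fun k hk =>
      hT.viol R k hR hk h5 hlenK hRK h6.dist p hp
    by_cases hall : ∀ i < R, 0 ≤ S.slack i p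
    · have e1 : ((List.range R).all fun k => !violB n c.2.1 g R k) = true := by
        rw [List.all_eq_true]
        intro k hk
        rw [List.mem_range] at hk
        cases h8 : violB n c.2.1 g R k
        · rfl
        · have := (hvR k (by omega)).1 h8
          have := hall k hk
          linarith
      have e0 : step3 n R c g = ((c.1.1, false), (c.2.1, setSn c ρ (R :: c.2.1))) := by
        unfold step3
        rw [if_pos h3, if_pos e1, cut_eq (by rw [List.length_cons]; omega), ← hρ]
      rw [e0]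
      obtain ⟨e2, e3⟩ := sn_setSn c (c.1.1, false) c.2.1 ρ (R :: c.2.1)
      refine ⟨hc, ⟨y, hy⟩, by rw [e3]; exact h2, Or.inl ⟨rfl, ?_⟩⟩
      rw [e2]
      right
      refine ⟨h4, R, c.2.1, rfl, h5, fun k hk => h6.lt k (List.mem_toFinset.2 hk), ?_⟩
      exact h6.snake hd hp hall
    · have e1 : ¬ ((List.range R).all fun k => !violB n c.2.1 g R k) = true := by
        rw [List.all_eq_true]
        intro h8
        apply hall
        intro i hi
        by_contra hcon
        have h9 := h8 i (List.mem_range.2 hi)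
        rw [(hvR i (by omega)).2 (not_le.1 hcon)] at h9
        simp at h9
      obtain ⟨i0, hi0, hneg0, q0, hq0, hq0'⟩ := h6.exists_violated hp hall
      have hviol : ∀ i, i < R → i ∉ c.2.1 → S.slack i p < 0 → ∀ q : Fin n → ℝ,
          (∀ j ∈ insert i c.2.1.toFinset, S.slack j q = 0) → ∀ k < S.m,
          (violB n c.2.1 g i k = true ↔ S.slack k q < 0) := by
        intro i hi hiK hneg q hq k hk
        obtain ⟨_, hD, _⟩ := h6.violated hR hy' hp hi hneg
        exact hT.viol i k (by omega) hk h5 hlenK hiK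
          (hD.subset (Finset.insert_subset_insert _ (Finset.subset_insert _ _))) q hq
      have hi0K : i0 ∉ c.2.1 := by
        obtain ⟨h8, _⟩ := h6.violated hR hy' hp hi0 hneg0
        exact fun h9 => h8 (List.mem_toFinset.2 h9)
      have hmem : i0 ∈ cands n R c.2.1 g := by
        unfold cands
        rw [List.mem_filter, List.mem_range]
        refine ⟨hi0, ?_⟩
        rw [Bool.and_eq_true, Bool.and_eq_true, List.all_eq_true]
        refine ⟨by simpa using hi0K, (hvR i0 (by omega)).2 hneg0, fun k hk => ?_⟩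
        rw [List.mem_range] at hk
        cases h8 : violB n c.2.1 g i0 k
        · rfl
        · have := (hviol i0 hi0 hi0K hneg0 q0 hq0 k (by omega)).1 h8
          have := hq0' k hk
          linarith
      obtain ⟨i, hhead⟩ : ∃ i, (cands n R c.2.1 g).head? = some i := by
        cases h8 : cands n R c.2.1 g with
        | nil => rw [h8] at hmem; simp at hmem
        | cons a L => exact ⟨a, rfl⟩
      have hi : i ∈ cands n R c.2.1 g := List.mem_of_mem_head? hhead
      unfold cands at hi
      rw [List.mem_filter, List.mem_range, Bool.and_eq_true, Bool.and_eq_true,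
        List.all_eq_true] at hi
      obtain ⟨hiR, hiK, hiv, hik⟩ := hi
      have hiK : i ∉ c.2.1 := by simpa using hiK
      have hneg : S.slack i p < 0 := (hvR i (by omega)).1 hiv
      obtain ⟨_, hD, q, hq, _⟩ := h6.violated hR hy' hp hiR hneg
      have hqf : ∀ i' < R, 0 ≤ S.slack i' q := by
        intro k hk
        by_contra hcon
        have h9 := hik k (List.mem_range.2 hk)
        rw [(hviol i hiR hiK hneg q hq k (by omega)).2 (not_le.1 hcon)] at h9
        simp at h9
      obtain ⟨l, hl, hli, hmax, hW⟩ := h6.exchange (sg_ne ρ) hR hd hy' hp hiR hneg hq hqf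
      have hl' : l ∈ c.2.1 := List.mem_toFinset.1 hl
      have hfin := exch_toFinset hl' hli (fun k hk => hmax k (List.mem_toFinset.2 hk)) hiK
      have hnd := exch_nodup h5 hiK
      have hlen : (exch c.2.1 i).length ≤ n := by
        have h8 := hW.card
        rw [← hfin, List.toFinset_card_of_nodup hnd] at h8
        omega
      have e0 : step3 n R c g = (c.1, (exch c.2.1 i, c.2.2)) := by
        unfold step3
        rw [if_pos h3, if_neg e1, hhead, Option.map_some, Option.getD_some, cut_eq hlen]
      rw [e0]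
      refine ⟨hc, ⟨y, hy⟩, h2, Or.inr ⟨h3, h4, hnd, ?_, ?_⟩⟩
      · simp only [hfin]
        exact hW
      · simp only [hfin]
        have h8 : i ∉ c.2.1.toFinset.erase l := fun h9 =>
          hiK (List.mem_toFinset.1 (Finset.mem_of_mem_erase h9))
        rw [Finset.sum_insert h8]
        have h9 := Finset.add_sum_erase c.2.1.toFinset (fun k => k) hl
        omega

/-- The end of the loop. -/
theorem inv3_end (hR : R < S.m) {ρ : Bool} (hI : S.Inv3 R (n * S.m) ρ c) : S.Inv0 (R + 1) c := by
  obtain ⟨h1, h2, h3⟩ := hI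
  rcases h3 with ⟨h3, h4⟩ | ⟨h3, h4, h5, h6, h7⟩
  · refine ⟨h1, fun ρ' => ?_⟩
    by_cases h : ρ' = ρ
    · rw [h]
      exact h4
    · have : ρ' = !ρ := by
        cases ρ' <;> cases ρ <;> simp at h ⊢
      rw [this]
      exact h2
  · exfalso
    have h8 : ∑ k ∈ c.2.1.toFinset, k ≤ c.2.1.toFinset.card * S.m := by
      have := Finset.sum_le_card_nsmul c.2.1.toFinset (fun k => k) S.m
        (fun k hk => ((h6.lt k hk).trans hR).le)
      simpa using this
    have h9 := h6.card
    have h10 : (c.2.1.toFinset.card + 1) * S.m = n * S.m := congrArg (fun x => x * S.m) h9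
    rw [add_mul, one_mul] at h10
    omega

end Sys

end Pool.Agent.H682.CH
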