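import Pool.Agent.H682.CH.Algo

set_option autoImplicit false

/-!
# Correctness of the algorithm
-/

namespace Pool.Agent.H682.CH

open Matrix Pool.Agent.H558R2 Pool.Agent.H622R3.SM

/-- The rows of `A` are multiples of the rows of a Chebyshev system, in order; at most two rows for
each row of the system, with factors of different sign. -/
def Chebyshev (m n : ℕ) (A : Matrix (Fin m) (Fin n) ℝ) : Prop :=
  ∃ (N : ℕ) (V : Fin N → Fin n → ℝ) (σ : ℝ) (t : Fin m → Fin N) (d : Fin m → ℝ),
    n ≤ N ∧ (∀ s : Fin n → Fin N, StrictMono s → 0 < σ * (Matrix.of fun k j => V (s k) j).det) ∧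
    (∀ p, ∀ j : Fin n, (j : ℕ) = 0 → 0 < V p j) ∧
    Monotone t ∧ (∀ i, d i ≠ 0) ∧ (∀ i i', i < i' → t i = t i' → d i * d i' < 0) ∧
    ∀ i j, A i j = d i * V (t i) j

section Signs

theorem signOut_true {v : ℝ} : signOut v = some true ↔ 0 < v := by
  unfold signOut
  split_ifs with h1 h2
  · simp [h1]
  · simp [h1]
  · simp [h1]

theorem signOut_false {v : ℝ} : signOut v = some false ↔ v < 0 := by
  unfold signOut
  split_ifs with h1 h2
  · simp [h1.le]
  · simp [h2]
  · simp [h2]

theorem signOut_none {v : ℝ} : signOut v = none ↔ v = 0 := by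
  unfold signOut
  split_ifs with h1 h2
  · simp [h1.ne']
  · simp [h2.ne]
  · simp only [true_iff]
    exact le_antisymm (not_lt.1 h1) (not_lt.1 h2)

theorem signOut_opp {s D : ℝ} (hD : D ≠ 0) : ((signOut D).isSome &&
    decide (signOut (s * D) = (signOut D).map fun s => !s)) = true ↔ s < 0 := by
  rcases lt_or_gt_of_ne hD with h | h
  · rw [signOut_false.2 h]
    simp only [Option.isSome_some, Option.map_some, Bool.not_false, Bool.true_and,
      decide_eq_true_eq]
    rw [signOut_true]
    constructor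
    · intro h1
      by_contra h2
      push Not at h2
      have := mul_nonpos_of_nonneg_of_nonpos h2 h.le
      linarith
    · intro h1
      exact mul_pos_of_neg_of_neg h1 h
  · rw [signOut_true.2 h]
    simp only [Option.isSome_some, Option.map_some, Bool.not_true, Bool.true_and,
      decide_eq_true_eq]
    rw [signOut_false]
    constructor
    · intro h1
      by_contra h2
      push Not at h2
      have := mul_nonneg h2 h.le
      linarith
    · intro h1
      exact mul_neg_of_neg_of_pos h1 h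

end Signs

/-- The relation between the matrix and the system. -/
structure Rep {m n : ℕ} (A : Fin m → Fin n → ℝ) (b : Fin m → ℝ) (S : Sys n) : Prop where
  /-- number of rows -/
  m_eq : S.m = m
  /-- slack -/
  row : ∀ (i : Fin m) (j : Fin n), A i j = S.d i * S.V (S.t i) j
  /-- right-hand side -/
  rhs : ∀ i : Fin m, b i = S.b i
  /-- the first column is positive -/
  pos : ∀ p < S.N, ∀ j : Fin n, (j : ℕ) = 0 → 0 < S.V p j

theorem exists_rep {m n : ℕ} {A : Matrix (Fin m) (Fin n) ℝ} (b : Fin m → ℝ)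
    (h : Chebyshev m n A) : ∃ S : Sys n, Rep (fun i => A i) b S := by
  obtain ⟨N, V, σ, t, d, h1, h2, h3, h4, h5, h6, h7⟩ := h
  refine ⟨{ m := m, N := N, V := fun q => if hq : q < N then V ⟨q, hq⟩ else 0, σ := σ,
            t := fun i => if hi : i < m then (t ⟨i, hi⟩ : ℕ) else 0,
            d := fun i => if hi : i < m then d ⟨i, hi⟩ else 0,
            b := fun i => if hi : i < m then b ⟨i, hi⟩ else 0,
            cheb := ⟨h1, ?_⟩, t_lt := ?_, t_mono := ?_, d_ne := ?_, pair := ?_ }, rfl, ?_, ?_, ?_⟩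
  · intro s hs hN
    have h8 := h2 (fun k => ⟨s k, hN k⟩) (fun a c hac => hs hac)
    have h9 : (Matrix.of fun k j => V ⟨s k, hN k⟩ j) =
        (Matrix.of fun (k : Fin n) (j : Fin n) =>
          (if hq : s k < N then V ⟨s k, hq⟩ else 0 : Fin n → ℝ) j) := by
      ext k j
      simp only [Matrix.of_apply, dif_pos (hN k)]
    rw [← h9]
    exact h8
  · intro i hi
    simp only [dif_pos hi]
    exact (t ⟨i, hi⟩).2
  · intro i j hij hj
    simp only [dif_pos hj, dif_pos (hij.trans_lt hj)]
    exact h4 (a := ⟨i, hij.trans_lt hj⟩) (b := ⟨j, hj⟩) hij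
  · intro i hi
    simp only [dif_pos hi]
    exact h5 _
  · intro i j hij hj
    simp only [dif_pos hj, dif_pos (hij.trans hj)]
    intro h8
    exact h6 ⟨i, hij.trans hj⟩ ⟨j, hj⟩ hij (Fin.ext h8)
  · intro i j
    simp only [Fin.is_lt, dite_true]
    exact h7 i j
  · intro i
    simp only [dif_pos i.2]
  · intro p hp j hj
    simp only at hp
    simp only [dif_pos hp]
    exact h3 _ j hj

namespace Rep

variable {m n : ℕ} {A : Fin m → Fin n → ℝ} {b : Fin m → ℝ} {S : Sys n}

theorem dot (h : Rep A b S) (i : Fin m) (x : Fin n → ℝ) :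
    A i ⬝ᵥ x = S.d i * (S.V (S.t i) ⬝ᵥ x) := by
  rw [dotProduct, dotProduct, Finset.mul_sum]
  refine Finset.sum_congr rfl fun j _ => ?_
  rw [h.row]
  ring

theorem slack (h : Rep A b S) (i : Fin m) (x : Fin n → ℝ) :
    S.slack i x = A i ⬝ᵥ x - b i := by
  rw [h.dot, h.rhs, Sys.slack]

theorem feas (h : Rep A b S) : S.Feas S.m ↔ ∃ x : Fin n → ℝ, ∀ i, b i ≤ A i ⬝ᵥ x := by
  constructor
  · rintro ⟨x, hx⟩
    refine ⟨x, fun i => ?_⟩
    have h1 := hx i (by rw [h.m_eq]; exact i.2)
    rw [h.slack] at h1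
    linarith
  · rintro ⟨x, hx⟩
    refine ⟨x, fun i hi => ?_⟩
    rw [h.m_eq] at hi
    have h1 := hx ⟨i, hi⟩
    have h2 := h.slack ⟨i, hi⟩ x
    simp only at h2
    rw [h2]
    linarith

/-- The value of the system at column `0`. -/
theorem col0 (h : Rep A b S) (hn : 0 < n) (i : Fin m) : ∃ v : ℝ, 0 < v ∧
    A i ⟨0, hn⟩ = S.d i * v ∧ S.V (S.t i) ⟨0, hn⟩ = v := by
  refine ⟨S.V (S.t i) ⟨0, hn⟩, h.pos _ (S.t_lt i (by rw [h.m_eq]; exact i.2)) _ rfl, h.row _ _, rfl⟩

theorem truth (h : Rep A b S) (hn : 0 < n) {K : List ℕ} {g : ℕ → ℕ → Outcome}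
    (hg : ∀ i < m, ∀ w < m + n + 3, g i w = Strat.tr (A, b) (qf m n K i w)) : Truth S K g := by
  have hm := h.m_eq
  have hc0 : ∀ i : Fin m, wmat A b i (copt m n (m + n)) = A i ⟨0, hn⟩ := fun i =>
    w_col A b i ⟨0, hn⟩
  have hd : ∀ i : Fin m, S.d i ≠ 0 := fun i => S.d_ne i (by rw [hm]; exact i.2)
  have hA0 : ∀ i : Fin m, A i ⟨0, hn⟩ ≠ 0 := by
    intro i
    obtain ⟨v, h1, h2, _⟩ := h.col0 hn i
    rw [h2]
    exact mul_ne_zero (hd i) h1.ne'
  -- types
  have hty : ∀ i : Fin m, (tyB g i = true ↔ 0 < A i ⟨0, hn⟩) := by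
    intro i
    unfold tyB
    rw [decide_eq_true_eq, hg i i.2 0 (by omega)]
    have e : qf m n K i 0 = [((i : ℕ), m + n)] := if_pos rfl
    rw [e]
    change signOut (mv A b _) = some true ↔ _
    rw [signOut_true, mv_one, hc0]
  have hty' : ∀ i : Fin m, (tyB g i = true ↔ 0 < S.d i) := by
    intro i
    rw [hty]
    obtain ⟨v, h1, h2, _⟩ := h.col0 hn i
    rw [h2]
    exact mul_pos_iff_of_pos_right h1
  -- parallel
  have hpar : ∀ i i' : Fin m, (i' : ℕ) = i + 1 →
      (parB n g i = true ↔ ∀ j : Fin n, A i ⟨0, hn⟩ * A i' j = A i j * A i' ⟨0, hn⟩) := by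
    intro i i' hi
    have hne : i ≠ i' := fun h1 => by
      have := congrArg Fin.val h1
      omega
    unfold parB
    rw [List.all_eq_true]
    have key : ∀ j : Fin n, g i ((j : ℕ) + 1) = none ↔
        A i ⟨0, hn⟩ * A i' j = A i j * A i' ⟨0, hn⟩ := by
      intro j
      have hj := j.2
      rw [hg i i.2 (j + 1) (by omega)]
      have e : qf m n K i (j + 1) = [((i : ℕ), m + n), ((i' : ℕ), m + n + j)] := by
        unfold qf
        rw [if_neg (by omega), if_pos (by omega), hi, Nat.add_sub_cancel]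
      rw [e]
      change signOut (mv A b _) = none ↔ _
      rw [signOut_none, mv_two A b hne _ _ (by rw [hc0]; exact hA0 i), hc0, hc0,
        w_col A b i' j, w_col A b i j, sub_eq_zero]
    constructor
    · intro h1 j
      have h2 := h1 j (List.mem_range.2 j.2)
      rw [decide_eq_true_eq] at h2
      exact (key j).1 h2
    · intro h1 j hj
      rw [List.mem_range] at hj
      rw [decide_eq_true_eq]
      exact (key ⟨j, hj⟩).2 (h1 ⟨j, hj⟩)
  have hpar' : ∀ i i' : Fin m, (i' : ℕ) = i + 1 → S.t i = S.t i' → parB n g i = true := by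
    intro i i' hi ht
    rw [hpar i i' hi]
    intro j
    rw [h.row, h.row, h.row, h.row, ht]
    ring
  -- the pair test
  have hbad : ∀ i i' : Fin m, (i' : ℕ) = i + 1 →
      g i (n + 1) = signOut (b i * A i' ⟨0, hn⟩ - A i ⟨0, hn⟩ * b i') := by
    intro i i' hi
    have hne : i ≠ i' := fun h1 => by
      have := congrArg Fin.val h1
      omega
    have hm1 := i.2
    rw [hg i i.2 (n + 1) (by omega)]
    have e : qf m n K i (n + 1) = [((i : ℕ), m + n), ((i' : ℕ), m + (n + n))] := by
      unfold qf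
      rw [if_neg (by omega), if_neg (by omega), if_pos rfl, hi]
    rw [e]
    change signOut (mv A b _) = _
    rw [mv_two A b hne _ _ (by rw [hc0]; exact hA0 i), hc0, hc0, w_rhs, w_rhs]
    congr 1
    ring
  refine ⟨?_, ?_, ?_, ?_, ?_⟩
  · intro i hi
    rw [hm] at hi
    exact hty' ⟨i, hi⟩
  · intro i hi hn2
    rw [hm] at hi
    constructor
    · intro h1
      have h2 := (hpar ⟨i, by omega⟩ ⟨i + 1, hi⟩ rfl).1 h1
      by_contra hne
      have htlt : ∀ q ∈ ({S.t i, S.t (i + 1)} : Finset ℕ), q < S.N := by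
        intro q hq
        simp only [Finset.mem_insert, Finset.mem_singleton] at hq
        rcases hq with rfl | rfl
        · exact S.t_lt i (by omega)
        · exact S.t_lt (i + 1) (by omega)
      obtain ⟨x, hx⟩ := S.cheb.interp_le htlt (by
        refine (Finset.card_insert_le _ _).trans ?_
        rw [Finset.card_singleton]
        exact hn2) (fun q => if q = S.t i then 1 else 0)
      have hx1 := hx (S.t i) (by simp)
      have hx2 := hx (S.t (i + 1)) (by simp)
      rw [if_pos rfl] at hx1
      rw [if_neg (fun h3 => hne h3.symm)] at hx2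
      have h3 : A ⟨i, by omega⟩ ⟨0, hn⟩ * (A ⟨i + 1, hi⟩ ⬝ᵥ x) =
          (A ⟨i, by omega⟩ ⬝ᵥ x) * A ⟨i + 1, hi⟩ ⟨0, hn⟩ := by
        rw [dotProduct, dotProduct, Finset.mul_sum, Finset.sum_mul]
        refine Finset.sum_congr rfl fun j _ => ?_
        have := h2 j
        linear_combination x j * this
      rw [h.dot, h.dot] at h3
      simp only at h3
      rw [hx1, hx2, mul_zero, mul_zero, mul_one] at h3
      have h4 := hA0 ⟨i + 1, hi⟩
      have h5 := hd ⟨i, by omega⟩
      rcases mul_eq_zero.1 h3.symm with h6 | h6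
      · exact h5 h6
      · exact h4 h6
    · intro h1
      exact hpar' ⟨i, by omega⟩ ⟨i + 1, hi⟩ rfl h1
  · intro i hi hb
    rw [hm] at hi
    unfold badB at hb
    rw [Bool.and_eq_true, Bool.and_eq_true, decide_eq_true_eq] at hb
    obtain ⟨h1, h2, h3⟩ := hb
    have h4 := (hpar ⟨i, by omega⟩ ⟨i + 1, hi⟩ rfl).1 h1
    have h5 := hbad ⟨i, by omega⟩ ⟨i + 1, hi⟩ rfl
    simp only at h5
    rw [h5] at h3
    rintro ⟨x, hx1, hx2⟩
    have e1 := h.slack ⟨i, by omega⟩ x
    have e2 := h.slack ⟨i + 1, hi⟩ x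
    simp only at e1 e2
    rw [e1] at hx1
    rw [e2] at hx2
    have h6 : A ⟨i, by omega⟩ ⟨0, hn⟩ * (A ⟨i + 1, hi⟩ ⬝ᵥ x) =
        (A ⟨i, by omega⟩ ⬝ᵥ x) * A ⟨i + 1, hi⟩ ⟨0, hn⟩ := by
      rw [dotProduct, dotProduct, Finset.mul_sum, Finset.sum_mul]
      refine Finset.sum_congr rfl fun j _ => ?_
      have := h4 j
      linear_combination x j * this
    have h7 := hty ⟨i, by omega⟩
    have h8 := hty ⟨i + 1, hi⟩
    simp only at h7 h8
    cases ht : tyB g i
    · rw [ht] at h3 h7 h2
      rw [Bool.false_xor] at h2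
      rw [h2] at h8
      have h9 := h8.1 rfl
      have h10 : A ⟨i, by omega⟩ ⟨0, hn⟩ ≤ 0 := by
        by_contra hcon
        have := h7.2 (not_le.1 hcon)
        simp at this
      rw [Bool.not_false, signOut_true] at h3
      nlinarith
    · rw [ht] at h3 h7 h2
      have h9 := h7.1 rfl
      have h10 : A ⟨i + 1, hi⟩ ⟨0, hn⟩ ≤ 0 := by
        by_contra hcon
        have := h8.2 (not_le.1 hcon)
        rw [this] at h2
        simp at h2
      rw [Bool.not_true, signOut_false] at h3
      nlinarith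
  · intro i hi ht hb
    rw [hm] at hi
    have h1 := hpar' ⟨i, by omega⟩ ⟨i + 1, hi⟩ rfl ht
    have h5 := hbad ⟨i, by omega⟩ ⟨i + 1, hi⟩ rfl
    have hp := S.pair i (i + 1) (by omega) (by omega) ht
    obtain ⟨v, hv1, hv2, hv3⟩ := h.col0 hn ⟨i, by omega⟩
    obtain ⟨v', hv1', hv2', hv3'⟩ := h.col0 hn ⟨i + 1, hi⟩
    simp only at h1 h5 hv2 hv3 hv2' hv3'
    have hvv : v' = v := by rw [← hv3, ← hv3', ht]
    subst hvv
    rw [hv2, hv2'] at h5
    have e3 := h.rhs ⟨i, by omega⟩
    have e4 := h.rhs ⟨i + 1, hi⟩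
    simp only at e3 e4
    have h7 := hty' ⟨i, by omega⟩
    have h8 := hty' ⟨i + 1, hi⟩
    simp only at h7 h8
    obtain ⟨x, hx⟩ := S.cheb.interp_le (Q := {S.t i}) (fun q hq => by
      rw [Finset.mem_singleton] at hq
      rw [hq]
      exact S.t_lt i (by omega)) (by rw [Finset.card_singleton]; omega)
      (fun _ => S.b i / S.d i)
    have hx1 := hx (S.t i) (by simp)
    have hdi := S.d_ne i (by omega)
    refine ⟨x, ?_, ?_⟩
    · rw [Sys.slack, hx1, mul_div_cancel₀ _ hdi, sub_self]
    · rw [Sys.slack, ← ht, hx1]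
      have h6 : S.d (i + 1) * (S.b i / S.d i) - S.b (i + 1) =
          (S.b i * S.d (i + 1) - S.d i * S.b (i + 1)) / S.d i := by
        field_simp
      rw [h6]
      unfold badB at hb
      rw [h1, h5, e3, e4, Bool.true_and, Bool.and_eq_false_iff] at hb
      cases htB : tyB g i
      · rw [htB] at hb h7
        have h9 : S.d i ≤ 0 := by
          by_contra hcon
          have := h7.2 (not_le.1 hcon)
          simp at this
        have h10 : 0 < S.d (i + 1) := by
          by_contra hcon
          have := mul_nonneg_of_nonpos_of_nonpos h9 (not_lt.1 hcon)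
          linarith
        rw [h8.2 h10] at hb
        rcases hb with hb | hb
        · simp at hb
        · rw [decide_eq_false_iff_not, Bool.not_false, signOut_true] at hb
          refine div_nonneg_of_nonpos ?_ h9
          by_contra hcon
          push Not at hcon
          apply hb
          have := mul_pos hcon hv1
          linarith
      · rw [htB] at hb h7
        have h9 := h7.1 rfl
        have h10 : ¬ 0 < S.d (i + 1) := by
          intro hcon
          have := mul_pos h9 hcon
          linarith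
        have h11 : tyB g (i + 1) = false := by
          cases h12 : tyB g (i + 1)
          · rfl
          · exact absurd (h8.1 h12) h10
        rw [h11] at hb
        rcases hb with hb | hb
        · simp at hb
        · rw [decide_eq_false_iff_not, Bool.not_true, signOut_false] at hb
          refine div_nonneg ?_ h9.le
          by_contra hcon
          push Not at hcon
          apply hb
          have := mul_neg_of_neg_of_pos hcon hv1
          linarith
  · intro i k hi hk hK hlen hiK hD x hx
    rw [hm] at hi hk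
    unfold violB
    by_cases h1 : k ∈ K
    · have h2 := hx k (Finset.mem_insert_of_mem (List.mem_toFinset.2 h1))
      rw [decide_eq_true h1, h2]
      simp
    by_cases h1' : k = i
    · have h2 := hx k (by rw [h1']; exact Finset.mem_insert_self _ _)
      rw [decide_eq_true h1', h2]
      simp
    rw [decide_eq_false h1, decide_eq_false h1', hg i hi (n + 2) (by omega),
      hg i hi (n + 3 + k) (by omega)]
    have e1 : qf m n K i (n + 2) = lq m n (K ++ [i]) := by
      unfold qf
      rw [if_neg (by omega), if_neg (by omega), if_neg (by omega), if_pos rfl]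
    have e2 : qf m n K i (n + 3 + k) = lq m n (K ++ [i]) ++ [(k, m + (n + n))] := by
      unfold qf
      rw [if_neg (by omega), if_neg (by omega), if_neg (by omega), if_neg (by omega),
        Nat.add_sub_cancel_left]
    rw [e1, e2]
    have hL : (K ++ [i]).Nodup := by
      rw [List.nodup_append]
      refine ⟨hK, by simp, ?_⟩
      intro a ha c hc
      rw [List.mem_singleton] at hc
      rw [hc]
      rintro rfl
      exact hiK ha
    have hLlen : (K ++ [i]).length = n := by
      rw [List.length_append, List.length_singleton]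
      exact hlen
    have hLmem : ∀ j, j ∈ K ++ [i] ↔ j ∈ insert i K.toFinset := by
      intro j
      rw [List.mem_append, List.mem_singleton, Finset.mem_insert, List.mem_toFinset]
      tauto
    have hLm : ∀ j ∈ K ++ [i], j < m := by
      intro j hj
      have := hD.1 j ((hLmem j).1 hj)
      omega
    have hcard : (insert i K.toFinset).card = n := by
      rw [Finset.card_insert_of_notMem (by simpa using hiK), List.toFinset_card_of_nodup hK]
      exact hlen
    have hne : mv A b (lq m n (K ++ [i])) ≠ 0 := by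
      refine mv_ne_zero hL hLlen hLm fun y hy => ?_
      refine Sys.eq_of_n hD hcard fun j hj => ?_
      have hjm := hLm j ((hLmem j).2 hj)
      have h2 := hy ⟨j, hjm⟩ ((hLmem j).2 hj)
      rw [h.dot] at h2
      exact (mul_eq_zero.1 h2).resolve_left (hd ⟨j, hjm⟩)
    have hsl := mv_slack (A := A) (b := b) hL hLlen hLm hk (k := k) (by
      rw [hLmem, Finset.mem_insert, List.mem_toFinset, not_or]
      exact ⟨h1', h1⟩) (x := x) (fun r hr => by
        have h2 := h.slack r x
        rw [← h2]
        exact hx r ((hLmem r).1 hr))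
    have h3 := h.slack ⟨k, hk⟩ x
    simp only at h3
    rw [← h3] at hsl
    rw [← signOut_opp hne (s := S.slack k x), ← hsl]
    simp only [Bool.not_false, Bool.true_and]
    rfl

end Rep

/-! ### The run -/

theorem stepA_dead {m n R φ : ℕ} {c : Ctl} {g : ℕ → ℕ → Outcome} (hc : c.1.1 = false) :
    (stepA m n R φ c g).1.1 = false := by
  unfold stepA
  split_ifs
  · simp [step0, hc]
  · simp [step1, hc]
  · unfold step2
    split_ifs <;> exact hc
  · unfold step3
    split_ifs
    · exact hc
    · cases (cands n R c.2.1 g).head? with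
      | none => exact hc
      | some i => exact hc
    · exact hc

theorem Ok.step {n : ℕ} {S : Sys n} {I J : Ctl → Prop} {m R φ : ℕ} {c : Ctl}
    {g : ℕ → ℕ → Outcome} (h : S.Ok I c)
    (hs : I c → c.1.1 = true → S.Ok J (stepA m n R φ c g)) : S.Ok J (stepA m n R φ c g) := by
  rcases h with ⟨h1, h2⟩ | ⟨h1, h2⟩
  · exact hs h2 h1
  · exact Or.inr ⟨stepA_dead h1, h2⟩

section Run

variable {m n : ℕ} {A : Fin m → Fin n → ℝ} {b : Fin m → ℝ} {S : Sys n}

theorem tst_next (h : Rep A b S) (hn : 0 < n) {R φ : ℕ} (hR : R < m) (hφ : φ < n * m + 3) :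
    ∃ g, Truth S (strat.tst (A, b) (R * (n * m + 3) + φ)).2.1 g ∧
      strat.tst (A, b) (R * (n * m + 3) + φ + 1) =
        stepA m n R φ (strat.tst (A, b) (R * (n * m + 3) + φ)) g := by
  set c := strat.tst (A, b) (R * (n * m + 3) + φ) with hc
  refine ⟨rd m n ((List.range (m * (m + n + 3))).map fun j =>
    Strat.tr (A, b) (qf m n c.2.1 (j / (m + n + 3)) (j % (m + n + 3)))), ?_, ?_⟩
  · refine h.truth hn fun i hi w hw => ?_
    unfold rd
    have h1 : i * (m + n + 3) + w < m * (m + n + 3) := by
      calc i * (m + n + 3) + w < i * (m + n + 3) + (m + n + 3) := by omega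
        _ = (i + 1) * (m + n + 3) := by ring
        _ ≤ m * (m + n + 3) := Nat.mul_le_mul_right _ hi
    rw [List.getD_eq_getElem _ _ (by simpa using h1), List.getElem_map, List.getElem_range]
    have h2 : (i * (m + n + 3) + w) / (m + n + 3) = i := by
      rw [mul_comm, Nat.mul_add_div (by omega), Nat.div_eq_of_lt hw, add_zero]
    have h3 : (i * (m + n + 3) + w) % (m + n + 3) = w := by
      rw [mul_comm, Nat.mul_add_mod, Nat.mod_eq_of_lt hw]
    rw [h2, h3]
  · have h2 : (R * (n * m + 3) + φ) / (n * m + 3) = R := by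
      rw [mul_comm, Nat.mul_add_div (by omega), Nat.div_eq_of_lt hφ, add_zero]
    have h3 : (R * (n * m + 3) + φ) % (n * m + 3) = φ := by
      rw [mul_comm, Nat.mul_add_mod, Nat.mod_eq_of_lt hφ]
    have e : strat.tst (A, b) (R * (n * m + 3) + φ + 1) =
        stepA m n (min ((R * (n * m + 3) + φ) / (n * m + 3)) m) ((R * (n * m + 3) + φ) % (n * m + 3))
          c (rd m n ((List.range (m * (m + n + 3))).map fun j =>
            Strat.tr (A, b) (qf m n c.2.1 (j / (m + n + 3)) (j % (m + n + 3))))) := rfl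
    rw [e, h2, h3, min_eq_left hR.le]

theorem run_inv (h : Rep A b S) (hn : 0 < n) : ∀ R ≤ m,
    S.Ok (S.Inv0 R) (strat.tst (A, b) (R * (n * m + 3))) := by
  intro R
  induction R with
  | zero =>
    intro _
    rw [zero_mul]
    left
    refine ⟨rfl, ⟨0, fun i hi => by omega⟩, fun ρ => ?_⟩
    left
    refine ⟨hn, ?_⟩
    cases ρ <;> rfl
  | succ R ih =>
    intro hR
    have h0 := ih (by omega)
    have hRm : R < S.m := by rw [h.m_eq]; exact hR
    have hty : ∀ {K K' : List ℕ} {g g' : ℕ → ℕ → Outcome}, Truth S K g → Truth S K' g' →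
        tyB g R = tyB g' R := by
      intro K K' g g' h1 h2
      rw [Bool.eq_iff_iff, h1.ty R hRm, h2.ty R hRm]
    -- phase 0
    obtain ⟨g0, hT0, e0⟩ := tst_next h hn (R := R) (φ := 0) hR (by omega)
    rw [add_zero] at hT0 e0
    have h1 : S.Ok (S.Inv1 R (tyB g0 R)) (strat.tst (A, b) (R * (n * m + 3) + 1)) := by
      rw [e0]
      refine Ok.step h0 fun hI hc => ?_
      have := Sys.step0_ok hT0 hI hc
      rw [h.m_eq] at this
      exact this
    obtain ⟨g1, hT1, e1⟩ := tst_next h hn (R := R) (φ := 1) hR (by omega)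
    rw [hty hT0 hT1] at h1
    have h2 : S.Ok (S.Inv2 R (tyB g1 R)) (strat.tst (A, b) (R * (n * m + 3) + 1 + 1)) := by
      rw [e1]
      exact Ok.step h1 fun hI hc => Sys.step1_ok hT1 hRm hI hc
    obtain ⟨g2, hT2, e2⟩ := tst_next h hn (R := R) (φ := 2) hR (by omega)
    rw [hty hT1 hT2] at h2
    have h3 : S.Ok (S.Inv3 R 0 (tyB g2 R)) (strat.tst (A, b) (R * (n * m + 3) + 2 + 1)) := by
      rw [e2]
      exact Ok.step h2 fun hI hc => Sys.step2_ok hT2 hRm hI hc
    have h4 : ∀ j, j ≤ n * m →
        S.Ok (S.Inv3 R j (tyB g2 R)) (strat.tst (A, b) (R * (n * m + 3) + (3 + j))) := by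
      intro j
      induction j with
      | zero => intro _; exact h3
      | succ j ihj =>
        intro hj
        have h5 := ihj (by omega)
        obtain ⟨g3, hT3, e3⟩ := tst_next h hn (R := R) (φ := 3 + j) hR (by omega)
        rw [hty hT2 hT3] at h5 ⊢
        have e4 : R * (n * m + 3) + (3 + (j + 1)) = R * (n * m + 3) + (3 + j) + 1 := by omega
        rw [e4, e3]
        refine Ok.step h5 fun hI hc => ?_
        have e5 : stepA m n R (3 + j) (strat.tst (A, b) (R * (n * m + 3) + (3 + j))) g3 =
            step3 n R (strat.tst (A, b) (R * (n * m + 3) + (3 + j))) g3 := by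
          unfold stepA
          rw [if_neg (by omega), if_neg (by omega), if_neg (by omega)]
        rw [e5]
        exact Sys.step3_ok hT3 hRm hI hc
    have h5 := h4 (n * m) le_rfl
    have e6 : (R + 1) * (n * m + 3) = R * (n * m + 3) + (3 + n * m) := by ring
    rw [e6]
    rcases h5 with ⟨h6, h7⟩ | h6
    · left
      refine ⟨h6, Sys.inv3_end hRm (ρ := tyB g2 R) ?_⟩
      rw [h.m_eq]
      exact h7
    · exact Or.inr h6

/-- The answer is correct. -/
theorem fin_iff (h : Rep A b S) (hn : 0 < n) :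
    strat.fin (strat.tst (A, b) (strat.T m n)) = true ↔
      ∃ x : Fin n → ℝ, ∀ i, b i ≤ A i ⬝ᵥ x := by
  rw [← h.feas]
  have h1 := run_inv h hn m le_rfl
  rw [h.m_eq] at *
  rcases h1 with ⟨h2, h3⟩ | ⟨h2, h3⟩
  · exact ⟨fun _ => h3.1, fun _ => h2⟩
  · rw [h.m_eq] at h3
    refine ⟨fun h4 => ?_, fun h4 => absurd h4 h3⟩
    have h5 : (strat.tst (A, b) (m * (n * m + 3))).1.1 = true := h4
    rw [h2] at h5
    exact absurd h5 (by simp)

end Run

/-- The algorithm decides the class. -/
theorem decides : Pool.Agent.R533.GU.DecidesOn ∅ (fun m n A _ => Chebyshev m n A) strat.alg := by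
  refine Strat.decidesOn (Polynomial.X * (Polynomial.X * Polynomial.X + 3) *
    (Polynomial.X * (Polynomial.X + 3))) ?_ ?_ ?_
  · intro m n hm hn
    have e : (Polynomial.X * (Polynomial.X * Polynomial.X + 3) *
        (Polynomial.X * (Polynomial.X + 3)) : Polynomial ℕ).eval (m + n) =
        (m + n) * ((m + n) * (m + n) + 3) * ((m + n) * (m + n + 3)) := by
      simp
    rw [e]
    change m * (n * m + 3) * (m * (m + n + 3)) ≤ _
    refine Nat.mul_le_mul (Nat.mul_le_mul (by omega) ?_) (Nat.mul_le_mul (by omega) le_rfl)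
    exact Nat.add_le_add_right (Nat.mul_le_mul (by omega) (by omega)) 3
  · intro m n hm
    change 0 < m * (m + n + 3)
    positivity
  · intro m n hm hn A b hA
    obtain ⟨S, hS⟩ := exists_rep b hA
    exact fin_iff hS hn

end Pool.Agent.H682.CH
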