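import Pool.Agent.H682.CH.MachinePoly
import Pool.Agent.H682.CH.Correct

set_option autoImplicit false

/-!
# The algorithm is controlled in polynomial time
-/

namespace Pool.Agent.H682.CH

open Pool.Agent.NPC Pool.Agent.NPC.ER Pool.Agent.NPC.H612 Pool.Agent.H558R2
open Pool.Agent.H622R3.SM

attribute [local fun_prop] Poly.range_length Poly.isSome

section Parts

variable {α : Type} [TEnc α] {U V : α → List Unit} {ans : α → List Outcome} {K L : α → List ℕ}
  {i k : α → ℕ} {ρ : α → Bool}

theorem pTy (hU : Poly U) (hV : Poly V) (ha : Poly ans) (hi : Poly i) :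
    Poly (fun a => tyB (rd (U a).length (V a).length (ans a)) (i a)) := by
  unfold tyB rd
  fun_prop

theorem pPar (hU : Poly U) (hV : Poly V) (ha : Poly ans) (hi : Poly i) :
    Poly (fun a => parB (V a).length (rd (U a).length (V a).length (ans a)) (i a)) := by
  unfold parB rd
  fun_prop

theorem pBad (hU : Poly U) (hV : Poly V) (ha : Poly ans) (hi : Poly i) :
    Poly (fun a => badB (V a).length (rd (U a).length (V a).length (ans a)) (i a)) := by
  unfold badB
  refine Poly.and (pPar hU hV ha hi) (Poly.and (Poly.xor (pTy hU hV ha hi)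
    (pTy hU hV ha (Poly.succ hi))) ?_)
  refine Poly.decide_eq ?_ (Poly.some (Poly.not (pTy hU hV ha hi)))
  unfold rd
  fun_prop

theorem pViol (hU : Poly U) (hV : Poly V) (ha : Poly ans) (hK : Poly K) (hi : Poly i)
    (hk : Poly k) : Poly (fun a =>
      violB (V a).length (K a) (rd (U a).length (V a).length (ans a)) (i a) (k a)) := by
  unfold violB rd
  fun_prop

theorem pGstep (hU : Poly U) (hV : Poly V) (ha : Poly ans) (hρ : Poly ρ) (hL : Poly L)
    (hi : Poly i) : Poly (fun a =>
      gstepB (V a).length (rd (U a).length (V a).length (ans a)) (ρ a) (L a) (i a)) := by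
  unfold gstepB
  refine Poly.ite (Poly.decide_bool (Poly.and (by fun_prop) (Poly.and (Poly.decide_eq
    (pTy hU hV ha hi) (by fun_prop)) (Poly.not (Poly.optGetD (Poly.optMap_fp (by fun_prop)
    (Poly.and (by fun_prop) ?_)) (by fun_prop)))))) (by fun_prop) hL
  exact pPar (U := fun p : α × ℕ => U p.1) (V := fun p : α × ℕ => V p.1)
    (ans := fun p : α × ℕ => ans p.1) (i := fun p => p.2) (by fun_prop) (by fun_prop)
    (by fun_prop) (by fun_prop)

/-- Lists with few small elements. -/
def Small (n M : ℕ) (L : List ℕ) : Prop := L.length ≤ n ∧ ∀ x ∈ L, x ≤ M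

theorem Small.sz {n M : ℕ} {L : List ℕ} (h : Small n M L) : sz L ≤ n * (4 * M + 2) + 1 := by
  have h1 := sz_le_length_mul L (4 * M + 1) (fun x hx => by
    have h2 := sz_nat_le x
    have h3 : x.size ≤ x := Nat.size_le.2 Nat.lt_two_pow_self
    have h4 := h.2 x hx
    omega)
  refine h1.trans (Nat.add_le_add_right ?_ 1)
  exact Nat.mul_le_mul_right _ h.1

theorem greedyB_small (n : ℕ) (g : ℕ → ℕ → Outcome) (ρ : Bool) (R : ℕ) :
    (greedyB n g ρ R).length ≤ n ∧ ∀ x ∈ greedyB n g ρ R, x < R := by
  induction R with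
  | zero => exact ⟨Nat.zero_le _, by simp [greedyB]⟩
  | succ R ih =>
    have e1 : greedyB n g ρ (R + 1) = gstepB n g ρ (greedyB n g ρ R) R := by
      rw [greedyB, List.range_succ, List.foldl_append]
      rfl
    rw [e1]
    unfold gstepB
    split_ifs with h
    · rw [Bool.and_eq_true, decide_eq_true_eq] at h
      refine ⟨by rw [List.length_cons]; exact h.1, fun x hx => ?_⟩
      rcases List.mem_cons.1 hx with rfl | hx
      · exact Nat.lt_succ_self _
      · exact (ih.2 x hx).trans (Nat.lt_succ_self _)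
    · exact ⟨ih.1, fun x hx => (ih.2 x hx).trans (Nat.lt_succ_self _)⟩

theorem UPoly.bound {f : α → ℕ} (hf : UPoly f) : ∃ q : Polynomial ℕ, ∀ a, f a ≤ q.eval (sz a) := by
  obtain ⟨q, hq⟩ := Poly.sz_le hf
  refine ⟨q, fun a => ?_⟩
  have h1 := length_lt_sz (List.replicate (f a) ())
  rw [List.length_replicate] at h1
  exact h1.le.trans (hq a)

theorem pGreedy {R : α → ℕ} (hU : Poly U) (hV : Poly V) (ha : Poly ans) (hρ : Poly ρ)
    (hR : UPoly R) : Poly (fun a =>
      greedyB (V a).length (rd (U a).length (V a).length (ans a)) (ρ a) (R a)) := by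
  unfold greedyB
  obtain ⟨q1, hq1⟩ := UPoly.bound hR
  obtain ⟨q2, hq2⟩ := UPoly.bound (UPoly.length hV)
  refine Poly.foldl (F := fun a L i =>
    gstepB (V a).length (rd (U a).length (V a).length (ans a)) (ρ a) L i) hR.range
    (NPC.Poly.const []) ?_ (q2 * (4 * q1 + 2) + 1) ?_
  · exact pGstep (U := fun p : α × List ℕ × ℕ => U p.1) (V := fun p : α × List ℕ × ℕ => V p.1)
      (ans := fun p : α × List ℕ × ℕ => ans p.1) (ρ := fun p : α × List ℕ × ℕ => ρ p.1)
      (L := fun p : α × List ℕ × ℕ => p.2.1) (i := fun p : α × List ℕ × ℕ => p.2.2)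
      (by fun_prop) (by fun_prop) (by fun_prop) (by fun_prop) (by fun_prop) (by fun_prop)
  · intro a k hk
    rw [List.length_range] at hk
    rw [List.take_range, min_eq_left hk]
    obtain ⟨h1, h2⟩ := greedyB_small (V a).length (rd (U a).length (V a).length (ans a)) (ρ a) k
    have h3 : Small (q2.eval (sz a)) (q1.eval (sz a))
        (greedyB (V a).length (rd (U a).length (V a).length (ans a)) (ρ a) k) := by
      refine ⟨h1.trans (hq2 a), fun x hx => ?_⟩
      have := h2 x hx
      have := hq1 a
      omega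
    have e : (q2 * (4 * q1 + 2) + 1).eval (sz a) =
        q2.eval (sz a) * (4 * q1.eval (sz a) + 2) + 1 := by
      simp [Polynomial.eval_add, Polynomial.eval_mul]
    rw [e]
    exact h3.sz

theorem pCut (hV : Poly V) (hL : Poly L) : Poly (fun a => cut (V a).length (L a)) := by
  unfold cut
  fun_prop

theorem pExch (hK : Poly K) (hi : Poly i) : Poly (fun a => exch (K a) (i a)) := by
  unfold exch
  fun_prop

theorem pCands {R : α → ℕ} (hU : Poly U) (hV : Poly V) (ha : Poly ans) (hK : Poly K)
    (hR : UPoly R) : Poly (fun a =>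
      cands (V a).length (R a) (K a) (rd (U a).length (V a).length (ans a))) := by
  unfold cands
  have hR' : UPoly (fun p : α × ℕ => R p.1) := hR.comp (Poly.fst Poly.id)
  have hRp := hR.toPoly
  refine Poly.filter hR.range (Poly.and (by fun_prop) (Poly.and ?_ (Poly.all hR'.range
    (Poly.not ?_))))
  · exact pViol (U := fun p : α × ℕ => U p.1) (V := fun p : α × ℕ => V p.1)
      (ans := fun p : α × ℕ => ans p.1) (K := fun p : α × ℕ => K p.1)
      (i := fun p : α × ℕ => R p.1) (k := fun p : α × ℕ => p.2)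
      (by fun_prop) (by fun_prop) (by fun_prop) (by fun_prop) (by fun_prop) (by fun_prop)
  · exact pViol (U := fun p : (α × ℕ) × ℕ => U p.1.1) (V := fun p : (α × ℕ) × ℕ => V p.1.1)
      (ans := fun p : (α × ℕ) × ℕ => ans p.1.1) (K := fun p : (α × ℕ) × ℕ => K p.1.1)
      (i := fun p : (α × ℕ) × ℕ => p.1.2) (k := fun p : (α × ℕ) × ℕ => p.2)
      (by fun_prop) (by fun_prop) (by fun_prop) (by fun_prop) (by fun_prop) (by fun_prop)

variable {c : α → Ctl}

theorem pSn (hc : Poly c) (hρ : Poly ρ) : Poly (fun a => sn (c a) (ρ a)) := by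
  unfold sn
  fun_prop

theorem pSetSn (hc : Poly c) (hρ : Poly ρ) (hL : Poly L) :
    Poly (fun a => setSn (c a) (ρ a) (L a)) := by
  unfold setSn
  fun_prop

theorem pStep0 {R : α → ℕ} (hU : Poly U) (hV : Poly V) (ha : Poly ans) (hc : Poly c)
    (hR : UPoly R) : Poly (fun a =>
      step0 (U a).length (V a).length (R a) (c a) (rd (U a).length (V a).length (ans a))) := by
  unfold step0
  have hRp := hR.toPoly
  have hm : UPoly (fun a => (U a).length - 1) :=
    UPoly.of_le (by fun_prop) (UPoly.length hU) (fun a => Nat.sub_le _ _)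
  refine Poly.pair (Poly.pair (Poly.and (by fun_prop) (Poly.all hm.range (Poly.not ?_)))
    (by fun_prop)) (Poly.pair (Poly.tail (pSn hc (Poly.not (pTy hU hV ha hRp)))) (by fun_prop))
  exact pBad (U := fun p : α × ℕ => U p.1) (V := fun p : α × ℕ => V p.1)
    (ans := fun p : α × ℕ => ans p.1) (i := fun p : α × ℕ => p.2)
    (by fun_prop) (by fun_prop) (by fun_prop) (by fun_prop)

theorem pHead {R : α → ℕ} (hU : Poly U) (hV : Poly V) (ha : Poly ans) (hK : Poly K)
    (hL : Poly L) (hR : Poly R) : Poly (fun a => ((L a).head?.map fun l =>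
      violB (V a).length (K a) (rd (U a).length (V a).length (ans a)) l (R a)).getD false) := by
  refine Poly.optGetD (Poly.optMap_fp (by fun_prop) ?_) (by fun_prop)
  exact pViol (U := fun p : α × ℕ => U p.1) (V := fun p : α × ℕ => V p.1)
      (ans := fun p : α × ℕ => ans p.1) (K := fun p : α × ℕ => K p.1)
      (i := fun p : α × ℕ => p.2) (k := fun p : α × ℕ => R p.1)
      (by fun_prop) (by fun_prop) (by fun_prop) (by fun_prop) (by fun_prop) (by fun_prop)

theorem pStep1 {R : α → ℕ} (hU : Poly U) (hV : Poly V) (ha : Poly ans) (hc : Poly c)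
    (hR : UPoly R) : Poly (fun a =>
      step1 (V a).length (R a) (c a) (rd (U a).length (V a).length (ans a))) := by
  unfold step1
  have hRp := hR.toPoly
  have hty := pTy hU hV ha hRp
  refine Poly.pair (Poly.pair (Poly.and (by fun_prop) (Poly.not
    (pHead hU hV ha (K := fun a => (c a).2.1) (by fun_prop) (pSn hc (Poly.not hty)) hRp)))
    (by fun_prop)) (Poly.pair (Poly.tail (pSn hc hty)) (by fun_prop))

theorem pStep2 {R : α → ℕ} (hU : Poly U) (hV : Poly V) (ha : Poly ans) (hc : Poly c)
    (hR : UPoly R) : Poly (fun a =>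
      step2 (V a).length (R a) (c a) (rd (U a).length (V a).length (ans a))) := by
  unfold step2
  have hRp := hR.toPoly
  have hty := pTy hU hV ha hRp
  have hg := pGreedy hU hV ha hty (UPoly.add hR (UPoly.const 1))
  refine Poly.ite (Poly.decide_bool (Poly.isEmpty (pSn hc hty))) ?_ ?_
  · exact Poly.pair (Poly.pair (by fun_prop) (Poly.decide_le (by fun_prop) (Poly.length hg)))
      (Poly.pair (Poly.tail hg) (by fun_prop))
  · exact Poly.pair (Poly.pair (by fun_prop)
      (pHead hU hV ha (K := fun a => (c a).2.1) (by fun_prop) (pSn hc hty) hRp)) (by fun_prop)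

theorem pStep3 {R : α → ℕ} (hU : Poly U) (hV : Poly V) (ha : Poly ans) (hc : Poly c)
    (hR : UPoly R) : Poly (fun a =>
      step3 (V a).length (R a) (c a) (rd (U a).length (V a).length (ans a))) := by
  unfold step3
  have hRp := hR.toPoly
  have hty := pTy hU hV ha hRp
  refine Poly.ite (by fun_prop) (Poly.ite (Poly.decide_bool (Poly.all hR.range
    (Poly.not ?_))) ?_ ?_) hc
  · exact pViol (U := fun p : α × ℕ => U p.1) (V := fun p : α × ℕ => V p.1)
      (ans := fun p : α × ℕ => ans p.1) (K := fun p : α × ℕ => (c p.1).2.1)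
      (i := fun p : α × ℕ => R p.1) (k := fun p : α × ℕ => p.2)
      (by fun_prop) (by fun_prop) (by fun_prop) (by fun_prop) (by fun_prop) (by fun_prop)
  · exact Poly.pair (by fun_prop) (Poly.pair (by fun_prop)
      (pSetSn hc hty (pCut hV (by fun_prop))))
  · refine Poly.optGetD (Poly.optMap_fp (Poly.head? (pCands hU hV ha (by fun_prop) hR)) ?_) hc
    refine Poly.pair (by fun_prop) (Poly.pair ?_ (by fun_prop))
    exact pCut (V := fun p : α × ℕ => V p.1) (L := fun p : α × ℕ => exch (c p.1).2.1 p.2)
      (by fun_prop) (pExch (by fun_prop) (by fun_prop))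

theorem pStepA {R φ : α → ℕ} (hU : Poly U) (hV : Poly V) (ha : Poly ans) (hc : Poly c)
    (hR : UPoly R) (hφ : Poly φ) : Poly (fun a =>
      stepA (U a).length (V a).length (R a) (φ a) (c a)
        (rd (U a).length (V a).length (ans a))) := by
  unfold stepA
  refine Poly.ite (by fun_prop) (pStep0 hU hV ha hc hR) (Poly.ite (by fun_prop)
    (pStep1 hU hV ha hc hR) (Poly.ite (by fun_prop) (pStep2 hU hV ha hc hR)
    (pStep3 hU hV ha hc hR)))

theorem pLq (hU : Poly U) (hV : Poly V) (hL : Poly L) :
    Poly (fun a => lq (U a).length (V a).length (L a)) := by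
  unfold lq
  fun_prop

theorem pQf {w : α → ℕ} (hU : Poly U) (hV : Poly V) (hK : Poly K) (hi : Poly i) (hw : Poly w) :
    Poly (fun a => qf (U a).length (V a).length (K a) (i a) (w a)) := by
  have h1 : Poly (fun a => lq (U a).length (V a).length (K a ++ [i a])) :=
    pLq hU hV (by fun_prop)
  unfold qf
  refine Poly.ite (by fun_prop) (by fun_prop) (Poly.ite (by fun_prop) (by fun_prop)
    (Poly.ite (by fun_prop) (by fun_prop) (Poly.ite (by fun_prop) h1 (Poly.append h1
    (by fun_prop)))))

end Parts

/-! ### The size of the states -/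

/-- Small states. -/
def SmallC (n M : ℕ) (c : Ctl) : Prop :=
  Small n M c.2.1 ∧ Small n M c.2.2.1 ∧ Small n M c.2.2.2

theorem Small.tail {n M : ℕ} {L : List ℕ} (h : Small n M L) : Small n M L.tail :=
  ⟨by rw [List.length_tail]; have := h.1; omega, fun x hx => h.2 x (List.mem_of_mem_tail hx)⟩

theorem SmallC.sn {n M : ℕ} {c : Ctl} (h : SmallC n M c) (ρ : Bool) : Small n M (sn c ρ) := by
  unfold CH.sn
  split_ifs
  · exact h.2.1
  · exact h.2.2

theorem cut_small {n M : ℕ} {L : List ℕ} (h : ∀ x ∈ L, x ≤ M) : Small n M (cut n L) := by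
  unfold cut
  split_ifs with h1
  · exact ⟨h1, h⟩
  · exact ⟨Nat.zero_le _, by simp⟩

theorem stepA_small {m n R φ : ℕ} {c : Ctl} {g : ℕ → ℕ → Outcome} (h : SmallC n m c)
    (hR : R ≤ m) : SmallC n m (stepA m n R φ c g) := by
  unfold stepA
  split_ifs
  · exact ⟨(h.sn _).tail, h.2⟩
  · exact ⟨(h.sn _).tail, h.2⟩
  · unfold step2
    split_ifs
    · refine ⟨Small.tail ⟨(greedyB_small n g _ (R + 1)).1, fun x hx => ?_⟩, h.2⟩
      have := (greedyB_small n g _ (R + 1)).2 x hx
      omega
    · exact h
  · unfold step3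
    split_ifs
    · have h1 : Small n m (cut n (R :: c.2.1)) := cut_small (fun x hx => by
        rcases List.mem_cons.1 hx with rfl | hx
        · exact hR
        · exact h.1.2 x hx)
      refine ⟨h.1, ?_⟩
      unfold setSn
      split_ifs
      · exact ⟨h1, h.2.2⟩
      · exact ⟨h.2.1, h1⟩
    · cases hc : (cands n R c.2.1 g).head? with
      | none => exact h
      | some i =>
        rw [Option.map_some, Option.getD_some]
        refine ⟨cut_small (fun x hx => ?_), h.2⟩
        unfold exch at hx
        rcases List.mem_cons.1 hx with rfl | hx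
        · have h1 := List.mem_of_mem_head? hc
          unfold cands at h1
          rw [List.mem_filter, List.mem_range] at h1
          omega
        · exact h.1.2 x (List.mem_of_mem_filter hx)
    · exact h

theorem st_small (m n : ℕ) (h : List Outcome) (k : ℕ) : SmallC n m (strat.st m n h k) := by
  induction k with
  | zero =>
    have e : Small n m [] := ⟨Nat.zero_le _, by simp⟩
    exact ⟨e, e, e⟩
  | succ k ih =>
    rw [Strat.st_succ]
    exact stepA_small ih (min_le_right _ _)

theorem isPoly : strat.IsPoly where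
  qry := by
    exact pQf (U := fun x : ((List Unit × List Unit) × Ctl) × ℕ => x.1.1.1)
      (V := fun x => x.1.1.2) (K := fun x => x.1.2.2.1)
      (i := fun x => x.2 / (x.1.1.1.length + x.1.1.2.length + 3))
      (w := fun x => x.2 % (x.1.1.1.length + x.1.1.2.length + 3))
      (by fun_prop) (by fun_prop) (by fun_prop) (by fun_prop) (by fun_prop)
  upd := by
    exact pStepA (U := fun x : ((List Unit × List Unit) × ℕ) × (Ctl × List Outcome) => x.1.1.1)
      (V := fun x => x.1.1.2) (ans := fun x => x.2.2) (c := fun x => x.2.1)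
      (R := fun x => min (x.1.2 / (x.1.1.2.length * x.1.1.1.length + 3)) x.1.1.1.length)
      (φ := fun x => x.1.2 % (x.1.1.2.length * x.1.1.1.length + 3))
      (by fun_prop) (by fun_prop) (by fun_prop) (by fun_prop)
      (UPoly.of_le (by fun_prop) (UPoly.length (l := fun x :
        ((List Unit × List Unit) × ℕ) × (Ctl × List Outcome) => x.1.1.1) (by fun_prop))
        (fun a => min_le_right _ _)) (by fun_prop)
  fin := by
    change Poly (fun c : Ctl => c.1.1)
    fun_prop
  B := by
    change UPoly (fun u : List Unit × List Unit => u.1.length * (u.1.length + u.2.length + 3))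
    have h1 : UPoly (fun u : List Unit × List Unit => u.1.length) := UPoly.length (by fun_prop)
    have h2 : UPoly (fun u : List Unit × List Unit => u.2.length) := UPoly.length (by fun_prop)
    exact UPoly.mul h1 (UPoly.add (UPoly.add h1 h2) (UPoly.const 3))
  T := by
    change UPoly (fun u : List Unit × List Unit => u.1.length * (u.2.length * u.1.length + 3))
    have h1 : UPoly (fun u : List Unit × List Unit => u.1.length) := UPoly.length (by fun_prop)
    have h2 : UPoly (fun u : List Unit × List Unit => u.2.length) := UPoly.length (by fun_prop)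
    exact UPoly.mul h1 (UPoly.add (UPoly.mul h2 h1) (UPoly.const 3))
  size := by
    refine ⟨3 * (Polynomial.X * (4 * Polynomial.X + 2) + 1) + 10, fun m n h k _ => ?_⟩
    obtain ⟨h1, h2, h3⟩ := st_small m n h k
    set c := strat.st m n h k
    have e : (3 * (Polynomial.X * (4 * Polynomial.X + 2) + 1) + 10 : Polynomial ℕ).eval (m + n) =
        3 * ((m + n) * (4 * (m + n) + 2) + 1) + 10 := by
      simp
    rw [e]
    have e1 : sz c = sz c.1 + sz c.2 + 1 := by rw [← sz_pair]
    have e2 : sz c.1 = sz c.1.1 + sz c.1.2 + 1 := by rw [← sz_pair]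
    have e3 : sz c.2 = sz c.2.1 + sz c.2.2 + 1 := by rw [← sz_pair]
    have e4 : sz c.2.2 = sz c.2.2.1 + sz c.2.2.2 + 1 := by rw [← sz_pair]
    have f1 := sz_bool_le c.1.1
    have f2 := sz_bool_le c.1.2
    have f3 : n * (4 * m + 2) + 1 ≤ (m + n) * (4 * (m + n) + 2) + 1 := by
      refine Nat.add_le_add_right (Nat.mul_le_mul (by omega) (by omega)) 1
    have f4 := h1.sz
    have f5 := h2.sz
    have f6 := h3.sz
    omega

/-- The algorithm. -/
theorem main : ∃ α : Alg, PolyControl α ∧ OracleFree α ∧
    Pool.Agent.R533.GU.DecidesOn ∅ (fun m n A _ => Chebyshev m n A) α :=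
  ⟨strat.alg, Strat.polyControl isPoly, Strat.oracleFree, decides⟩

end Pool.Agent.H682.CH
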