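import Mathlib

set_option autoImplicit false

/-!
# Chebyshev systems: sign changes and interpolation
-/

namespace Pool.Agent.H682.CH

open Matrix

/-- A Chebyshev system: the maximal minors with increasing rows below `N` have the sign of `σ`. -/
structure Cheb (n N : ℕ) (V : ℕ → Fin n → ℝ) (σ : ℝ) : Prop where
  /-- there are at least `n` points -/
  le : n ≤ N
  /-- the sign of the maximal minors -/
  pos : ∀ s : Fin n → ℕ, StrictMono s → (∀ k, s k < N) →
    0 < σ * (Matrix.of fun k j => V (s k) j).det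

variable {n N : ℕ} {V : ℕ → Fin n → ℝ} {σ : ℝ}

/-- The linear dependence of `n + 1` points. -/
theorem kernel_sum (V : ℕ → Fin n → ℝ) (s : Fin (n + 1) → ℕ) (j : Fin n) :
    ∑ k : Fin (n + 1), (-1 : ℝ) ^ (k : ℕ) *
      (Matrix.of fun (l : Fin n) (j : Fin n) => V (s (k.succAbove l)) j).det * V (s k) j = 0 := by
  set M : Matrix (Fin (n + 1)) (Fin (n + 1)) ℝ :=
    Matrix.of fun k => Fin.cons (V (s k) j) (fun l => V (s k) l) with hM
  have h1 : M.det = 0 := by
    refine det_zero_of_column_eq (i := 0) (j := j.succ) (Fin.succ_ne_zero j).symm fun k => ?_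
    simp [hM]
  rw [det_succ_column_zero] at h1
  rw [← h1]
  refine Finset.sum_congr rfl fun k _ => ?_
  have h2 : M k 0 = V (s k) j := by simp [hM]
  have h3 : M.submatrix k.succAbove Fin.succ =
      Matrix.of fun (l : Fin n) (j : Fin n) => V (s (k.succAbove l)) j := by
    ext a c
    simp [hM]
  rw [h2, h3]
  ring

theorem kernel_dot (V : ℕ → Fin n → ℝ) (s : Fin (n + 1) → ℕ) (x : Fin n → ℝ) :
    ∑ k : Fin (n + 1), (-1 : ℝ) ^ (k : ℕ) *
      (Matrix.of fun (l : Fin n) (j : Fin n) => V (s (k.succAbove l)) j).det *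
        (V (s k) ⬝ᵥ x) = 0 := by
  have h : ∀ k : Fin (n + 1), (-1 : ℝ) ^ (k : ℕ) *
      (Matrix.of fun (l : Fin n) (j : Fin n) => V (s (k.succAbove l)) j).det * (V (s k) ⬝ᵥ x) =
      ∑ j, (-1 : ℝ) ^ (k : ℕ) *
      (Matrix.of fun (l : Fin n) (j : Fin n) => V (s (k.succAbove l)) j).det * V (s k) j * x j := by
    intro k
    rw [dotProduct, Finset.mul_sum]
    exact Finset.sum_congr rfl fun j _ => by ring
  simp only [h]
  rw [Finset.sum_comm]
  simp only [← Finset.sum_mul]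
  simp only [kernel_sum, zero_mul, Finset.sum_const_zero]

namespace Cheb

/-- `n` points are independent. -/
theorem eq_zero (hV : Cheb n N V σ) {s : Fin n → ℕ} (hs : StrictMono s) (hN : ∀ k, s k < N)
    {x : Fin n → ℝ} (hx : ∀ k, V (s k) ⬝ᵥ x = 0) : x = 0 := by
  have h1 := hV.pos s hs hN
  refine eq_zero_of_mulVec_eq_zero (M := Matrix.of fun k j => V (s k) j) ?_ ?_
  · intro h0
    rw [h0, mul_zero] at h1
    exact lt_irrefl _ h1
  · ext k
    exact hx k

/-- The alternation lemma. -/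
theorem alt (hV : Cheb n N V σ) {s : Fin (n + 1) → ℕ} (hs : StrictMono s) (hN : ∀ k, s k < N)
    {ε : ℝ} (hε : ε ≠ 0) {x : Fin n → ℝ}
    (hx : ∀ k : Fin (n + 1), 0 ≤ ε * (-1) ^ (k : ℕ) * (V (s k) ⬝ᵥ x)) : x = 0 := by
  have h1 := kernel_dot V s x
  have hpos : ∀ k : Fin (n + 1), 0 < σ *
      (Matrix.of fun (l : Fin n) (j : Fin n) => V (s (k.succAbove l)) j).det := fun k =>
    hV.pos (fun l => s (k.succAbove l)) (hs.comp (Fin.strictMono_succAbove k)) fun l => hN _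
  have h2 : ∑ k : Fin (n + 1), (σ *
      (Matrix.of fun (l : Fin n) (j : Fin n) => V (s (k.succAbove l)) j).det) *
        (ε * (-1) ^ (k : ℕ) * (V (s k) ⬝ᵥ x)) = 0 := by
    calc _ = σ * ε * ∑ k : Fin (n + 1), (-1 : ℝ) ^ (k : ℕ) *
      (Matrix.of fun (l : Fin n) (j : Fin n) => V (s (k.succAbove l)) j).det *
        (V (s k) ⬝ᵥ x) := by
          rw [Finset.mul_sum]
          exact Finset.sum_congr rfl fun k _ => by ring
      _ = 0 := by rw [h1, mul_zero]
  have h3 := (Finset.sum_eq_zero_iff_of_nonneg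
    (fun k _ => mul_nonneg (hpos k).le (hx k))).1 h2
  have h4 : ∀ k, V (s k) ⬝ᵥ x = 0 := by
    intro k
    have h5 := h3 k (Finset.mem_univ k)
    rcases mul_eq_zero.1 h5 with h | h
    · exact absurd h (hpos k).ne'
    · rcases mul_eq_zero.1 h with h | h
      · rcases mul_eq_zero.1 h with h | h
        · exact absurd h hε
        · exact absurd h (pow_ne_zero _ (by norm_num))
      · exact h
  exact hV.eq_zero (s := fun k => s k.castSucc) (hs.comp Fin.strictMono_castSucc)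
    (fun k => hN _) fun k => h4 _

/-- Interpolation at `n` points. -/
theorem interp (hV : Cheb n N V σ) {s : Fin n → ℕ} (hs : StrictMono s) (hN : ∀ k, s k < N)
    (c : Fin n → ℝ) : ∃ x : Fin n → ℝ, ∀ k, V (s k) ⬝ᵥ x = c k := by
  have h1 := hV.pos s hs hN
  have h2 : IsUnit (Matrix.of fun k j => V (s k) j).det := by
    rw [isUnit_iff_ne_zero]
    intro h0
    rw [h0, mul_zero] at h1
    exact lt_irrefl _ h1
  refine ⟨(Matrix.of fun k j => V (s k) j)⁻¹ *ᵥ c, fun k => ?_⟩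
  have h3 : (Matrix.of fun k j => V (s k) j) *ᵥ ((Matrix.of fun k j => V (s k) j)⁻¹ *ᵥ c) = c := by
    rw [mulVec_mulVec, mul_nonsing_inv _ h2, one_mulVec]
  exact congrFun h3 k

end Cheb

/-- The number of elements of `J` greater than `i`. -/
def rk (J : Finset ℕ) (i : ℕ) : ℕ := (J.filter fun j => i < j).card

theorem rk_orderEmb (J : Finset ℕ) {l : ℕ} (h : J.card = l) (k : Fin l) :
    rk J (J.orderEmbOfFin h k) = l - 1 - k := by
  have h1 : J.filter (fun j => J.orderEmbOfFin h k < j) =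
      (Finset.Ioi k).map (J.orderEmbOfFin h).toEmbedding := by
    ext j
    simp only [Finset.mem_filter, Finset.mem_map, Finset.mem_Ioi, RelEmbedding.coe_toEmbedding]
    constructor
    · rintro ⟨h2, h3⟩
      have h4 : j ∈ Set.range (J.orderEmbOfFin h) := by
        rw [Finset.range_orderEmbOfFin]
        exact h2
      obtain ⟨a, rfl⟩ := h4
      exact ⟨a, (J.orderEmbOfFin h).lt_iff_lt.1 h3, rfl⟩
    · rintro ⟨a, h2, rfl⟩
      exact ⟨Finset.orderEmbOfFin_mem _ _ _, (J.orderEmbOfFin h).lt_iff_lt.2 h2⟩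
  rw [rk, h1, Finset.card_map, Fin.card_Ioi]

/-- The data of a system: rows `d i • V (t i)`, right-hand sides `b i`. -/
structure Sys (n : ℕ) where
  /-- the number of rows -/
  m : ℕ
  /-- the number of points -/
  N : ℕ
  /-- the Chebyshev system -/
  V : ℕ → Fin n → ℝ
  /-- the sign of its minors -/
  σ : ℝ
  /-- the points of the rows -/
  t : ℕ → ℕ
  /-- the factors -/
  d : ℕ → ℝ
  /-- the right-hand sides -/
  b : ℕ → ℝ
  /-- Chebyshev system -/
  cheb : Cheb n N V σ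
  /-- points are below `N` -/
  t_lt : ∀ i < m, t i < N
  /-- points are in order -/
  t_mono : ∀ i j, i ≤ j → j < m → t i ≤ t j
  /-- factors are nonzero -/
  d_ne : ∀ i < m, d i ≠ 0
  /-- at most two rows at each point, with factors of different sign -/
  pair : ∀ i j, i < j → j < m → t i = t j → d i * d j < 0

namespace Sys

variable (S : Sys n)

/-- The slack of a row at a point. -/
def slack (i : ℕ) (x : Fin n → ℝ) : ℝ := S.d i * (S.V (S.t i) ⬝ᵥ x) - S.b i

/-- The rows in `J` are rows of the system with different points. -/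
def Dist (J : Finset ℕ) : Prop := (∀ j ∈ J, j < S.m) ∧ ∀ i ∈ J, ∀ j ∈ J, i < j → S.t i < S.t j

/-- The signs of the factors alternate along `J`, the last one is the sign of `ρ`. -/
def Alt (ρ : ℝ) (J : Finset ℕ) : Prop := ∀ j ∈ J, 0 < ρ * (-1) ^ rk J j * S.d j

variable {S}

theorem Dist.subset {J J' : Finset ℕ} (h : S.Dist J) (hs : J' ⊆ J) : S.Dist J' :=
  ⟨fun j hj => h.1 j (hs hj), fun i hi j hj => h.2 i (hs hi) j (hs hj)⟩

theorem Dist.emb {J : Finset ℕ} (h : S.Dist J) {l : ℕ} (hl : J.card = l) :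
    StrictMono (fun k : Fin l => S.t (J.orderEmbOfFin hl k)) ∧
      ∀ k : Fin l, S.t (J.orderEmbOfFin hl k) < S.N := by
  refine ⟨fun a c hac => ?_, fun k => S.t_lt _ (h.1 _ (Finset.orderEmbOfFin_mem _ _ _))⟩
  exact h.2 _ (Finset.orderEmbOfFin_mem _ _ _) _ (Finset.orderEmbOfFin_mem _ _ _)
    ((J.orderEmbOfFin hl).lt_iff_lt.2 hac)

/-- The alternation lemma for sets of rows. -/
theorem altJ {J : Finset ℕ} (h : S.Dist J) (hl : J.card = n + 1) {ε : ℝ} (hε : ε ≠ 0)
    {x : Fin n → ℝ} (hx : ∀ j ∈ J, 0 ≤ ε * (-1) ^ rk J j * (S.V (S.t j) ⬝ᵥ x)) : x = 0 := by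
  obtain ⟨h1, h2⟩ := h.emb hl
  refine S.cheb.alt h1 h2 (ε := ε * (-1) ^ n) (mul_ne_zero hε (pow_ne_zero _ (by norm_num)))
    fun k => ?_
  have h3 := hx _ (Finset.orderEmbOfFin_mem J hl k)
  rw [rk_orderEmb] at h3
  have hk : (k : ℕ) ≤ n := Nat.lt_succ_iff.1 k.2
  have h4 : (-1 : ℝ) ^ (n + 1 - 1 - (k : ℕ)) = (-1) ^ n * (-1) ^ (k : ℕ) := by
    have h5 : (-1 : ℝ) ^ n = (-1) ^ (n - (k : ℕ)) * (-1) ^ (k : ℕ) := by
      rw [← pow_add, Nat.sub_add_cancel hk]
    rw [h5, mul_assoc, ← pow_add, ← two_mul, pow_mul]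
    norm_num
  rw [h4] at h3
  convert h3 using 1
  ring

/-- `n` different points are independent. -/
theorem eq_of_n {J : Finset ℕ} (h : S.Dist J) (hl : J.card = n) {x : Fin n → ℝ}
    (hx : ∀ j ∈ J, S.V (S.t j) ⬝ᵥ x = 0) : x = 0 := by
  obtain ⟨h1, h2⟩ := h.emb hl
  exact S.cheb.eq_zero h1 h2 fun k => hx _ (Finset.orderEmbOfFin_mem J hl k)

theorem interpJ {J : Finset ℕ} (h : S.Dist J) (hl : J.card = n) (c : ℕ → ℝ) :
    ∃ x : Fin n → ℝ, ∀ j ∈ J, S.V (S.t j) ⬝ᵥ x = c j := by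
  obtain ⟨h1, h2⟩ := h.emb hl
  obtain ⟨x, hx⟩ := S.cheb.interp h1 h2 (fun k => c (J.orderEmbOfFin hl k))
  refine ⟨x, fun j hj => ?_⟩
  have h4 : j ∈ Set.range (J.orderEmbOfFin hl) := by
    rw [Finset.range_orderEmbOfFin]
    exact hj
  obtain ⟨a, rfl⟩ := h4
  exact hx a

theorem exists_tight {J : Finset ℕ} (h : S.Dist J) (hl : J.card = n) :
    ∃ x : Fin n → ℝ, ∀ j ∈ J, S.slack j x = 0 := by
  obtain ⟨x, hx⟩ := interpJ h hl (fun j => S.b j / S.d j)
  refine ⟨x, fun j hj => ?_⟩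
  have hd := S.d_ne j (h.1 j hj)
  rw [slack, hx j hj, mul_div_cancel₀ _ hd, sub_self]

theorem slack_sub (i : ℕ) (x y : Fin n → ℝ) :
    S.slack i x - S.slack i y = S.d i * (S.V (S.t i) ⬝ᵥ (x - y)) := by
  rw [slack, slack, dotProduct_sub]
  ring

theorem tight_unique {J : Finset ℕ} (h : S.Dist J) (hl : J.card = n) {x y : Fin n → ℝ}
    (hx : ∀ j ∈ J, S.slack j x = S.slack j y) : x = y := by
  rw [← sub_eq_zero]
  refine eq_of_n h hl fun j hj => ?_
  have h1 := S.slack_sub j x y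
  rw [hx j hj, sub_self] at h1
  exact (mul_eq_zero.1 h1.symm).resolve_left (S.d_ne j (h.1 j hj))

/-- The comparison principle. -/
theorem cmp {J : Finset ℕ} (h : S.Dist J) (hl : J.card = n + 1) {ρ : ℝ} (hρ : ρ ≠ 0)
    (hA : S.Alt ρ J) {x y : Fin n → ℝ} (hxy : ∀ j ∈ J, S.slack j x ≤ S.slack j y) : x = y := by
  have h0 : y - x = 0 := by
    refine altJ h hl hρ fun j hj => ?_
    have h1 := S.slack_sub j y x
    have h2 := hxy j hj
    have h3 := hA j hj
    have h4 : 0 ≤ S.d j * (S.V (S.t j) ⬝ᵥ (y - x)) := by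
      rw [← h1]
      linarith
    have hd := S.d_ne j (h.1 j hj)
    have h5 : 0 ≤ (ρ * (-1) ^ rk J j * S.d j) * (S.d j * (S.V (S.t j) ⬝ᵥ (y - x))) :=
      mul_nonneg h3.le h4
    have h6 : 0 < S.d j ^ 2 := by positivity
    by_contra h7
    push Not at h7
    have h8 : (ρ * (-1) ^ rk J j * (S.V (S.t j) ⬝ᵥ (y - x))) * S.d j ^ 2 < 0 :=
      mul_neg_of_neg_of_pos h7 h6
    nlinarith
  rw [sub_eq_zero] at h0
  exact h0.symm

end Sys

end Pool.Agent.H682.CH
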