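import Pool.Agent.H682.CH.Snake
import Pool.Graph.R_seed8.H622R3.SM.T_FARKAS

set_option autoImplicit false

/-!
# Certificates of infeasibility
-/

namespace Pool.Agent.H682.CH

open Matrix

/-- Interpolation at at most `n` points. -/
theorem Cheb.interp_le {n N : ℕ} {V : ℕ → Fin n → ℝ} {σ : ℝ} (hV : Cheb n N V σ)
    {Q : Finset ℕ} (hQ : ∀ q ∈ Q, q < N) (hc : Q.card ≤ n) (c : ℕ → ℝ) :
    ∃ x : Fin n → ℝ, ∀ q ∈ Q, V q ⬝ᵥ x = c q := by
  obtain ⟨Q', h1, h2, h3⟩ := Finset.exists_subsuperset_card_eq (s := Q) (t := Finset.range N)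
    (n := n) (fun q hq => Finset.mem_range.2 (hQ q hq)) hc (by simpa using hV.le)
  obtain ⟨x, hx⟩ := hV.interp (s := fun k => Q'.orderEmbOfFin h3 k)
    (Q'.orderEmbOfFin h3).strictMono
    (fun k => Finset.mem_range.1 (h2 (Finset.orderEmbOfFin_mem _ _ _)))
    (fun k => c (Q'.orderEmbOfFin h3 k))
  refine ⟨x, fun q hq => ?_⟩
  have h4 : q ∈ Set.range (Q'.orderEmbOfFin h3) := by
    rw [Finset.range_orderEmbOfFin]
    exact h1 hq
  obtain ⟨a, rfl⟩ := h4
  exact hx a

namespace Sys

variable {n : ℕ} (S : Sys n)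

/-- Linear combination of the first `M` rows applied to `x`. -/
noncomputable def comb (M : ℕ) (z : ℕ → ℝ) (x : Fin n → ℝ) : ℝ :=
  ∑ i ∈ Finset.range M, z i * (S.d i * (S.V (S.t i) ⬝ᵥ x))

/-- Linear combination of the first `M` right-hand sides. -/
noncomputable def bval (M : ℕ) (z : ℕ → ℝ) : ℝ := ∑ i ∈ Finset.range M, z i * S.b i

/-- Certificates of infeasibility. -/
structure Crt (M : ℕ) (y : ℕ → ℝ) : Prop where
  /-- nonnegative -/
  nonneg : ∀ i, 0 ≤ y i
  /-- kernel -/
  ker : ∀ x, S.comb M y x = 0
  /-- positive value -/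
  pos : 0 < S.bval M y

/-- The support. -/
noncomputable def sup (M : ℕ) (y : ℕ → ℝ) : Finset ℕ := (Finset.range M).filter fun i => y i ≠ 0

variable {S}

theorem exists_crt {M : ℕ} (h : ¬ ∃ x, ∀ i < M, 0 ≤ S.slack i x) : ∃ y, S.Crt M y := by
  have h1 := (Pool.Agent.H622R3.SM.t_FARKAS M n
    (fun i j => S.d i * S.V (S.t i) j, fun i => S.b i)).1 (by
      rintro ⟨x, hx⟩
      apply h
      refine ⟨x, fun i hi => ?_⟩
      have := hx ⟨i, hi⟩
      simp only at this
      rw [slack, dotProduct, Finset.mul_sum]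
      have e : ∑ c, S.d i * S.V (S.t i) c * x c = ∑ c, S.d i * (S.V (S.t i) c * x c) :=
        Finset.sum_congr rfl fun c _ => by ring
      rw [e] at this
      linarith)
  obtain ⟨y, hy0, hy1, hy2⟩ := h1
  refine ⟨fun i => if h : i < M then y ⟨i, h⟩ else 0, ?_, ?_, ?_⟩
  · intro i
    split_ifs
    · exact hy0 _
    · exact le_rfl
  · intro x
    unfold comb
    rw [Finset.sum_range]
    have e : ∀ i : Fin M, (if h : (i : ℕ) < M then y ⟨i, h⟩ else 0) *
        (S.d i * (S.V (S.t i) ⬝ᵥ x)) = ∑ j, y i * (S.d i * S.V (S.t i) j) * x j := by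
      intro i
      rw [dif_pos i.2, dotProduct, Finset.mul_sum, Finset.mul_sum]
      exact Finset.sum_congr rfl fun j _ => by ring
    simp only [e]
    rw [Finset.sum_comm]
    simp only [← Finset.sum_mul]
    refine Finset.sum_eq_zero fun j _ => ?_
    rw [hy1 j, zero_mul]
  · unfold bval
    rw [Finset.sum_range]
    refine lt_of_lt_of_eq hy2 (Finset.sum_congr rfl fun i _ => ?_)
    simp only [dif_pos i.2]

theorem comb_sub (M : ℕ) (y z : ℕ → ℝ) (c : ℝ) (x : Fin n → ℝ) :
    S.comb M (fun i => y i - c * z i) x = S.comb M y x - c * S.comb M z x := by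
  unfold comb
  rw [Finset.mul_sum, ← Finset.sum_sub_distrib]
  exact Finset.sum_congr rfl fun i _ => by ring

theorem bval_sub (M : ℕ) (y z : ℕ → ℝ) (c : ℝ) :
    S.bval M (fun i => y i - c * z i) = S.bval M y - c * S.bval M z := by
  unfold bval
  rw [Finset.mul_sum, ← Finset.sum_sub_distrib]
  exact Finset.sum_congr rfl fun i _ => by ring

theorem comb_neg (M : ℕ) (z : ℕ → ℝ) (x : Fin n → ℝ) :
    S.comb M (fun i => -z i) x = -S.comb M z x := by
  unfold comb
  rw [← Finset.sum_neg_distrib]
  exact Finset.sum_congr rfl fun i _ => by ring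

theorem bval_neg (M : ℕ) (z : ℕ → ℝ) : S.bval M (fun i => -z i) = -S.bval M z := by
  unfold bval
  rw [← Finset.sum_neg_distrib]
  exact Finset.sum_congr rfl fun i _ => by ring

/-- Minimal certificates. -/
def Min (S : Sys n) (M : ℕ) (y : ℕ → ℝ) : Prop :=
  S.Crt M y ∧ ∀ y', S.Crt M y' → (sup M y).card ≤ (sup M y').card

theorem exists_min {M : ℕ} (h : ∃ y, S.Crt M y) : ∃ y, S.Min M y := by
  classical
  obtain ⟨y0, h0⟩ := h
  have hex : ∃ k, ∃ y, S.Crt M y ∧ (sup M y).card = k := ⟨_, y0, h0, rfl⟩
  obtain ⟨y, hy1, hy2⟩ := Nat.find_spec hex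
  refine ⟨y, hy1, fun y' hy' => ?_⟩
  rw [hy2]
  exact Nat.find_min' hex ⟨y', hy', rfl⟩

theorem Min.claim {M : ℕ} {y : ℕ → ℝ} (h : S.Min M y) {z : ℕ → ℝ} (hz : ∀ x, S.comb M z x = 0)
    (hs : ∀ i < M, z i ≠ 0 → y i ≠ 0) (hb : S.bval M z ≤ 0) : ∀ i < M, z i ≤ 0 := by
  by_contra hcon
  push Not at hcon
  obtain ⟨i0, hi0, hz0⟩ := hcon
  obtain ⟨i, hiB, hmin⟩ := ((Finset.range M).filter fun i => 0 < z i).exists_min_image
    (fun i => y i / z i) ⟨i0, by simp [hi0, hz0]⟩
  simp only [Finset.mem_filter, Finset.mem_range] at hiB hmin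
  set c := y i / z i with hc
  have hc0 : 0 ≤ c := div_nonneg (h.1.nonneg i) hiB.2.le
  set z' : ℕ → ℝ := fun j => if j < M then z j else 0 with hz'
  have hcomb : ∀ x, S.comb M z' x = 0 := by
    intro x
    rw [← hz x]
    unfold comb
    refine Finset.sum_congr rfl fun j hj => ?_
    rw [hz']
    simp only [if_pos (Finset.mem_range.1 hj)]
  have hbval : S.bval M z' = S.bval M z := by
    unfold bval
    refine Finset.sum_congr rfl fun j hj => ?_
    rw [hz']
    simp only [if_pos (Finset.mem_range.1 hj)]
  have hcrt : S.Crt M (fun j => y j - c * z' j) := by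
    refine ⟨fun j => ?_, fun x => ?_, ?_⟩
    · have h1 := h.1.nonneg j
      by_cases hj : j < M
      · simp only [hz', if_pos hj]
        rcases le_or_gt (z j) 0 with h2 | h2
        · have : c * z j ≤ 0 := mul_nonpos_of_nonneg_of_nonpos hc0 h2
          linarith
        · have h3 := hmin j ⟨hj, h2⟩
          rw [le_div_iff₀ h2] at h3
          linarith
      · simp only [hz', if_neg hj, mul_zero, sub_zero]
        exact h1
    · rw [comb_sub, h.1.ker x, hcomb x]
      ring
    · rw [bval_sub, hbval]
      have h1 := h.1.pos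
      have h2 : c * S.bval M z ≤ 0 := mul_nonpos_of_nonneg_of_nonpos hc0 hb
      linarith
  have hlt : (sup M fun j => y j - c * z' j).card < (sup M y).card := by
    refine Finset.card_lt_card ?_
    rw [Finset.ssubset_iff_of_subset]
    · refine ⟨i, ?_, ?_⟩
      · simp only [sup, Finset.mem_filter, Finset.mem_range]
        exact ⟨hiB.1, hs i hiB.1 hiB.2.ne'⟩
      · simp only [sup, Finset.mem_filter, Finset.mem_range, not_and, not_not]
        intro _
        simp only [hz', if_pos hiB.1, hc]
        have := hiB.2.ne'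
        field_simp
        ring
    · intro j hj
      simp only [sup, Finset.mem_filter, Finset.mem_range] at hj ⊢
      refine ⟨hj.1, fun h0 => hj.2 ?_⟩
      have : z j = 0 := by
        by_contra h1
        exact hs j hj.1 h1 h0
      simp only [hz', if_pos hj.1, this, h0, mul_zero, sub_zero]
  exact absurd (h.2 _ hcrt) (not_le.2 hlt)

theorem Min.kernel {M : ℕ} {y : ℕ → ℝ} (h : S.Min M y) {z : ℕ → ℝ} (hz : ∀ x, S.comb M z x = 0)
    (hs : ∀ i < M, z i ≠ 0 → y i ≠ 0) {i0 : ℕ} (hi0 : i0 < M) (hy0 : y i0 ≠ 0) (hz0 : z i0 = 0) :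
    ∀ i < M, z i = 0 := by
  -- vectors with nonpositive value
  have key : ∀ z : ℕ → ℝ, (∀ x, S.comb M z x = 0) → (∀ i < M, z i ≠ 0 → y i ≠ 0) →
      z i0 = 0 → S.bval M z ≤ 0 → ∀ i < M, z i = 0 := by
    intro z hz hs hz0 hb
    have h1 := h.claim hz hs hb
    rcases hb.lt_or_eq with hb' | hb'
    · exfalso
      set w : ℕ → ℝ := fun j => if j < M then -z j else 0 with hw
      have hcomb : ∀ x, S.comb M w x = 0 := by
        intro x
        rw [← neg_zero, ← hz x, ← comb_neg]
        unfold comb
        refine Finset.sum_congr rfl fun j hj => ?_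
        rw [hw]
        simp only [if_pos (Finset.mem_range.1 hj)]
      have hbval : S.bval M w = -S.bval M z := by
        rw [← bval_neg]
        unfold bval
        refine Finset.sum_congr rfl fun j hj => ?_
        rw [hw]
        simp only [if_pos (Finset.mem_range.1 hj)]
      have hcrt : S.Crt M w := by
        refine ⟨fun j => ?_, hcomb, by rw [hbval]; linarith⟩
        simp only [hw]
        split_ifs with hj
        · have := h1 j hj
          linarith
        · exact le_rfl
      have hlt : (sup M w).card < (sup M y).card := by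
        refine Finset.card_lt_card ?_
        rw [Finset.ssubset_iff_of_subset]
        · refine ⟨i0, ?_, ?_⟩
          · simp only [sup, Finset.mem_filter, Finset.mem_range]
            exact ⟨hi0, hy0⟩
          · simp only [sup, Finset.mem_filter, Finset.mem_range, not_and, not_not]
            intro _
            simp only [hw, if_pos hi0, hz0, neg_zero]
        · intro j hj
          simp only [sup, Finset.mem_filter, Finset.mem_range] at hj ⊢
          refine ⟨hj.1, hs j hj.1 fun h0 => hj.2 ?_⟩
          simp only [hw, if_pos hj.1, h0, neg_zero]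
      exact absurd (h.2 _ hcrt) (not_le.2 hlt)
    · intro i hi
      have h2 := h.claim (z := fun j => -z j) (fun x => by rw [comb_neg, hz x, neg_zero])
        (fun j hj hj' => hs j hj fun h0 => hj' (by simp [h0])) (by rw [bval_neg, hb', neg_zero]) i hi
      have h3 := h1 i hi
      linarith
  rcases le_total (S.bval M z) 0 with hb | hb
  · exact key z hz hs hz0 hb
  · intro i hi
    have h2 := key (fun j => -z j) (fun x => by rw [comb_neg, hz x, neg_zero])
      (fun j hj hj' => hs j hj fun h0 => hj' (by simp [h0])) (by simp [hz0])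
      (by rw [bval_neg]; linarith) i hi
    linarith

theorem comb_sup (M : ℕ) (y : ℕ → ℝ) (x : Fin n → ℝ) :
    S.comb M y x = ∑ i ∈ sup M y, y i * (S.d i * (S.V (S.t i) ⬝ᵥ x)) := by
  unfold comb sup
  rw [Finset.sum_filter]
  refine Finset.sum_congr rfl fun i _ => ?_
  split_ifs with h
  · rfl
  · rw [not_not.1 h, zero_mul]

/-- The structure of minimal certificates. -/
theorem Min.structure {M : ℕ} (hM : M ≤ S.m) {y : ℕ → ℝ} (h : S.Min M y)
    (hpair : ∀ i j, i < j → j < M → S.t i = S.t j → ∃ x, 0 ≤ S.slack i x ∧ 0 ≤ S.slack j x) :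
    S.Dist (sup M y) ∧ (sup M y).card = n + 1 := by
  set P := sup M y with hP
  have hPM : ∀ i ∈ P, i < M := fun i hi => by
    simp only [hP, sup, Finset.mem_filter, Finset.mem_range] at hi
    exact hi.1
  have hPy : ∀ i ∈ P, y i ≠ 0 := fun i hi => by
    simp only [hP, sup, Finset.mem_filter, Finset.mem_range] at hi
    exact hi.2
  have hmem : ∀ i < M, y i ≠ 0 → i ∈ P := fun i hi hi' => by
    simp only [hP, sup, Finset.mem_filter, Finset.mem_range]
    exact ⟨hi, hi'⟩
  have hPne : P.Nonempty := by
    by_contra hcon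
    rw [Finset.not_nonempty_iff_eq_empty] at hcon
    have h1 := h.1.pos
    have h2 : S.bval M y = 0 := by
      unfold bval
      refine Finset.sum_eq_zero fun i hi => ?_
      have : y i = 0 := by
        by_contra h3
        have := hmem i (Finset.mem_range.1 hi) h3
        rw [hcon] at this
        simp at this
      rw [this, zero_mul]
    linarith
  -- different points
  have hD : S.Dist P := by
    refine ⟨fun j hj => (hPM j hj).trans_le hM, fun i hi j hj hij => ?_⟩
    have hjm := (hPM j hj).trans_le hM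
    refine lt_of_le_of_ne (S.t_mono i j hij.le hjm) fun ht => ?_
    set z : ℕ → ℝ := fun k => if k = i then S.d j else if k = j then -S.d i else 0 with hz
    have hzi : z i = S.d j := by simp [hz]
    have hzj : z j = -S.d i := by simp [hz, hij.ne']
    have hcomb : ∀ x, S.comb M z x = 0 := by
      intro x
      unfold comb
      have h1 : ∀ k ∈ Finset.range M, k ∉ ({i, j} : Finset ℕ) →
          z k * (S.d k * (S.V (S.t k) ⬝ᵥ x)) = 0 := by
        intro k _ hk
        simp only [Finset.mem_insert, Finset.mem_singleton, not_or] at hk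
        simp [hz, hk.1, hk.2]
      rw [← Finset.sum_subset (s₁ := {i, j}) (by
        intro k hk
        simp only [Finset.mem_insert, Finset.mem_singleton] at hk
        rcases hk with rfl | rfl
        · exact Finset.mem_range.2 (hPM k hi)
        · exact Finset.mem_range.2 (hPM k hj)) h1, Finset.sum_pair hij.ne, hzi, hzj, ht]
      ring
    by_cases hex : ∃ i0 ∈ P, i0 ≠ i ∧ i0 ≠ j
    · obtain ⟨i0, h1, h2, h3⟩ := hex
      have h4 := h.kernel hcomb (fun k _ hk => by
        by_cases hki : k = i
        · rw [hki]; exact hPy i hi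
        · by_cases hkj : k = j
          · rw [hkj]; exact hPy j hj
          · simp [hz, hki, hkj] at hk) (hPM i0 h1) (hPy i0 h1) (by simp [hz, h2, h3]) i (hPM i hi)
      rw [hzi] at h4
      exact S.d_ne j hjm h4
    · push Not at hex
      have hPij : P = {i, j} := by
        ext k
        simp only [Finset.mem_insert, Finset.mem_singleton]
        constructor
        · intro hk
          by_contra hcon
          push Not at hcon
          exact hcon.2 (hex k hk hcon.1)
        · rintro (rfl | rfl)
          · exact hi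
          · exact hj
      obtain ⟨x, hx1, hx2⟩ := hpair i j hij (hPM j hj) ht
      have e1 := h.1.ker x
      rw [comb_sup, ← hP, hPij, Finset.sum_pair hij.ne] at e1
      have e2 : S.bval M y = y i * S.b i + y j * S.b j := by
        unfold bval
        rw [← Finset.sum_subset (s₁ := {i, j}) (by
          intro k hk
          simp only [Finset.mem_insert, Finset.mem_singleton] at hk
          rcases hk with rfl | rfl
          · exact Finset.mem_range.2 (hPM k hi)
          · exact Finset.mem_range.2 (hPM k hj)), Finset.sum_pair hij.ne]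
        intro k hk hk'
        have : y k = 0 := by
          by_contra h3
          have := hmem k (Finset.mem_range.1 hk) h3
          rw [hPij] at this
          exact hk' this
        rw [this, zero_mul]
      have e3 := h.1.pos
      rw [e2] at e3
      have e4 : 0 ≤ y i * S.slack i x := mul_nonneg (h.1.nonneg i) hx1
      have e5 : 0 ≤ y j * S.slack j x := mul_nonneg (h.1.nonneg j) hx2
      unfold slack at e4 e5
      nlinarith
  refine ⟨hD, ?_⟩
  have hinj : Set.InjOn S.t (P : Set ℕ) := by
    intro a ha c hc hac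
    rcases lt_trichotomy a c with h1 | h1 | h1
    · exact absurd hac (hD.2 a ha c hc h1).ne
    · exact h1
    · exact absurd hac (hD.2 c hc a ha h1).ne'
  rcases lt_trichotomy P.card (n + 1) with hlt | heq | hgt
  · exfalso
    obtain ⟨i0, hi0⟩ := hPne
    obtain ⟨x, hx⟩ := S.cheb.interp_le (Q := P.image S.t) (fun q hq => by
      obtain ⟨i, hi, rfl⟩ := Finset.mem_image.1 hq
      exact S.t_lt i ((hPM i hi).trans_le hM)) (by
        rw [Finset.card_image_of_injOn hinj]
        omega) (fun q => if q = S.t i0 then 1 else 0)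
    have e1 := h.1.ker x
    rw [comb_sup, ← hP, Finset.sum_eq_single i0] at e1
    · rw [hx _ (Finset.mem_image_of_mem _ hi0), if_pos rfl, mul_one] at e1
      rcases mul_eq_zero.1 e1 with h1 | h1
      · exact hPy i0 hi0 h1
      · exact S.d_ne i0 ((hPM i0 hi0).trans_le hM) h1
    · intro i hi hne
      rw [hx _ (Finset.mem_image_of_mem _ hi), if_neg (fun h1 => hne (hinj hi hi0 h1))]
      ring
    · intro h1
      exact absurd hi0 h1
  · exact heq
  · exfalso
    obtain ⟨P', hP', hc'⟩ := Finset.exists_subset_card_eq hgt.le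
    have hnli : ¬ LinearIndependent ℝ (fun i : P' => S.V (S.t i)) := by
      intro hli
      have h1 := hli.fintype_card_le_finrank
      rw [Module.finrank_fin_fun, Fintype.card_coe, hc'] at h1
      omega
    rw [Fintype.not_linearIndependent_iff] at hnli
    obtain ⟨g, hg1, ⟨i1, hi1⟩⟩ := hnli
    set z : ℕ → ℝ := fun i => if hi : i ∈ P' then g ⟨i, hi⟩ / S.d i else 0 with hz
    have hcomb : ∀ x, S.comb M z x = 0 := by
      intro x
      have h2 := congrArg (fun v => v ⬝ᵥ x) hg1
      simp only [sum_dotProduct, smul_dotProduct, smul_eq_mul, zero_dotProduct] at h2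
      rw [← h2]
      unfold comb
      rw [← Finset.sum_subset (s₁ := P')]
      · rw [← Finset.sum_coe_sort P']
        refine Finset.sum_congr rfl fun i _ => ?_
        have hd := S.d_ne i ((hPM i (hP' i.2)).trans_le hM)
        rw [hz]
        simp only [dif_pos i.2]
        field_simp
      · exact fun k hk => Finset.mem_range.2 (hPM k (hP' hk))
      · intro k _ hk
        rw [hz]
        simp only [dif_neg hk, zero_mul]
    obtain ⟨i0, hi0, hi0'⟩ : ∃ i0 ∈ P, i0 ∉ P' := by
      by_contra hcon
      push Not at hcon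
      have := Finset.card_le_card hcon
      omega
    have h4 := h.kernel hcomb (fun k _ hk => by
      by_contra h5
      apply hk
      rw [hz]
      simp only
      rw [dif_neg]
      intro h6
      exact hPy k (hP' h6) h5) (hPM i0 hi0) (hPy i0 hi0) (by simp [hz, hi0']) i1
      (hPM i1 (hP' i1.2))
    rw [hz] at h4
    simp only [dif_pos i1.2] at h4
    rcases div_eq_zero_iff.1 h4 with h5 | h5
    · exact hi1 h5
    · exact S.d_ne i1 ((hPM i1 (hP' i1.2)).trans_le hM) h5

/-- If the rows before `R` are solvable, but not together with the row `R`, then there is an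
alternating set of rows. -/
theorem exists_alt {R : ℕ} (hR : R < S.m) {ρ : ℝ} (hd : 0 < ρ * S.d R)
    (hprev : ∃ x, ∀ i < R, 0 ≤ S.slack i x)
    (hpair : ∀ i j, i < j → j < R + 1 → S.t i = S.t j →
      ∃ x, 0 ≤ S.slack i x ∧ 0 ≤ S.slack j x)
    (hbad : ¬ ∃ x, ∀ i < R + 1, 0 ≤ S.slack i x) :
    ∃ J : Finset ℕ, (∀ j ∈ J, j < R) ∧ J.card = n ∧ S.Dist (insert R J) ∧ S.Alt (-ρ) J := by
  obtain ⟨y, hy⟩ := exists_min (exists_crt hbad)
  obtain ⟨hD, hc⟩ := hy.structure hR hpair
  set P := sup (R + 1) y with hP
  have hPM : ∀ i ∈ P, i < R + 1 := fun i hi => by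
    simp only [hP, sup, Finset.mem_filter, Finset.mem_range] at hi
    exact hi.1
  have hPy : ∀ i ∈ P, y i ≠ 0 := fun i hi => by
    simp only [hP, sup, Finset.mem_filter, Finset.mem_range] at hi
    exact hi.2
  have hRP : R ∈ P := by
    by_contra hcon
    obtain ⟨x, hx⟩ := hprev
    have e1 := hy.1.ker x
    have e2 := hy.1.pos
    have e3 : y R = 0 := by
      by_contra h3
      apply hcon
      simp only [hP, sup, Finset.mem_filter, Finset.mem_range]
      exact ⟨by omega, h3⟩
    unfold comb at e1
    unfold bval at e2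
    rw [Finset.sum_range_succ, e3, zero_mul, add_zero] at e1 e2
    have e4 : 0 ≤ ∑ i ∈ Finset.range R, y i * S.slack i x :=
      Finset.sum_nonneg fun i hi => mul_nonneg (hy.1.nonneg i) (hx i (Finset.mem_range.1 hi))
    have e5 : ∑ i ∈ Finset.range R, y i * S.slack i x =
        ∑ i ∈ Finset.range R, y i * (S.d i * (S.V (S.t i) ⬝ᵥ x)) -
          ∑ i ∈ Finset.range R, y i * S.b i := by
      rw [← Finset.sum_sub_distrib]
      exact Finset.sum_congr rfl fun i _ => by unfold slack; ring
    linarith
  have hlt : ∀ j ∈ P.erase R, j < R := by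
    intro j hj
    obtain ⟨h1, h2⟩ := Finset.mem_erase.1 hj
    have := hPM j h2
    omega
  refine ⟨P.erase R, hlt, ?_, ?_, ?_⟩
  · rw [Finset.card_erase_of_mem hRP, hc]
    rfl
  · rw [Finset.insert_erase hRP]
    exact hD
  · intro j hj
    obtain ⟨hjR, hjP⟩ := Finset.mem_erase.1 hj
    set K := (P.erase R).erase j with hK
    have hKc : K.card + 1 = n := by
      have h1 : (P.erase R).card = n := by
        rw [Finset.card_erase_of_mem hRP, hc]
        rfl
      have h2 : 0 < (P.erase R).card := Finset.card_pos.2 ⟨j, hj⟩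
      rw [hK, Finset.card_erase_of_mem hj]
      omega
    have hjK : j ∉ K := Finset.notMem_erase _ _
    have hRK : R ∉ K := by
      intro h1
      have := hlt R (Finset.mem_of_mem_erase h1)
      omega
    have hKR : ∀ k ∈ K, k < R := fun k hk => hlt k (Finset.mem_of_mem_erase hk)
    have hins : insert j (insert R K) = P := by
      rw [hK, Finset.insert_comm, Finset.insert_erase hj, Finset.insert_erase hRP]
    have hPlt : ∀ q ∈ (insert R K).image S.t, q < S.N := by
      intro q hq
      obtain ⟨i, hi, rfl⟩ := Finset.mem_image.1 hq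
      refine S.t_lt i (hD.1 i ?_)
      rw [← hins]
      exact Finset.mem_insert_of_mem hi
    have hDRK : S.Dist (insert R K) := hD.subset (by
      rw [← hins]
      exact Finset.subset_insert _ _)
    obtain ⟨x, hx⟩ := interpJ hDRK (by rw [Finset.card_insert_of_notMem hRK]; exact hKc)
      (fun i => if i = R then 1 else 0)
    have hxR : S.V (S.t R) ⬝ᵥ x = 1 := by
      rw [hx R (Finset.mem_insert_self _ _), if_pos rfl]
    have hxK : ∀ k ∈ K, S.V (S.t k) ⬝ᵥ x = 0 := by
      intro k hk
      rw [hx k (Finset.mem_insert_of_mem hk), if_neg]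
      have := hKR k hk
      omega
    have hsign := zero_sign (by rw [hins]; exact hD) hjK hKR (hlt j hj) hKc hxK
      (by rw [hxR]; exact one_ne_zero)
    rw [hxR, mul_one] at hsign
    have e1 := hy.1.ker x
    rw [comb_sup, ← hP, ← hins, Finset.sum_insert, Finset.sum_insert hRK, hxR,
      Finset.sum_eq_zero (s := K)] at e1
    · have hyj : 0 < y j := lt_of_le_of_ne (hy.1.nonneg j) (hPy j hjP).symm
      have hyR : 0 < y R := lt_of_le_of_ne (hy.1.nonneg R) (hPy R hRP).symm
      have h5 := rk_erase (J := P.erase R) hj j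
      rw [if_neg (lt_irrefl _), add_zero] at h5
      rw [← h5, ← hK]
      set v := S.V (S.t j) ⬝ᵥ x with hv
      -- `y j * (d j * v) = - y R * d R`
      have e2 : y j * (S.d j * v) = -(y R * S.d R) := by linarith
      have e3 : 0 < (y R * (ρ * S.d R)) * ((-1) ^ rk K j * v) :=
        mul_pos (mul_pos hyR hd) hsign
      have e4 : (y R * (ρ * S.d R)) * ((-1) ^ rk K j * v) =
          (-ρ * (-1) ^ rk K j * S.d j) * (y j * v ^ 2) := by
        have : y R * (ρ * S.d R) = -(ρ * (y j * (S.d j * v))) := by rw [e2]; ring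
        rw [this]
        ring
      rw [e4] at e3
      exact pos_of_mul_pos_left e3 (mul_nonneg hyj.le (sq_nonneg _))
    · intro k hk
      rw [hxK k hk]
      ring
    · rw [Finset.mem_insert, not_or]
      exact ⟨hjR, hjK⟩

end Sys

end Pool.Agent.H682.CH
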