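import Pool.Agent.H682.CH.Cert

set_option autoImplicit false

/-!
# The greedy alternating chain and the snakes
-/

namespace Pool.Agent.H682.CH

open Matrix

/-- The number of elements of `J` smaller than `i`. -/
def lk (J : Finset ℕ) (i : ℕ) : ℕ := (J.filter fun j => j < i).card

theorem lk_add_rk {J : Finset ℕ} {i : ℕ} (h : i ∈ J) : lk J i + rk J i + 1 = J.card := by
  have h1 : J = (J.filter fun j => j < i) ∪ ((J.filter fun j => i < j) ∪ {i}) := by
    ext j
    simp only [Finset.mem_union, Finset.mem_filter, Finset.mem_singleton]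
    constructor
    · intro hj
      rcases lt_trichotomy j i with h2 | h2 | h2
      · exact Or.inl ⟨hj, h2⟩
      · exact Or.inr (Or.inr h2)
      · exact Or.inr (Or.inl ⟨hj, h2⟩)
    · rintro (⟨h2, _⟩ | ⟨h2, _⟩ | rfl)
      · exact h2
      · exact h2
      · exact h
  conv_rhs => rw [h1]
  rw [Finset.card_union_of_disjoint, Finset.card_union_of_disjoint, Finset.card_singleton]
  · rfl
  · rw [Finset.disjoint_singleton_right]
    simp
  · rw [Finset.disjoint_left]
    intro j hj
    simp only [Finset.mem_union, Finset.mem_filter, Finset.mem_singleton] at hj ⊢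
    omega

theorem lk_add_rk' {J : Finset ℕ} {i : ℕ} (h : i ∉ J) : lk J i + rk J i = J.card := by
  have h1 : J = (J.filter fun j => j < i) ∪ (J.filter fun j => i < j) := by
    ext j
    simp only [Finset.mem_union, Finset.mem_filter]
    constructor
    · intro hj
      rcases lt_trichotomy j i with h2 | h2 | h2
      · exact Or.inl ⟨hj, h2⟩
      · exact absurd (h2 ▸ hj) h
      · exact Or.inr ⟨hj, h2⟩
    · rintro (⟨h2, _⟩ | ⟨h2, _⟩)
      · exact h2
      · exact h2
  conv_rhs => rw [h1]
  rw [Finset.card_union_of_disjoint]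
  · rfl
  · rw [Finset.disjoint_left]
    intro j hj
    simp only [Finset.mem_filter] at hj ⊢
    omega

namespace Sys

variable {n : ℕ} (S : Sys n)

open Classical in
/-- One step of the greedy choice of an alternating chain. -/
noncomputable def gstep (ρ : ℝ) (L : List ℕ) (i : ℕ) : List ℕ :=
  if L.length < n ∧ 0 < ρ * (-1) ^ (n - 1 - L.length) * S.d i ∧
    (∀ h ∈ L.head?, S.t h ≠ S.t i) then i :: L else L

/-- The greedy alternating chain of the rows before `R`. -/
noncomputable def greedy (ρ : ℝ) (R : ℕ) : List ℕ := (List.range R).foldl (S.gstep ρ) []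

theorem greedy_zero (ρ : ℝ) : S.greedy ρ 0 = [] := rfl

theorem greedy_succ (ρ : ℝ) (R : ℕ) : S.greedy ρ (R + 1) = S.gstep ρ (S.greedy ρ R) R := by
  rw [greedy, List.range_succ, List.foldl_append]
  rfl

variable {S} {ρ : ℝ}

theorem greedy_cases (R : ℕ) :
    (S.greedy ρ (R + 1) = R :: S.greedy ρ R ∧ (S.greedy ρ R).length < n ∧
      0 < ρ * (-1) ^ (n - 1 - (S.greedy ρ R).length) * S.d R ∧
      (∀ h ∈ (S.greedy ρ R).head?, S.t h ≠ S.t R)) ∨
    (S.greedy ρ (R + 1) = S.greedy ρ R ∧ ¬ ((S.greedy ρ R).length < n ∧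
      0 < ρ * (-1) ^ (n - 1 - (S.greedy ρ R).length) * S.d R ∧
      (∀ h ∈ (S.greedy ρ R).head?, S.t h ≠ S.t R))) := by
  classical
  rw [greedy_succ, gstep]
  by_cases h : (S.greedy ρ R).length < n ∧
      0 < ρ * (-1) ^ (n - 1 - (S.greedy ρ R).length) * S.d R ∧
      (∀ h ∈ (S.greedy ρ R).head?, S.t h ≠ S.t R)
  · left
    exact ⟨if_pos h, h⟩
  · right
    exact ⟨if_neg h, h⟩

theorem greedy_le (R : ℕ) : (S.greedy ρ R).length ≤ n := by
  induction R with
  | zero => simp [greedy_zero]
  | succ R ih =>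
    rcases greedy_cases (S := S) (ρ := ρ) R with ⟨h1, h2, _⟩ | ⟨h1, _⟩
    · rw [h1, List.length_cons]
      omega
    · rw [h1]
      exact ih

theorem greedy_mono {R R' : ℕ} (h : R ≤ R') :
    (S.greedy ρ R).length ≤ (S.greedy ρ R').length := by
  induction R', h using Nat.le_induction with
  | base => exact le_rfl
  | succ R' _ ih =>
    rcases greedy_cases (S := S) (ρ := ρ) R' with ⟨h1, _⟩ | ⟨h1, _⟩
    · rw [h1, List.length_cons]
      omega
    · rw [h1]
      exact ih

theorem greedy_lt (R : ℕ) : ∀ j ∈ S.greedy ρ R, j < R := by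
  induction R with
  | zero => simp [greedy_zero]
  | succ R ih =>
    rcases greedy_cases (S := S) (ρ := ρ) R with ⟨h1, _⟩ | ⟨h1, _⟩
    · rw [h1]
      intro j hj
      rcases List.mem_cons.1 hj with rfl | hj
      · exact Nat.lt_succ_self _
      · exact (ih j hj).trans (Nat.lt_succ_self _)
    · rw [h1]
      exact fun j hj => (ih j hj).trans (Nat.lt_succ_self _)

theorem greedy_pairwise {R : ℕ} (hR : R ≤ S.m) :
    (S.greedy ρ R).Pairwise (fun a c => c < a ∧ S.t c < S.t a) := by
  induction R with
  | zero => simp [greedy_zero]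
  | succ R ih =>
    have ih := ih (by omega)
    rcases greedy_cases (S := S) (ρ := ρ) R with ⟨h1, _, _, h4⟩ | ⟨h1, _⟩
    · rw [h1, List.pairwise_cons]
      refine ⟨fun j hj => ?_, ih⟩
      have hjR := greedy_lt R j hj
      refine ⟨hjR, lt_of_le_of_ne (S.t_mono j R hjR.le (by omega)) ?_⟩
      -- compare with the head
      cases hL : S.greedy ρ R with
      | nil => rw [hL] at hj; simp at hj
      | cons a L =>
        rw [hL] at h4 hj ih
        have h5 := h4 a (by simp)
        rcases List.mem_cons.1 hj with rfl | hj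
        · exact h5
        · have h6 := (List.pairwise_cons.1 ih).1 j hj
          have h7 : S.t a ≤ S.t R := S.t_mono a R (by
            have := greedy_lt (S := S) (ρ := ρ) R a (by rw [hL]; simp)
            omega) (by omega)
          omega
    · rw [h1]
      exact ih

theorem greedy_nodup {R : ℕ} (hR : R ≤ S.m) : (S.greedy ρ R).Nodup := by
  refine (greedy_pairwise hR).imp ?_
  intro a c h
  omega

theorem greedy_head {R : ℕ} (hR : R + 1 ≤ S.m) (h : S.greedy ρ (R + 1) = R :: S.greedy ρ R) :
    ∀ j ∈ S.greedy ρ R, j < R ∧ S.t j < S.t R := by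
  have h1 := greedy_pairwise (ρ := ρ) hR
  rw [h, List.pairwise_cons] at h1
  exact h1.1

theorem greedy_dist {R : ℕ} (hR : R ≤ S.m) : S.Dist (S.greedy ρ R).toFinset := by
  induction R with
  | zero =>
    rw [greedy_zero]
    exact ⟨by simp, by simp⟩
  | succ R ih =>
    have ih := ih (by omega)
    rcases greedy_cases (S := S) (ρ := ρ) R with ⟨h1, _⟩ | ⟨h1, _⟩
    · have h2 := greedy_head hR h1
      rw [h1, List.toFinset_cons, Dist.insert_iff]
      refine ⟨ih, by omega, fun j hj => ?_⟩
      have h3 := h2 j (List.mem_toFinset.1 hj)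
      exact ⟨fun _ => h3.2, fun h4 => by omega⟩
    · rw [h1]
      exact ih

/-- The types of the elements of the chain. -/
theorem greedy_type {R : ℕ} (hR : R ≤ S.m) : ∀ j ∈ S.greedy ρ R,
    0 < ρ * (-1) ^ (n - 1 - lk (S.greedy ρ R).toFinset j) * S.d j := by
  induction R with
  | zero => simp [greedy_zero]
  | succ R ih =>
    have ih := ih (by omega)
    rcases greedy_cases (S := S) (ρ := ρ) R with ⟨h1, _, h3, _⟩ | ⟨h1, _⟩
    · have h2 := greedy_head hR h1
      rw [h1, List.toFinset_cons]
      have hlk : ∀ j, j ≤ R → lk (insert R (S.greedy ρ R).toFinset) j =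
          lk (S.greedy ρ R).toFinset j := by
        intro j hj
        unfold lk
        rw [Finset.filter_insert, if_neg (by omega)]
      intro j hj
      rcases List.mem_cons.1 hj with rfl | hj
      · rw [hlk j le_rfl]
        have h4 : lk (S.greedy ρ j).toFinset j = (S.greedy ρ j).length := by
          unfold lk
          rw [Finset.filter_true_of_mem, List.toFinset_card_of_nodup (greedy_nodup (by omega))]
          intro k hk
          exact (h2 k (List.mem_toFinset.1 hk)).1
        rw [h4]
        exact h3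
      · rw [hlk j (h2 j hj).1.le]
        exact ih j hj
    · rw [h1]
      exact ih

/-- The types of the other rows. -/
theorem greedy_other {R : ℕ} (hR : R ≤ S.m) : ∀ i < R,
    (∀ k ∈ S.greedy ρ R, S.t i ≠ S.t k) → lk (S.greedy ρ R).toFinset i < n →
    ¬ 0 < ρ * (-1) ^ (n - 1 - lk (S.greedy ρ R).toFinset i) * S.d i := by
  induction R with
  | zero => intro i hi; omega
  | succ R ih =>
    have ih := ih (by omega)
    rcases greedy_cases (S := S) (ρ := ρ) R with ⟨h1, _, _, _⟩ | ⟨h1, h2⟩
    · intro i hi hne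
      rw [h1] at hne
      have hiR : i ≠ R := fun h => hne R (by simp) (by rw [h])
      rw [h1, List.toFinset_cons]
      have hlk : lk (insert R (S.greedy ρ R).toFinset) i = lk (S.greedy ρ R).toFinset i := by
        unfold lk
        rw [Finset.filter_insert, if_neg (by omega)]
      rw [hlk]
      exact ih i (by omega) fun k hk => hne k (List.mem_cons_of_mem _ hk)
    · intro i hi hne hlt
      rw [h1] at hne hlt ⊢
      rcases Nat.lt_succ_iff_lt_or_eq.1 hi with hi' | rfl
      · exact ih i hi' hne hlt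
      · have h4 : lk (S.greedy ρ i).toFinset i = (S.greedy ρ i).length := by
          unfold lk
          rw [Finset.filter_true_of_mem, List.toFinset_card_of_nodup (greedy_nodup (by omega))]
          intro k hk
          exact greedy_lt i k (List.mem_toFinset.1 hk)
        rw [h4] at hlt ⊢
        intro h5
        exact h2 ⟨hlt, h5, fun h hh => (hne h (List.mem_of_mem_head? hh)).symm⟩

/-- An element of the chain was chosen at its time. -/
theorem greedy_mem {R : ℕ} : ∀ h ∈ S.greedy ρ R, S.greedy ρ (h + 1) = h :: S.greedy ρ h := by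
  induction R with
  | zero => simp [greedy_zero]
  | succ R ih =>
    rcases greedy_cases (S := S) (ρ := ρ) R with ⟨h1, _⟩ | ⟨h1, _⟩
    · intro h hh
      rw [h1] at hh
      rcases List.mem_cons.1 hh with rfl | hh
      · exact h1
      · exact ih h hh
    · rw [h1]
      exact ih

/-- The greedy chain is as long as possible. -/
theorem greedy_opt : ∀ (R : ℕ), R ≤ S.m → ∀ J : Finset ℕ, (∀ j ∈ J, j < R) → S.Dist J →
    (∀ j ∈ J, 0 < ρ * (-1) ^ (n - 1 - lk J j) * S.d j) → J.card ≤ n →
    J.card ≤ (S.greedy ρ R).length := by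
  intro R
  induction R using Nat.strong_induction_on with
  | _ R ih =>
  intro hR J hJR hD hA hc
  rcases Nat.eq_zero_or_pos R with rfl | hR0
  · have : J = ∅ := Finset.eq_empty_of_forall_notMem fun j hj => by
      have := hJR j hj
      omega
    rw [this]
    simp
  obtain ⟨Q, rfl⟩ : ∃ Q, R = Q + 1 := ⟨R - 1, by omega⟩
  by_cases hQJ : Q ∈ J
  · set J0 := J.erase Q with hJ0
    have hJ0c : J0.card + 1 = J.card := by
      rw [hJ0, Finset.card_erase_of_mem hQJ]
      have : 0 < J.card := Finset.card_pos.2 ⟨Q, hQJ⟩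
      omega
    have hJ0Q : ∀ j ∈ J0, j < Q := by
      intro j hj
      obtain ⟨h1, h2⟩ := Finset.mem_erase.1 hj
      have := hJR j h2
      omega
    have hlk : ∀ j, j ≤ Q → lk J0 j = lk J j := by
      intro j hj
      unfold lk
      rw [hJ0, Finset.filter_erase, Finset.erase_eq_of_notMem]
      simp only [Finset.mem_filter, not_and]
      omega
    have hD0 : S.Dist J0 := hD.subset (Finset.erase_subset _ _)
    have hA0 : ∀ j ∈ J0, 0 < ρ * (-1) ^ (n - 1 - lk J0 j) * S.d j := by
      intro j hj
      rw [hlk j (hJ0Q j hj).le]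
      exact hA j (Finset.mem_of_mem_erase hj)
    have h1 := ih Q (Nat.lt_succ_self _) (by omega) J0 hJ0Q hD0 hA0 (by omega)
    have hmono := greedy_mono (S := S) (ρ := ρ) (Nat.le_succ Q)
    by_cases h2 : J.card ≤ (S.greedy ρ Q).length
    · exact h2.trans hmono
    have h3 : (S.greedy ρ Q).length = J0.card := by omega
    rcases greedy_cases (S := S) (ρ := ρ) Q with ⟨h4, _⟩ | ⟨h4, h5⟩
    · rw [h4, List.length_cons]
      omega
    · exfalso
      apply h5
      have hlkQ : lk J Q = J0.card := by
        rw [← hlk Q le_rfl]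
        unfold lk
        rw [Finset.filter_true_of_mem hJ0Q]
      refine ⟨by omega, ?_, fun h hh ht => ?_⟩
      · rw [h3, ← hlkQ]
        exact hA Q hQJ
      · have hmem := List.mem_of_mem_head? hh
        have hhQ := greedy_lt Q h hmem
        have h6 := greedy_mem h hmem
        have hJh : ∀ j ∈ J0, j < h := by
          intro j hj
          have h7 := hD.2 j (Finset.mem_of_mem_erase hj) Q hQJ (hJ0Q j hj)
          by_contra hcon
          push Not at hcon
          have h8 := S.t_mono h j hcon (by have := hJ0Q j hj; omega)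
          omega
        have h9 := ih h (by omega) (by omega) J0 hJh hD0 hA0 (by omega)
        have h10 := greedy_mono (S := S) (ρ := ρ) (R := h + 1) (R' := Q) (by omega)
        rw [h6, List.length_cons] at h10
        omega
  · have h1 := ih Q (Nat.lt_succ_self _) (by omega) J (fun j hj => by
      have h2 := hJR j hj
      have h3 : j ≠ Q := fun h => hQJ (h ▸ hj)
      omega) hD hA hc
    exact h1.trans (greedy_mono (Nat.le_succ Q))

/-- A set of contacts with a point which satisfies the rows before `R`. -/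
structure Snake (S : Sys n) (ρ : ℝ) (R : ℕ) (F : Finset ℕ) : Prop where
  /-- number of contacts -/
  card : F.card = n
  /-- contacts are before `R` -/
  lt : ∀ k ∈ F, k < R
  /-- different points -/
  dist : S.Dist F
  /-- alternation -/
  alt : S.Alt ρ F
  /-- the point -/
  pt : ∃ x, (∀ j ∈ F, S.slack j x = 0) ∧ ∀ i < R, 0 ≤ S.slack i x

/-- Without a long greedy chain there is no alternating set. -/
theorem no_alt {R : ℕ} (hR : R ≤ S.m) (hlen : (S.greedy ρ R).length < n) {J : Finset ℕ}
    (hJ : ∀ j ∈ J, j < R) (hD : S.Dist J) (hc : J.card = n) : ¬ S.Alt ρ J := by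
  intro hA
  have h1 := greedy_opt R hR J hJ hD (fun j hj => by
    have h2 := lk_add_rk hj
    have h3 : n - 1 - lk J j = rk J j := by omega
    rw [h3]
    exact hA j hj) hc.le
  omega

theorem neg_pow_lk {J : Finset ℕ} {j k : ℕ} (h : lk J j + rk J j = k) :
    (-1 : ℝ) ^ rk J j = (-1) ^ (k - lk J j) := by
  congr 1
  omega

variable {R : ℕ}

/-- The test of a row of the other type: infeasibility. -/
theorem Snake.infeasible (hρ : ρ ≠ 0) {F : Finset ℕ} (h : S.Snake (-ρ) R F) (hR : R < S.m)
    (hd : 0 < ρ * S.d R) {x : Fin n → ℝ} (hx : ∀ j ∈ F, S.slack j x = 0)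
    (hneg : S.slack R x < 0) : ¬ ∃ y, ∀ i ≤ R, 0 ≤ S.slack i y := by
  rintro ⟨y, hy⟩
  have hRF : R ∉ F := fun h1 => lt_irrefl _ (h.lt R h1)
  by_cases hex : ∃ l ∈ F, S.t l = S.t R
  · obtain ⟨l, hl, ht⟩ := hex
    have hlR := h.lt l hl
    rcases pair_ok' hlR hR ht (x := x) (hy l hlR.le) (hy R le_rfl) with h1 | h1
    · rw [hx l hl] at h1
      exact lt_irrefl _ h1
    · linarith
  · push Not at hex
    have hD : S.Dist (insert R F) := by
      rw [Dist.insert_iff]
      refine ⟨h.dist, hR, fun j hj => ⟨fun h1 => ?_, fun h1 => ?_⟩⟩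
      · exact lt_of_le_of_ne (S.t_mono j R h1.le hR) (hex j hj)
      · have := h.lt j hj
        omega
    have hA : S.Alt ρ (insert R F) := by
      intro j hj
      rw [rk_insert hRF]
      rcases Finset.mem_insert.1 hj with rfl | hj
      · rw [if_neg (lt_irrefl _), rk_top h.lt]
        simpa using hd
      · rw [if_pos (h.lt j hj), pow_succ]
        have := h.alt j hj
        have e : ρ * ((-1) ^ rk F j * -1) * S.d j = -ρ * (-1) ^ rk F j * S.d j := by ring
        rw [e]
        exact this
    have h2 : x = y := by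
      refine cmp hD (by rw [Finset.card_insert_of_notMem hRF, h.card]) hρ hA fun j hj => ?_
      rcases Finset.mem_insert.1 hj with rfl | hj
      · have := hy j le_rfl
        linarith
      · rw [hx j hj]
        exact hy j (h.lt j hj).le
    rw [h2] at hneg
    have := hy R le_rfl
    linarith

/-- A snake whose point satisfies the new row stays a snake. -/
theorem Snake.succ {F : Finset ℕ} (h : S.Snake ρ R F) {x : Fin n → ℝ}
    (hx : ∀ j ∈ F, S.slack j x = 0) (hpos : 0 ≤ S.slack R x) : S.Snake ρ (R + 1) F := by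
  obtain ⟨x', h1, h2⟩ := h.pt
  have hxx : x = x' := tight_unique h.dist h.card fun j hj => by rw [hx j hj, h1 j hj]
  subst hxx
  refine ⟨h.card, fun k hk => (h.lt k hk).trans (Nat.lt_succ_self _), h.dist, h.alt, x, h1,
    fun i hi => ?_⟩
  rcases Nat.lt_succ_iff_lt_or_eq.1 hi with hi | rfl
  · exact h2 i hi
  · exact hpos

/-- The start of the exchange loop from a snake. -/
theorem Snake.work {F K : Finset ℕ} {l : ℕ} (h : S.Snake ρ R F) (hR : R < S.m)
    (hF : F = insert l K) (hl : ∀ k ∈ K, k < l) {x : Fin n → ℝ}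
    (hx : ∀ j ∈ F, S.slack j x = 0) (hneg : S.slack R x ≤ 0) : S.Work ρ R K := by
  obtain ⟨x', h1, h2⟩ := h.pt
  have hxx : x = x' := tight_unique h.dist h.card fun j hj => by rw [hx j hj, h1 j hj]
  subst hxx
  subst hF
  have hlK : l ∉ K := fun h3 => lt_irrefl _ (hl l h3)
  have hlR := h.lt l (Finset.mem_insert_self _ _)
  refine ⟨?_, fun k hk => h.lt k (Finset.mem_insert_of_mem hk), ?_, ?_, x,
    fun k hk => h1 k (Finset.mem_insert_of_mem hk), h2, hneg⟩
  · have := h.card
    rwa [Finset.card_insert_of_notMem hlK] at this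
  · rw [Dist.insert_iff]
    refine ⟨h.dist.subset (Finset.subset_insert _ _), hR, fun j hj => ⟨fun _ => ?_, fun h3 => ?_⟩⟩
    · have h4 := h.dist.2 j (Finset.mem_insert_of_mem hj) l (Finset.mem_insert_self _ _) (hl j hj)
      exact h4.trans_le (S.t_mono l R hlR.le hR)
    · have := hl j hj
      omega
  · intro j hj
    have h3 := h.alt j (Finset.mem_insert_of_mem hj)
    rw [rk_insert hlK, if_pos (hl j hj), pow_succ] at h3
    have e : -ρ * (-1) ^ rk K j * S.d j = ρ * ((-1) ^ rk K j * -1) * S.d j := by ring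
    rw [e]
    exact h3

/-- The end of the exchange loop. -/
theorem Work.snake {K : Finset ℕ} (h : S.Work ρ R K) (hd : 0 < ρ * S.d R)
    {p : Fin n → ℝ} (hp : ∀ j ∈ insert R K, S.slack j p = 0) (hf : ∀ i < R, 0 ≤ S.slack i p) :
    S.Snake ρ (R + 1) (insert R K) := by
  refine ⟨h.card_insert, fun k hk => ?_, h.dist, fun j hj => ?_, p, hp, fun i hi => ?_⟩
  · rcases Finset.mem_insert.1 hk with rfl | hk
    · exact Nat.lt_succ_self _
    · exact (h.lt k hk).trans (Nat.lt_succ_self _)
  · rw [rk_insert h.notMem]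
    rcases Finset.mem_insert.1 hj with rfl | hj
    · rw [if_neg (lt_irrefl _), rk_top h.lt]
      simpa using hd
    · rw [if_pos (h.lt j hj), pow_succ]
      have := h.alt j hj
      have e : ρ * ((-1) ^ rk K j * -1) * S.d j = -ρ * (-1) ^ rk K j * S.d j := by ring
      rw [e]
      exact this
  · rcases Nat.lt_succ_iff_lt_or_eq.1 hi with hi | rfl
    · exact hf i hi
    · rw [hp i (Finset.mem_insert_self _ _)]

/-- Without a snake of the other type the new row is harmless. -/
theorem feasible_of_short (hR : R < S.m) (hd : 0 < ρ * S.d R)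
    (hlen : (S.greedy (-ρ) R).length < n) (hprev : ∃ x, ∀ i < R, 0 ≤ S.slack i x)
    (hpair : ∀ i j, i < j → j < R + 1 → S.t i = S.t j →
      ∃ x, 0 ≤ S.slack i x ∧ 0 ≤ S.slack j x) :
    ∃ x, ∀ i < R + 1, 0 ≤ S.slack i x := by
  by_contra hcon
  obtain ⟨J, h1, h2, h3, h4⟩ := exists_alt hR hd hprev hpair hcon
  exact no_alt hR.le hlen h1 (h3.subset (Finset.subset_insert _ _)) h2 h4

/-- The other chain does not become long. -/
theorem short_succ (hd : 0 < ρ * S.d R) (hlen : (S.greedy (-ρ) R).length < n) :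
    (S.greedy (-ρ) (R + 1)).length < n := by
  rcases greedy_cases (S := S) (ρ := -ρ) R with ⟨h1, _, h3, _⟩ | ⟨h1, _⟩
  · rw [h1, List.length_cons]
    by_contra hcon
    have h4 : n - 1 - (S.greedy (-ρ) R).length = 0 := by omega
    rw [h4, pow_zero, mul_one] at h3
    nlinarith
  · rw [h1]
    exact hlen

/-- The start of the exchange loop from the greedy chain. -/
theorem work_of_greedy (hR : R < S.m) (hρ : ρ ≠ 0) (hn : (S.greedy ρ R).length < n)
    (hn' : n ≤ (S.greedy ρ (R + 1)).length) {y : Fin n → ℝ} (hy : ∀ i ≤ R, 0 ≤ S.slack i y) :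
    S.greedy ρ (R + 1) = R :: S.greedy ρ R ∧ S.Work ρ R (S.greedy ρ R).toFinset := by
  rcases greedy_cases (S := S) (ρ := ρ) R with ⟨h1, h2, h3, h4⟩ | ⟨h1, _⟩
  swap
  · rw [h1] at hn'
    omega
  refine ⟨h1, ?_⟩
  rw [h1, List.length_cons] at hn'
  have hlen : (S.greedy ρ R).length + 1 = n := by omega
  have hd : 0 < ρ * S.d R := by
    have e : n - 1 - (S.greedy ρ R).length = 0 := by omega
    rw [e, pow_zero, mul_one] at h3
    exact h3
  have hdR := S.d_ne R hR
  set K := (S.greedy ρ R).toFinset with hK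
  have hKmem : ∀ {k}, k ∈ K ↔ k ∈ S.greedy ρ R := List.mem_toFinset
  have hcard : K.card + 1 = n := by
    rw [hK, List.toFinset_card_of_nodup (greedy_nodup hR.le)]
    exact hlen
  have hhead := greedy_head (Nat.succ_le_of_lt hR) h1
  have hlt : ∀ k ∈ K, k < R := fun k hk => (hhead k (hKmem.1 hk)).1
  have hRK : R ∉ K := fun h => lt_irrefl _ (hlt R h)
  have hDR : S.Dist (insert R K) := by
    rw [Dist.insert_iff]
    refine ⟨greedy_dist hR.le, hR, fun j hj => ⟨fun _ => (hhead j (hKmem.1 hj)).2, fun h => ?_⟩⟩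
    have := hlt j hj
    omega
  obtain ⟨x0, hx0⟩ := exists_tight hDR (by rw [Finset.card_insert_of_notMem hRK]; exact hcard)
  obtain ⟨q, hq⟩ := interpJ hDR (by rw [Finset.card_insert_of_notMem hRK]; exact hcard)
    (fun i => if i = R then -1 / S.d R else 0)
  have hqR : S.V (S.t R) ⬝ᵥ q = -1 / S.d R := by
    rw [hq R (Finset.mem_insert_self _ _), if_pos rfl]
  have hqK : ∀ k ∈ K, S.V (S.t k) ⬝ᵥ q = 0 := by
    intro k hk
    rw [hq k (Finset.mem_insert_of_mem hk), if_neg]
    have := hlt k hk
    omega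
  -- rows which are not at contacts
  have hpos : ∀ i < R, (∀ k ∈ K, S.t i ≠ S.t k) → 0 < S.d i * (S.V (S.t i) ⬝ᵥ q) := by
    intro i hi hne
    by_cases hiR : S.t i = S.t R
    · have h5 := S.pair i R hi hR hiR
      rw [hiR, hqR]
      have h6 : 0 < S.d R ^ 2 := by positivity
      have h7 : S.d i * (-1 / S.d R) = (-(S.d i * S.d R)) / S.d R ^ 2 := by
        field_simp
      rw [h7]
      exact div_pos (by linarith) h6
    · have hiK : i ∉ K := fun h => hne i h rfl
      have hDi : S.Dist (insert i (insert R K)) := by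
        rw [Dist.insert_iff]
        refine ⟨hDR, by omega, fun j hj => ?_⟩
        rcases Finset.mem_insert.1 hj with rfl | hj
        · exact ⟨fun h => by omega, fun _ => lt_of_le_of_ne (S.t_mono i j hi.le hR) hiR⟩
        · refine ⟨fun h => ?_, fun h => ?_⟩
          · exact lt_of_le_of_ne (S.t_mono j i h.le (by omega)) (hne j hj).symm
          · exact lt_of_le_of_ne (S.t_mono i j h.le (by have := hlt j hj; omega)) (hne j hj)
      have hqR0 : S.V (S.t R) ⬝ᵥ q ≠ 0 := by
        rw [hqR]
        exact div_ne_zero (by norm_num) hdR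
      have hs := zero_sign hDi hiK hlt hi hcard hqK hqR0
      have h5 := greedy_other hR.le i hi (fun k hk => hne k (hKmem.2 hk)) (by
        rw [← hK]
        have := lk_add_rk' hiK
        omega)
      rw [← hK] at h5
      have h6 : n - 1 - lk K i = rk K i := by
        have := lk_add_rk' hiK
        omega
      rw [h6] at h5
      have hdi := S.d_ne i (by omega)
      have h7 : ρ * (-1) ^ rk K i * S.d i < 0 := by
        refine lt_of_le_of_ne (not_lt.1 h5) ?_
        exact mul_ne_zero (mul_ne_zero hρ (pow_ne_zero _ (by norm_num))) hdi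
      rw [hqR] at hs
      set v := S.V (S.t i) ⬝ᵥ q with hv
      have h8 : 0 < ((-1) ^ rk K i * v * (-1 / S.d R)) * (-(ρ * (-1) ^ rk K i * S.d i)) :=
        mul_pos hs (by linarith)
      have h9 : ((-1) ^ rk K i * v * (-1 / S.d R)) * (-(ρ * (-1) ^ rk K i * S.d i)) =
          (S.d i * v) * ((ρ * S.d R) * (1 / S.d R ^ 2)) * (((-1) ^ rk K i) ^ 2) := by
        field_simp
      have h10 : (((-1 : ℝ) ^ rk K i) ^ 2) = 1 := by
        rw [← pow_mul, mul_comm, pow_mul]
        norm_num
      rw [h9, h10, mul_one] at h8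
      exact pos_of_mul_pos_left h8 (by positivity)
  set s : ℝ := ∑ i ∈ Finset.range R, |S.slack i x0| / |S.d i * (S.V (S.t i) ⬝ᵥ q)| with hs
  have hs0 : 0 ≤ s := Finset.sum_nonneg fun i _ => by positivity
  have hsl : ∀ i, S.slack i (x0 + s • q) = S.slack i x0 + s * (S.d i * (S.V (S.t i) ⬝ᵥ q)) := by
    intro i
    simp only [slack, dotProduct_add, dotProduct_smul, smul_eq_mul]
    ring
  have hpK : ∀ k ∈ K, S.slack k (x0 + s • q) = 0 := by
    intro k hk
    rw [hsl, hx0 k (Finset.mem_insert_of_mem hk), hqK k hk]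
    ring
  refine ⟨hcard, hlt, hDR, ?_, x0 + s • q, hpK, fun i hi => ?_, ?_⟩
  · intro j hj
    have h5 := greedy_type hR.le j (hKmem.1 hj)
    rw [← hK] at h5
    have h6 := lk_add_rk hj
    have h7 : n - 1 - lk K j = rk K j + 1 := by omega
    rw [h7, pow_succ] at h5
    have e : -ρ * (-1) ^ rk K j * S.d j = ρ * ((-1) ^ rk K j * -1) * S.d j := by ring
    rw [e]
    exact h5
  · by_cases hex : ∃ k ∈ K, S.t i = S.t k
    · obtain ⟨k, hk, ht⟩ := hex
      have hkR := hlt k hk
      rcases lt_trichotomy i k with h5 | h5 | h5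
      · rcases pair_ok h5 (by omega) ht (x := x0 + s • q) (hy i hi.le) (hy k hkR.le) with h6 | h6
        · exact h6
        · rw [hpK k hk] at h6
          exact absurd h6 (lt_irrefl _)
      · rw [h5, hpK k hk]
      · rcases pair_ok' h5 (by omega) ht.symm (x := x0 + s • q) (hy k hkR.le) (hy i hi.le)
          with h6 | h6
        · rw [hpK k hk] at h6
          exact absurd h6 (lt_irrefl _)
        · exact h6
    · push Not at hex
      have hc := hpos i hi hex
      rw [hsl]
      have h5 : |S.slack i x0| / |S.d i * (S.V (S.t i) ⬝ᵥ q)| ≤ s :=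
        Finset.single_le_sum (f := fun i => |S.slack i x0| / |S.d i * (S.V (S.t i) ⬝ᵥ q)|)
          (fun i _ => by positivity) (Finset.mem_range.2 hi)
      rw [abs_of_pos hc, div_le_iff₀ hc] at h5
      have := neg_abs_le (S.slack i x0)
      linarith
  · rw [hsl, hx0 R (Finset.mem_insert_self _ _), hqR]
    have : S.d R * (-1 / S.d R) = -1 := by field_simp
    rw [this]
    linarith

end Sys

end Pool.Agent.H682.CH
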