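import Pool.Graph.R_seed8.H622R3.SM.All
import Pool.Graph.R_seed8.R533.GU.Defs

set_option autoImplicit false

/-!
# Algorithms which only ask for signs of minors

A strategy proceeds in rounds. The state at the beginning of a round determines `B m n` minors; the
new state is computed from the old one and the signs of these minors.
-/

namespace Pool.Agent.H682.CH

open Pool.Agent.NPC Pool.Agent.NPC.ER Pool.Agent.NPC.H612 Pool.Agent.H558R2
open Pool.Agent.H622R3.SM

/-- The column assigned to the position `j` by the query `q` (a list of positions with columns);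
the other positions get their unit vectors. -/
def colQ (q : List (ℕ × ℕ)) (j : ℕ) : ℕ :=
  ((((q.filter fun p => decide (p.1 = j)).head?).map fun p => p.2).getD j)

/-- The description of the query as a history. -/
def enc (m n : ℕ) (q : List (ℕ × ℕ)) : List Outcome :=
  (List.range (m * (m + (n + n)))).map fun p =>
    some (decide (colQ q (p / (m + (n + n))) = p % (m + (n + n))))

/-- The list of columns of the query. -/
def betaQ (m n : ℕ) (q : List (ℕ × ℕ)) : Fin m → Option (Fin (m + (n + n))) := fun j =>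
  if h : colQ q j < m + (n + n) then some ⟨colQ q j, h⟩ else none

theorem beta_enc (m n : ℕ) (q : List (ℕ × ℕ)) : beta m n (enc m n q) 0 = betaQ m n q := by
  have h0 : enc m n q = [] ++ (((List.range (ell m n)).map
      (TENC.bitOf (m + (n + n)) (betaQ m n q))).map some ++ []) := by
    rw [List.nil_append, List.append_nil, List.map_map]
    unfold enc ell
    refine List.map_congr_left fun p hp => ?_
    rw [List.mem_range] at hp
    have hL : 0 < m + (n + n) := by
      rcases Nat.eq_zero_or_pos (m + (n + n)) with h | h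
      · rw [h, mul_zero] at hp
        omega
      · exact h
    have h1 : p / (m + (n + n)) < m := by
      rw [Nat.div_lt_iff_lt_mul hL]
      exact hp
    simp only [Function.comp]
    unfold TENC.bitOf
    rw [dif_pos h1]
    congr 1
    unfold betaQ
    have h2 : p % (m + (n + n)) < m + (n + n) := Nat.mod_lt _ hL
    by_cases h3 : colQ q (p / (m + (n + n))) < m + (n + n)
    · simp only [dif_pos h3, Option.map_some, Option.some.injEq]
    · simp only [dif_neg h3, Option.map_none]
      rw [decide_eq_false (by omega)]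
      simp
  funext j
  have hc := TENC.colOf_eq m n (betaQ m n q) [] [] 0 (by simp) j
  rw [← h0] at hc
  unfold beta
  by_cases h3 : colQ q j < m + (n + n)
  · have h4 : betaQ m n q j = some ⟨colQ q j, h3⟩ := by
      unfold betaQ
      rw [dif_pos h3]
    have h5 : colOf m n (enc m n q) 0 j = colQ q j := by
      rw [hc, h4]
      rfl
    simp only [h5, dif_pos h3, h4]
  · have h4 : betaQ m n q j = none := by
      unfold betaQ
      rw [dif_neg h3]
    have h5 : colOf m n (enc m n q) 0 j = m + (n + n) := by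
      rw [hc, h4]
      rfl
    simp only [h5, h4]
    rw [dif_neg (lt_irrefl _)]

/-- A strategy with states in `C`. -/
structure Strat (C : Type) where
  /-- initial state -/
  init : C
  /-- the minors of a round -/
  qry : ℕ → ℕ → C → ℕ → List (ℕ × ℕ)
  /-- the new state -/
  upd : ℕ → ℕ → ℕ → C → List Outcome → C
  /-- the answer -/
  fin : C → Bool
  /-- number of minors in a round -/
  B : ℕ → ℕ → ℕ
  /-- number of rounds -/
  T : ℕ → ℕ → ℕ

namespace Strat

variable {C : Type} (σ : Strat C)

/-- The outcomes of the round `i`. -/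
def chunk (m n : ℕ) (h : List Outcome) (i : ℕ) : List Outcome :=
  (List.range (σ.B m n)).map fun j => h.getD (i * σ.B m n + j) none

/-- The state after `k` rounds, as a function of the history. -/
def st (m n : ℕ) (h : List Outcome) (k : ℕ) : C :=
  (List.range k).foldl (fun c i => σ.upd m n i c (σ.chunk m n h i)) σ.init

/-- The algorithm of a strategy. -/
def alg : Alg := fun m n h =>
  if h.length < σ.T m n * σ.B m n then
    (minorProg m n (enc m n (σ.qry m n (σ.st m n h (min (h.length / σ.B m n) (σ.T m n)))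
      (h.length % σ.B m n))) 0, Test.sign [11])
  else ([], Test.answer (σ.fin (σ.st m n h (min (h.length / σ.B m n) (σ.T m n)))))

/-- The true outcome of a query. -/
noncomputable def tr {m n : ℕ} (a : Inp m n) (q : List (ℕ × ℕ)) : Outcome :=
  signOut (dd (wmat a.1 a.2) (betaQ m n q))

/-- The true state after `k` rounds. -/
noncomputable def tst {m n : ℕ} (a : Inp m n) : ℕ → C
  | 0 => σ.init
  | k + 1 => σ.upd m n k (tst a k)
      ((List.range (σ.B m n)).map fun j => tr a (σ.qry m n (tst a k) j))

theorem st_succ (m n : ℕ) (h : List Outcome) (k : ℕ) :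
    σ.st m n h (k + 1) = σ.upd m n k (σ.st m n h k) (σ.chunk m n h k) := by
  rw [st, List.range_succ, List.foldl_append]
  rfl

/-- The outcomes in the history are true. -/
def Good {m n : ℕ} (a : Inp m n) (h : List Outcome) : Prop :=
  ∀ j < h.length, h.getD j none = tr a (σ.qry m n (σ.tst a (j / σ.B m n)) (j % σ.B m n))

variable {σ}

theorem st_eq {m n : ℕ} (hB : 0 < σ.B m n) {a : Inp m n} {h : List Outcome} (hg : σ.Good a h) :
    ∀ k, k * σ.B m n ≤ h.length → σ.st m n h k = σ.tst a k
  | 0, _ => rfl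
  | k + 1, hk => by
    have h1 : k * σ.B m n ≤ h.length := by
      refine le_trans ?_ hk
      exact Nat.mul_le_mul_right _ (Nat.le_succ k)
    rw [st_succ, st_eq hB hg k h1, tst]
    congr 1
    unfold chunk
    refine List.map_congr_left fun j hj => ?_
    rw [List.mem_range] at hj
    have h2 : k * σ.B m n + j < h.length := by
      rw [Nat.succ_mul] at hk
      omega
    rw [hg _ h2]
    have h3 : (k * σ.B m n + j) / σ.B m n = k := by
      rw [mul_comm, Nat.mul_add_div hB, Nat.div_eq_of_lt hj, add_zero]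
    have h4 : (k * σ.B m n + j) % σ.B m n = j := by
      rw [mul_comm, Nat.mul_add_mod, Nat.mod_eq_of_lt hj]
    rw [h3, h4]

theorem good_append {m n : ℕ} {a : Inp m n} {h : List Outcome} (hg : σ.Good a h) {o : Outcome}
    (ho : o = tr a (σ.qry m n (σ.tst a (h.length / σ.B m n)) (h.length % σ.B m n))) :
    σ.Good a (h ++ [o]) := by
  intro j hj
  rw [List.length_append, List.length_singleton] at hj
  rcases Nat.lt_succ_iff_lt_or_eq.1 hj with hj | rfl
  · rw [List.getD_append _ _ _ _ hj]
    exact hg j hj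
  · rw [List.getD_append_right _ _ _ _ le_rfl, Nat.sub_self]
    exact ho

theorem run_alg {m n : ℕ} (hm : 1 ≤ m) (hB : 0 < σ.B m n) (a : Inp m n) :
    ∀ (r : ℕ) (h : List Outcome) (k : ℕ) (ρ : Reg → ℝ), h.length + r = σ.T m n * σ.B m n →
      r + 1 ≤ k → σ.Good a h → (∀ x ∈ baseReg, ρ x = start a.1 a.2 x) →
      ∃ nums steps, run ∅ (σ.alg m n) k h ρ = some (σ.fin (σ.tst a (σ.T m n)), nums, steps) ∧
        steps ≤ r * (12 * m ^ 4 + 1) ∧ ∀ v ∈ nums, ∃ (q : List (ℕ × ℕ)) (I : Instr),
          I ∈ minorProg m n (enc m n q) 0 ∧ v = vreg m n (enc m n q) 0 a I.dst := by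
  intro r
  induction r with
  | zero =>
    intro h k ρ hlen hk hg _
    obtain ⟨k, rfl⟩ : ∃ k', k = k' + 1 := ⟨k - 1, by omega⟩
    have h1 : h.length = σ.T m n * σ.B m n := by omega
    have h2 : min (h.length / σ.B m n) (σ.T m n) = σ.T m n := by
      rw [h1, Nat.mul_div_cancel _ hB, min_self]
    have hα : σ.alg m n h = ([], Test.answer (σ.fin (σ.tst a (σ.T m n)))) := by
      unfold alg
      rw [if_neg (by omega), h2, st_eq hB hg _ h1.ge]
    refine ⟨[], 0, TRUN.run_answer _ _ _ _ _ _ hα, by omega, by simp⟩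
  | succ r ih =>
    intro h k ρ hlen hk hg hρ
    obtain ⟨k, rfl⟩ : ∃ k', k = k' + 1 := ⟨k - 1, by omega⟩
    have h1 : h.length < σ.T m n * σ.B m n := by omega
    have h3 : h.length / σ.B m n < σ.T m n := by
      rw [Nat.div_lt_iff_lt_mul hB]
      exact h1
    have h2 : min (h.length / σ.B m n) (σ.T m n) = h.length / σ.B m n := min_eq_left h3.le
    set q := σ.qry m n (σ.tst a (h.length / σ.B m n)) (h.length % σ.B m n) with hq
    have hα : σ.alg m n h = (minorProg m n (enc m n q) 0, Test.sign [11]) := by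
      unfold alg
      rw [if_pos h1, h2, st_eq hB hg _ (Nat.div_mul_le_self _ _)]
    obtain ⟨ρ', hex, hb, h11⟩ := h_MINOR m n (enc m n q) 0 a ρ hm hρ
    rw [beta_enc] at h11
    have hout : signOut (ρ' [11]) = tr a q := by
      rw [h11]
      rfl
    obtain ⟨nums, steps, h4, h5, h6⟩ := ih (h ++ [signOut (ρ' [11])]) k ρ'
      (by rw [List.length_append, List.length_singleton]; omega) (by omega)
      (good_append hg (by rw [hout])) hb
    refine ⟨_, _, TRUN.run_sign _ _ _ _ _ _ _ _ _ hα hex _ _ _ h4, ?_, ?_⟩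
    · have h7 := t_LEN m n (enc m n q) 0 hm
      rw [List.length_map, Nat.succ_mul]
      omega
    · intro v hv
      rw [List.mem_append] at hv
      rcases hv with hv | hv
      · rw [List.mem_map] at hv
        obtain ⟨I, hI, rfl⟩ := hv
        exact ⟨q, I, hI, rfl⟩
      · exact h6 v hv

/-- A strategy which is correct on a class gives an algorithm which decides the class. -/
theorem decidesOn {K : ∀ m n : ℕ, Matrix (Fin m) (Fin n) ℝ → (Fin m → ℝ) → Prop}
    (p : Polynomial ℕ) (hp : ∀ m n, 1 ≤ m → 1 ≤ n → σ.T m n * σ.B m n ≤ p.eval (m + n))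
    (hB : ∀ m n, 1 ≤ m → 0 < σ.B m n)
    (hfin : ∀ m n : ℕ, 1 ≤ m → 1 ≤ n → ∀ (A : Matrix (Fin m) (Fin n) ℝ) (b : Fin m → ℝ),
      K m n A b → (σ.fin (σ.tst (A, b) (σ.T m n)) = true ↔ ∃ x : Fin n → ℝ, b ≤ A.mulVec x)) :
    Pool.Agent.R533.GU.DecidesOn ∅ K σ.alg := by
  refine ⟨p * (12 * Polynomial.X ^ 4 + 1) + 1 + 30 * Polynomial.X ^ 2, fun m n hm hn A b hK => ?_⟩
  have e1 : ∀ x : ℕ, (p * (12 * Polynomial.X ^ 4 + 1) + 1 + 30 * Polynomial.X ^ 2).eval x =
      p.eval x * (12 * x ^ 4 + 1) + 1 + 30 * x ^ 2 := by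
    intro x
    simp [Polynomial.eval_add, Polynomial.eval_mul]
  have h1 := hp m n hm hn
  have h2 : σ.T m n * σ.B m n * (12 * m ^ 4 + 1) ≤ p.eval (m + n) * (12 * (m + n) ^ 4 + 1) := by
    refine Nat.mul_le_mul h1 ?_
    have : m ^ 4 ≤ (m + n) ^ 4 := Nat.pow_le_pow_left (by omega) 4
    omega
  have h3 : p.eval (m + n) ≤ p.eval (m + n) * (12 * (m + n) ^ 4 + 1) := Nat.le_mul_of_pos_right _
    (by omega)
  obtain ⟨nums, steps, h4, h5, h6⟩ := run_alg (σ := σ) hm (hB m n hm) (A, b)
    (σ.T m n * σ.B m n) [] ((p * (12 * Polynomial.X ^ 4 + 1) + 1 + 30 * Polynomial.X ^ 2).eval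
      (m + n)) (start A b) (by simp) (by rw [e1]; omega) (by intro j hj; simp at hj)
    (fun _ _ => rfl)
  refine ⟨_, nums, steps, h4, hfin m n hm hn A b hK, by rw [e1]; omega, ?_⟩
  intro A' b' hA hb v hv
  obtain ⟨q, I, hI, rfl⟩ := h6 v hv
  obtain ⟨r, hr1, hr2⟩ := t_SMALL m n (enc m n q) 0 A' b' hm I hI
  have hAb : ((fun i j => ((A' i j : ℚ) : ℝ), fun i => ((b' i : ℚ) : ℝ)) : Inp m n) = (A, b) := by
    refine Prod.ext ?_ ?_
    · funext i j
      exact hA i j
    · funext i
      exact hb i
  rw [hAb] at hr1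
  refine ⟨r, hr1, ?_⟩
  rw [e1]
  omega

end Strat

end Pool.Agent.H682.CH
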