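import Pool.Agent.H682.CH.Machine

set_option autoImplicit false

/-!
# The control of a strategy is computed in polynomial time
-/

namespace Pool.Agent.H682.CH

open Pool.Agent.NPC Pool.Agent.NPC.ER Pool.Agent.NPC.H612 Pool.Agent.H558R2
open Pool.Agent.H622R3.SM

attribute [local fun_prop] Poly.range_length

variable {α : Type} [TEnc α]

theorem pColQ {q : α → List (ℕ × ℕ)} {j : α → ℕ} (hq : Poly q) (hj : Poly j) :
    Poly (fun a => colQ (q a) (j a)) := by
  unfold colQ
  refine Poly.optGetD (Poly.optMap_fp (Poly.head? (Poly.filter hq ?_)) ?_) hj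
  · fun_prop
  · fun_prop

theorem pEnc {U V : α → List Unit} {q : α → List (ℕ × ℕ)} (hU : Poly U) (hV : Poly V)
    (hq : Poly q) : Poly (fun a => enc (U a).length (V a).length (q a)) := by
  unfold enc
  have hu : UPoly (fun a => (U a).length * ((U a).length + ((V a).length + (V a).length))) :=
    UPoly.mul (UPoly.length hU) (UPoly.add (UPoly.length hU)
      (UPoly.add (UPoly.length hV) (UPoly.length hV)))
  refine NPC.Poly.map hu.range ?_
  refine Poly.some ?_
  refine Poly.decide_eq (pColQ ?_ ?_) ?_
  · fun_prop
  · fun_prop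
  · fun_prop

namespace Strat

variable {C : Type} [TEnc C] (σ : Strat C)

/-- Everything is computed in polynomial time. -/
structure IsPoly : Prop where
  /-- the queries -/
  qry : Poly (fun x : ((List Unit × List Unit) × C) × ℕ =>
    σ.qry x.1.1.1.length x.1.1.2.length x.1.2 x.2)
  /-- the update -/
  upd : Poly (fun x : ((List Unit × List Unit) × ℕ) × (C × List Outcome) =>
    σ.upd x.1.1.1.length x.1.1.2.length x.1.2 x.2.1 x.2.2)
  /-- the answer -/
  fin : Poly σ.fin
  /-- number of minors of a round -/
  B : UPoly (fun u : List Unit × List Unit => σ.B u.1.length u.2.length)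
  /-- number of rounds -/
  T : UPoly (fun u : List Unit × List Unit => σ.T u.1.length u.2.length)
  /-- the size of the states -/
  size : ∃ q : Polynomial ℕ, ∀ m n h k, k ≤ σ.T m n → sz (σ.st m n h k) ≤ q.eval (m + n)

variable {σ}

theorem polyControl (h : σ.IsPoly) : PolyControl σ.alg := by
  refine t_COMP _ _ _ ?_
  have hB : UPoly (fun p : HistIn => σ.B p.1.1.length p.1.2.length) :=
    h.B.comp (f := fun p : HistIn => p.1) (Poly.fst Poly.id)
  have hT : UPoly (fun p : HistIn => σ.T p.1.1.length p.1.2.length) :=
    h.T.comp (f := fun p : HistIn => p.1) (Poly.fst Poly.id)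
  have hlen : UPoly (fun p : HistIn => p.2.length) := UPoly.length (Poly.snd Poly.id)
  have hdiv : Poly (fun p : HistIn => p.2.length / σ.B p.1.1.length p.1.2.length) :=
    Poly.div hlen.toPoly hB.toPoly
  have hmod : Poly (fun p : HistIn => p.2.length % σ.B p.1.1.length p.1.2.length) :=
    Poly.mod hlen.toPoly hB.toPoly
  have hmin : UPoly (fun p : HistIn =>
      min (p.2.length / σ.B p.1.1.length p.1.2.length) (σ.T p.1.1.length p.1.2.length)) :=
    UPoly.of_le (Poly.min hdiv hT.toPoly) hT fun a => min_le_right _ _
  -- the states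
  have hchunk : Poly (fun x : HistIn × ℕ => σ.chunk x.1.1.1.length x.1.1.2.length x.1.2 x.2) := by
    unfold chunk
    have hB' : UPoly (fun x : HistIn × ℕ => σ.B x.1.1.1.length x.1.1.2.length) :=
      hB.comp (f := fun x : HistIn × ℕ => x.1) (Poly.fst Poly.id)
    refine NPC.Poly.map hB'.range ?_
    refine Poly.getD ?_ ?_ ?_
    · fun_prop
    · refine Poly.add (Poly.mul ?_ ?_) ?_
      · fun_prop
      · exact hB'.toPoly.comp (f := fun p : (HistIn × ℕ) × ℕ => p.1) (Poly.fst Poly.id)
      · fun_prop
    · exact NPC.Poly.const none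
  have hst : Poly (fun p : HistIn => σ.st p.1.1.length p.1.2.length p.2
      (min (p.2.length / σ.B p.1.1.length p.1.2.length) (σ.T p.1.1.length p.1.2.length))) := by
    obtain ⟨q, hq⟩ := h.size
    unfold st
    refine Poly.foldl (F := fun (p : HistIn) c i => σ.upd p.1.1.length p.1.2.length i c
      (σ.chunk p.1.1.length p.1.2.length p.2 i)) hmin.range (NPC.Poly.const _) ?_ q ?_
    · have h1 : Poly (fun x : HistIn × C × ℕ => (((x.1.1, x.2.2),
          (x.2.1, σ.chunk x.1.1.1.length x.1.1.2.length x.1.2 x.2.2)) :
            ((List Unit × List Unit) × ℕ) × (C × List Outcome))) := by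
        refine Poly.pair (Poly.pair ?_ ?_) (Poly.pair ?_ ?_)
        · fun_prop
        · fun_prop
        · fun_prop
        · exact hchunk.comp (f := fun x : HistIn × C × ℕ => (x.1, x.2.2)) (by fun_prop)
      exact h.upd.comp h1
    · intro p k hk
      rw [List.length_range] at hk
      have h2 : (List.range (min (p.2.length / σ.B p.1.1.length p.1.2.length)
          (σ.T p.1.1.length p.1.2.length))).take k = List.range k := by
        rw [List.take_range, min_eq_left hk]
      rw [h2]
      refine (hq p.1.1.length p.1.2.length p.2 k (hk.trans (min_le_right _ _))).trans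
        (eval_mono q ?_)
      have h3 := length_lt_sz p.1.1
      have h4 := length_lt_sz p.1.2
      have h5 : sz p = sz p.1 + sz p.2 + 1 := by rw [← sz_pair]
      have h6 : sz p.1 = sz p.1.1 + sz p.1.2 + 1 := by rw [← sz_pair]
      omega
  have hqry : Poly (fun p : HistIn => σ.qry p.1.1.length p.1.2.length
      (σ.st p.1.1.length p.1.2.length p.2
      (min (p.2.length / σ.B p.1.1.length p.1.2.length) (σ.T p.1.1.length p.1.2.length)))
      (p.2.length % σ.B p.1.1.length p.1.2.length)) :=
    h.qry.comp (f := fun p : HistIn => ((p.1, σ.st p.1.1.length p.1.2.length p.2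
      (min (p.2.length / σ.B p.1.1.length p.1.2.length) (σ.T p.1.1.length p.1.2.length))),
      p.2.length % σ.B p.1.1.length p.1.2.length))
      (Poly.pair (Poly.pair (Poly.fst Poly.id) hst) hmod)
  unfold alg
  refine Poly.ite (Poly.decide_lt hlen.toPoly (UPoly.mul hT hB).toPoly) ?_ ?_
  · refine Poly.pair ?_ (TPC.poly_sign (NPC.Poly.const [11]))
    exact TPM.pMinorProg (U := fun p : HistIn => p.1.1) (V := fun p => p.1.2)
      (h := fun p => enc p.1.1.length p.1.2.length (σ.qry p.1.1.length p.1.2.length
      (σ.st p.1.1.length p.1.2.length p.2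
      (min (p.2.length / σ.B p.1.1.length p.1.2.length) (σ.T p.1.1.length p.1.2.length)))
      (p.2.length % σ.B p.1.1.length p.1.2.length))) (q := fun _ => 0)
      (by fun_prop) (by fun_prop)
      (pEnc (U := fun p : HistIn => p.1.1) (V := fun p => p.1.2) (by fun_prop) (by fun_prop) hqry)
      (NPC.Poly.const 0)
  · exact Poly.pair (NPC.Poly.const []) (TPC.poly_answer (h.fin.comp hst))

omit [TEnc C] in
theorem oracleFree : OracleFree σ.alg := by
  intro m n h w
  unfold alg
  split_ifs <;> simp

end Strat

end Pool.Agent.H682.CH
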