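import Pool.Agent.H682.CH.Alt

set_option autoImplicit false

/-!
# The exchange step
-/

namespace Pool.Agent.H682.CH

open Matrix

theorem rk_insert {J : Finset ℕ} {i : ℕ} (h : i ∉ J) (j : ℕ) :
    rk (insert i J) j = rk J j + if j < i then 1 else 0 := by
  unfold rk
  rw [Finset.filter_insert]
  split_ifs with h1
  · rw [Finset.card_insert_of_notMem]
    simp [h]
  · rfl

theorem rk_erase {J : Finset ℕ} {l : ℕ} (h : l ∈ J) (j : ℕ) :
    rk (J.erase l) j + (if j < l then 1 else 0) = rk J j := by
  have h1 := rk_insert (Finset.notMem_erase l J) j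
  rw [Finset.insert_erase h] at h1
  exact h1.symm

theorem rk_top {K : Finset ℕ} {R : ℕ} (hR : ∀ k ∈ K, k < R) : rk K R = 0 := by
  unfold rk
  rw [Finset.card_eq_zero, Finset.filter_eq_empty_iff]
  intro k hk
  have := hR k hk
  omega

namespace Sys

variable {n : ℕ} {S : Sys n}

theorem Dist.insert_iff {J : Finset ℕ} {i : ℕ} :
    S.Dist (insert i J) ↔ S.Dist J ∧ i < S.m ∧ ∀ j ∈ J, (j < i → S.t j < S.t i) ∧
      (i < j → S.t i < S.t j) := by
  constructor
  · intro h
    refine ⟨h.subset (Finset.subset_insert _ _), h.1 i (Finset.mem_insert_self _ _), fun j hj => ?_⟩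
    exact ⟨h.2 j (Finset.mem_insert_of_mem hj) i (Finset.mem_insert_self _ _),
      h.2 i (Finset.mem_insert_self _ _) j (Finset.mem_insert_of_mem hj)⟩
  · rintro ⟨h1, h2, h3⟩
    refine ⟨fun j hj => ?_, fun a ha c hc hac => ?_⟩
    · rcases Finset.mem_insert.1 hj with rfl | hj
      · exact h2
      · exact h1.1 j hj
    · rcases Finset.mem_insert.1 ha with ha1 | ha1
      · rcases Finset.mem_insert.1 hc with hc1 | hc1
        · omega
        · subst ha1
          exact (h3 c hc1).2 hac
      · rcases Finset.mem_insert.1 hc with hc1 | hc1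
        · subst hc1
          exact (h3 a ha1).1 hac
        · exact h1.2 a ha1 c hc1 hac

/-- The sign of a function with `n - 1` zeros. -/
theorem zero_sign {K : Finset ℕ} {i R : ℕ} (hD : S.Dist (insert i (insert R K))) (hi : i ∉ K)
    (hR : ∀ k ∈ K, k < R) (hiR : i < R) (hc : K.card + 1 = n) {z : Fin n → ℝ}
    (hz : ∀ k ∈ K, S.V (S.t k) ⬝ᵥ z = 0) (hzR : S.V (S.t R) ⬝ᵥ z ≠ 0) :
    0 < (-1) ^ rk K i * (S.V (S.t i) ⬝ᵥ z) * (S.V (S.t R) ⬝ᵥ z) := by
  by_contra hcon
  push Not at hcon
  have hRK : R ∉ K := fun h => lt_irrefl _ (hR R h)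
  have hiJ : i ∉ insert R K := by
    rw [Finset.mem_insert]
    rintro (h | h)
    · omega
    · exact hi h
  have hcard : (insert i (insert R K)).card = n + 1 := by
    rw [Finset.card_insert_of_notMem hiJ, Finset.card_insert_of_notMem hRK]
    omega
  have h0 : z = 0 := by
    refine altJ hD hcard hzR fun j hj => ?_
    rcases Finset.mem_insert.1 hj with rfl | hj
    · rw [rk_insert hiJ, rk_insert hRK, if_pos hiR, if_neg (lt_irrefl _), add_zero, pow_succ]
      linarith
    · rcases Finset.mem_insert.1 hj with rfl | hj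
      · rw [rk_insert hiJ, rk_insert hRK, if_neg (lt_irrefl _), if_neg (by omega), rk_top hR]
        simp only [add_zero, pow_zero, mul_one]
        exact mul_self_nonneg _
      · rw [hz j hj, mul_zero]
  rw [h0, dotProduct_zero] at hzR
  exact hzR rfl

/-- A row at the point of another row of different sign: no contradiction. -/
theorem pair_ok {i j : ℕ} (hij : i < j) (hj : j < S.m) (ht : S.t i = S.t j) {x y : Fin n → ℝ}
    (hi1 : 0 ≤ S.slack i y) (hj1 : 0 ≤ S.slack j y) :
    0 ≤ S.slack i x ∨ 0 < S.slack j x := by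
  by_contra hcon
  push Not at hcon
  have h1 := S.slack_sub i y x
  have h2 := S.slack_sub j y x
  have h3 := S.pair i j hij hj ht
  rw [ht] at h1
  set v := S.V (S.t j) ⬝ᵥ (y - x) with hv
  have h4 : 0 < S.d i * v := by rw [← h1]; linarith
  have h5 : 0 ≤ S.d j * v := by rw [← h2]; linarith
  have h6 : 0 ≤ (S.d i * v) * (S.d j * v) := mul_nonneg h4.le h5
  have hv0 : v ≠ 0 := by
    rintro h0
    rw [h0, mul_zero] at h4
    exact lt_irrefl _ h4
  have h7 : 0 < v ^ 2 := by positivity
  nlinarith

theorem pair_ok' {i j : ℕ} (hij : i < j) (hj : j < S.m) (ht : S.t i = S.t j) {x y : Fin n → ℝ}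
    (hi1 : 0 ≤ S.slack i y) (hj1 : 0 ≤ S.slack j y) :
    0 < S.slack i x ∨ 0 ≤ S.slack j x := by
  by_contra hcon
  push Not at hcon
  have h1 := S.slack_sub i y x
  have h2 := S.slack_sub j y x
  have h3 := S.pair i j hij hj ht
  rw [ht] at h1
  set v := S.V (S.t j) ⬝ᵥ (y - x) with hv
  have h4 : 0 ≤ S.d i * v := by rw [← h1]; linarith
  have h5 : 0 < S.d j * v := by rw [← h2]; linarith
  have h6 : 0 ≤ (S.d i * v) * (S.d j * v) := mul_nonneg h4 h5.le
  have hv0 : v ≠ 0 := by
    rintro h0
    rw [h0, mul_zero] at h5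
    exact lt_irrefl _ h5
  have h7 : 0 < v ^ 2 := by positivity
  nlinarith

/-- The state of the exchange loop for the row `R` of the type `ρ`. -/
structure Work (S : Sys n) (ρ : ℝ) (R : ℕ) (K : Finset ℕ) : Prop where
  /-- number of contacts -/
  card : K.card + 1 = n
  /-- contacts are before `R` -/
  lt : ∀ k ∈ K, k < R
  /-- different points -/
  dist : S.Dist (insert R K)
  /-- alternation -/
  alt : S.Alt (-ρ) K
  /-- a point which satisfies the rows before `R` -/
  pt : ∃ p : Fin n → ℝ, (∀ k ∈ K, S.slack k p = 0) ∧ (∀ i < R, 0 ≤ S.slack i p) ∧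
    S.slack R p ≤ 0

namespace Work

variable {ρ : ℝ} {R : ℕ} {K : Finset ℕ}

theorem notMem (h : S.Work ρ R K) : R ∉ K := fun hk => lt_irrefl _ (h.lt R hk)

theorem card_insert (h : S.Work ρ R K) : (insert R K).card = n := by
  rw [Finset.card_insert_of_notMem h.notMem]
  exact h.card

/-- What is known about a violated row `i`. -/
theorem violated (h : S.Work ρ R K) (hR : R < S.m) {y p : Fin n → ℝ}
    (hy : ∀ i ≤ R, 0 ≤ S.slack i y) (hp : ∀ j ∈ insert R K, S.slack j p = 0)
    {i : ℕ} (hi : i < R) (hneg : S.slack i p < 0) :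
    i ∉ K ∧ S.Dist (insert i (insert R K)) ∧ ∃ q : Fin n → ℝ,
      (∀ j ∈ insert i K, S.slack j q = 0) ∧ S.slack R q ≤ 0 := by
  obtain ⟨p0, h1, h2, h3⟩ := h.pt
  have hiK : i ∉ K := by
    intro hk
    rw [hp i (Finset.mem_insert_of_mem hk)] at hneg
    exact lt_irrefl _ hneg
  have hne : ∀ k ∈ K, S.t i ≠ S.t k := by
    intro k hk ht
    have e1 := S.slack_sub i p p0
    have e2 := S.slack_sub k p p0
    rw [hp k (Finset.mem_insert_of_mem hk), h1 k hk, sub_self] at e2
    have e3 := (mul_eq_zero.1 e2.symm).resolve_left (S.d_ne k (by have := h.lt k hk; omega))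
    rw [ht, e3, mul_zero] at e1
    have := h2 i hi
    linarith
  have hneR : S.t i ≠ S.t R := by
    intro ht
    rcases pair_ok hi hR ht (x := p) (hy i hi.le) (hy R le_rfl) with h4 | h4
    · linarith
    · rw [hp R (Finset.mem_insert_self _ _)] at h4
      exact lt_irrefl _ h4
  refine ⟨hiK, ?_, ?_⟩
  · rw [Dist.insert_iff]
    refine ⟨h.dist, by omega, fun j hj => ?_⟩
    rcases Finset.mem_insert.1 hj with rfl | hj
    · refine ⟨fun h5 => by omega, fun _ => ?_⟩
      exact lt_of_le_of_ne (S.t_mono i j hi.le hR) hneR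
    · refine ⟨fun h5 => ?_, fun h5 => ?_⟩
      · exact lt_of_le_of_ne (S.t_mono j i h5.le (by omega)) (hne j hj).symm
      · exact lt_of_le_of_ne (S.t_mono i j h5.le (by have := h.lt j hj; omega)) (hne j hj)
  · set u := S.slack i p with hu
    set v := S.slack i p0 with hv
    have hv0 : 0 ≤ v := h2 i hi
    have huv : 0 < v - u := by linarith
    set lam := -u / (v - u) with hlam
    have hl0 : 0 ≤ lam := div_nonneg (by linarith) huv.le
    have key : ∀ j, S.slack j (p + lam • (p0 - p)) =
        S.slack j p + lam * (S.slack j p0 - S.slack j p) := by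
      intro j
      rw [S.slack_sub j p0 p]
      simp only [slack, dotProduct_add, dotProduct_smul, smul_eq_mul]
      ring
    refine ⟨p + lam • (p0 - p), fun j hj => ?_, ?_⟩
    · rw [key]
      rcases Finset.mem_insert.1 hj with rfl | hj
      · rw [← hu, ← hv, hlam]
        field_simp
        ring
      · rw [hp j (Finset.mem_insert_of_mem hj), h1 j hj]
        ring
    · rw [key, hp R (Finset.mem_insert_self _ _)]
      have : lam * S.slack R p0 ≤ 0 := mul_nonpos_of_nonneg_of_nonpos hl0 h3
      linarith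

/-- If the point is not admissible, there is a good violated row. -/
theorem exists_violated (h : S.Work ρ R K) {p : Fin n → ℝ}
    (hp : ∀ j ∈ insert R K, S.slack j p = 0) (hbad : ¬ ∀ i < R, 0 ≤ S.slack i p) :
    ∃ i < R, S.slack i p < 0 ∧ ∃ q : Fin n → ℝ, (∀ j ∈ insert i K, S.slack j q = 0) ∧
      ∀ i' < R, 0 ≤ S.slack i' q := by
  obtain ⟨p0, h1, h2, h3⟩ := h.pt
  push Not at hbad
  set B := (Finset.range R).filter fun i => S.slack i p < 0 with hB
  have hBne : B.Nonempty := by
    obtain ⟨i, hi, hi'⟩ := hbad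
    exact ⟨i, by simp [hB, hi, hi']⟩
  -- the largest ratio
  obtain ⟨i, hiB, hmax⟩ := B.exists_max_image
    (fun i => -S.slack i p / (S.slack i p0 - S.slack i p)) hBne
  simp only [hB, Finset.mem_filter, Finset.mem_range] at hiB
  obtain ⟨hi, hneg⟩ := hiB
  set lam := -S.slack i p / (S.slack i p0 - S.slack i p) with hlam
  have hv0 : 0 ≤ S.slack i p0 := h2 i hi
  have huv : 0 < S.slack i p0 - S.slack i p := by linarith
  have hl0 : 0 ≤ lam := div_nonneg (by linarith) huv.le
  have hl1 : lam ≤ 1 := by
    rw [hlam, div_le_one huv]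
    linarith
  have key : ∀ j, S.slack j (p + lam • (p0 - p)) =
      S.slack j p + lam * (S.slack j p0 - S.slack j p) := by
    intro j
    rw [S.slack_sub j p0 p]
    simp only [slack, dotProduct_add, dotProduct_smul, smul_eq_mul]
    ring
  refine ⟨i, hi, hneg, p + lam • (p0 - p), fun j hj => ?_, fun j hj => ?_⟩
  · rw [key]
    rcases Finset.mem_insert.1 hj with rfl | hj
    · rw [hlam]
      field_simp
      ring
    · rw [hp j (Finset.mem_insert_of_mem hj), h1 j hj]
      ring
  · rw [key]
    rcases lt_or_ge (S.slack j p) 0 with h4 | h4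
    · have h5 := hmax j (by simp [hB, hj, h4])
      have h6 : 0 ≤ S.slack j p0 := h2 j hj
      have h7 : 0 < S.slack j p0 - S.slack j p := by linarith
      have h8 : -S.slack j p ≤ lam * (S.slack j p0 - S.slack j p) := by
        rwa [div_le_iff₀ h7] at h5
      linarith
    · have h6 : 0 ≤ S.slack j p0 := h2 j hj
      nlinarith

/-- The exchange step. -/
theorem exchange (h : S.Work ρ R K) (hρ : ρ ≠ 0) (hR : R < S.m) (hd : 0 < ρ * S.d R)
    {y p q : Fin n → ℝ}
    (hy : ∀ i ≤ R, 0 ≤ S.slack i y) (hp : ∀ j ∈ insert R K, S.slack j p = 0)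
    {i : ℕ} (hi : i < R) (hneg : S.slack i p < 0)
    (hq : ∀ j ∈ insert i K, S.slack j q = 0) (hqf : ∀ i' < R, 0 ≤ S.slack i' q) :
    ∃ l ∈ K, l < i ∧ (∀ k ∈ K, k < i → k ≤ l) ∧ S.Work ρ R (insert i (K.erase l)) := by
  obtain ⟨hiK, hD, q', hq', hqR⟩ := h.violated hR hy hp hi hneg
  have hDi : S.Dist (insert i K) :=
    hD.subset (Finset.insert_subset_insert _ (Finset.subset_insert _ _))
  have hci : (insert i K).card = n := by
    rw [Finset.card_insert_of_notMem hiK]
    exact h.card
  have hqq : q = q' := tight_unique hDi hci fun j hj => by rw [hq j hj, hq' j hj]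
  subst hqq
  obtain ⟨p0, h1, h2, h3⟩ := h.pt
  -- the sign of the factor of the row `i`
  have hzK : ∀ k ∈ K, S.V (S.t k) ⬝ᵥ (p - p0) = 0 := by
    intro k hk
    have e2 := S.slack_sub k p p0
    rw [hp k (Finset.mem_insert_of_mem hk), h1 k hk, sub_self] at e2
    exact (mul_eq_zero.1 e2.symm).resolve_left (S.d_ne k (by have := h.lt k hk; omega))
  have hzi : S.d i * (S.V (S.t i) ⬝ᵥ (p - p0)) < 0 := by
    rw [← S.slack_sub]
    have := h2 i hi
    linarith
  have hzR0 : 0 ≤ S.d R * (S.V (S.t R) ⬝ᵥ (p - p0)) := by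
    rw [← S.slack_sub, hp R (Finset.mem_insert_self _ _)]
    linarith
  have hzRne : S.V (S.t R) ⬝ᵥ (p - p0) ≠ 0 := by
    intro h0
    have h4 : p - p0 = 0 := by
      refine eq_of_n h.dist h.card_insert fun j hj => ?_
      rcases Finset.mem_insert.1 hj with rfl | hj
      · exact h0
      · exact hzK j hj
    rw [h4, dotProduct_zero, mul_zero] at hzi
    exact lt_irrefl _ hzi
  have hsign := zero_sign hD hiK h.lt hi h.card hzK hzRne
  have hdR := S.d_ne R hR
  have hzRpos : 0 < S.d R * (S.V (S.t R) ⬝ᵥ (p - p0)) :=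
    lt_of_le_of_ne hzR0 (mul_ne_zero hdR hzRne).symm
  have hdi : 0 < -ρ * (-1) ^ rk K i * S.d i := by
    set vi := S.V (S.t i) ⬝ᵥ (p - p0) with hvi
    set vR := S.V (S.t R) ⬝ᵥ (p - p0) with hvR
    have e1 : 0 < ((-1) ^ rk K i * vi * vR) * (-(S.d i * vi)) := mul_pos hsign (by linarith)
    have e2 : 0 < (((-1) ^ rk K i * vi * vR) * (-(S.d i * vi))) *
        ((ρ * S.d R) * (S.d R * vR)) := mul_pos e1 (mul_pos hd hzRpos)
    have e3 : (((-1) ^ rk K i * vi * vR) * (-(S.d i * vi))) * ((ρ * S.d R) * (S.d R * vR)) =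
        (-ρ * (-1) ^ rk K i * S.d i) * ((vi * vR * S.d R) ^ 2) := by ring
    rw [e3] at e2
    exact pos_of_mul_pos_left e2 (by positivity)
  -- the left neighbour
  have hex : ∃ k ∈ K, k < i := by
    by_contra hcon
    push Not at hcon
    have hRK := h.notMem
    have hiJ : i ∉ insert R K := by
      rw [Finset.mem_insert]
      rintro (h5 | h5)
      · omega
      · exact hiK h5
    have hcard : (insert i (insert R K)).card = n + 1 := by
      rw [Finset.card_insert_of_notMem hiJ, h.card_insert]
    have hrk : rk K i + 1 = n := by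
      have h6 : K.filter (fun j => i < j) = K := by
        rw [Finset.filter_eq_self]
        intro k hk
        have := hcon k hk
        exact lt_of_le_of_ne this fun h7 => hiK (h7 ▸ hk)
      rw [rk, h6]
      exact h.card
    have hAJ : S.Alt ρ (insert i (insert R K)) := by
      intro j hj
      rcases Finset.mem_insert.1 hj with rfl | hj
      · rw [rk_insert hiJ, rk_insert hRK, if_pos hi, if_neg (lt_irrefl _), add_zero, pow_succ]
        have : ρ * ((-1) ^ rk K j * -1) * S.d j = -ρ * (-1) ^ rk K j * S.d j := by ring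
        rw [this]
        exact hdi
      · rcases Finset.mem_insert.1 hj with rfl | hj
        · rw [rk_insert hiJ, rk_insert hRK, if_neg (lt_irrefl _), if_neg (by omega),
            rk_top h.lt]
          simpa using hd
        · have h8 := h.alt j hj
          have h9 := hcon j hj
          rw [rk_insert hiJ, rk_insert hRK, if_pos (h.lt j hj), if_neg (by omega), add_zero,
            pow_succ]
          have : ρ * ((-1) ^ rk K j * -1) * S.d j = -ρ * (-1) ^ rk K j * S.d j := by ring
          rw [this]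
          exact h8
    have h10 : p = y := by
      refine cmp hD hcard hρ hAJ fun j hj => ?_
      rcases Finset.mem_insert.1 hj with rfl | hj
      · have := hy j hi.le
        linarith
      · rw [hp j hj]
        rcases Finset.mem_insert.1 hj with rfl | hj
        · exact hy j le_rfl
        · exact hy j (h.lt j hj).le
    rw [h10] at hneg
    have := hy i hi.le
    linarith
  obtain ⟨l, hl, hmaxl⟩ := (K.filter fun k => k < i).exists_max_image id (by
    obtain ⟨k, hk, hki⟩ := hex
    exact ⟨k, by simp [hk, hki]⟩)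
  simp only [Finset.mem_filter, id_eq] at hl hmaxl
  refine ⟨l, hl.1, hl.2, fun k hk hki => hmaxl k ⟨hk, hki⟩, ?_⟩
  have hiE : i ∉ K.erase l := fun h5 => hiK (Finset.mem_of_mem_erase h5)
  refine ⟨?_, ?_, ?_, ?_, q, ?_, hqf, hqR⟩
  · rw [Finset.card_insert_of_notMem hiE, Finset.card_erase_of_mem hl.1]
    have : 0 < K.card := Finset.card_pos.2 ⟨l, hl.1⟩
    have := h.card
    omega
  · intro k hk
    rcases Finset.mem_insert.1 hk with rfl | hk
    · exact hi
    · exact h.lt k (Finset.mem_of_mem_erase hk)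
  · refine hD.subset ?_
    intro j hj
    simp only [Finset.mem_insert, Finset.mem_erase] at hj ⊢
    tauto
  · intro j hj
    rcases Finset.mem_insert.1 hj with rfl | hj
    · rw [rk_insert hiE, if_neg (lt_irrefl _), add_zero]
      have h5 := rk_erase hl.1 j
      rw [if_neg (by omega), add_zero] at h5
      rw [h5]
      exact hdi
    · obtain ⟨h6, h7⟩ := Finset.mem_erase.1 hj
      have h8 := h.alt j h7
      have h5 := rk_erase hl.1 j
      rw [rk_insert hiE]
      have h9 : rk (K.erase l) j + (if j < i then 1 else 0) = rk K j := by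
        rw [← h5]
        congr 1
        rcases lt_trichotomy j i with h10 | h10 | h10
        · have := hmaxl j ⟨h7, h10⟩
          rw [if_pos h10, if_pos (by omega)]
        · exact absurd (h10 ▸ h7) hiK
        · rw [if_neg (by omega), if_neg (by omega)]
      rw [h9]
      exact h8
  · intro k hk
    rcases Finset.mem_insert.1 hk with rfl | hk
    · exact hq k (Finset.mem_insert_self _ _)
    · exact hq k (Finset.mem_insert_of_mem (Finset.mem_of_mem_erase hk))

end Work

end Sys

end Pool.Agent.H682.CH
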